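import Pool.Agent.Helper48_F5.Est

/-!
Estimates for `Z`, `B`, `F`, `G` when `m` is multiplied by `σ = 1 + μ`.
-/

set_option autoImplicit false

open MeasureTheory

namespace Pool.Agent.Helper48_F5

open Pool.Agent.BTL Pool.Agent.F5S

section

variable {K T V : ℝ} {m h : T3}

theorem AW_scale (A : ℝ × ℝ × ℝ) (σ : ℝ) (m h : T3) (l : Fin 3) :
    AW A (σ • m) h l = σ ^ 2 * AW A m h l - (σ ^ 2 - 1) * qf A (h l) / 4 := by
  simp only [AW, Pi.smul_apply, ← bl_self, bl_smul, bl_smul']; ring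

theorem Bf_self (ho : Ok K T V m h) : Bf T m h m = (-2 : ℝ) • Zf T m h + Hf T m h := by
  refine eq_of_AW ho fun l => ?_
  rw [AW_Bf ho, AW_add, AW_smul, AW_Zf ho, AW_Hf ho]
  have h1 := AW_Zf ho (T := T) l
  rw [bl_self]
  simp only [AW] at h1
  linarith

theorem Gf_self (ho : Ok K T V m h) (l : Fin 3) :
    Gf T m h m l = -Ff T m h l + bl (Hf T m h) (m l) (h l) := by
  simp only [Gf, Ff, Bf_self ho, bl_add_form, bl_smul_form]; ring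

/-- `E = σ² Z_{σ m} - Z_m` -/
noncomputable def Ef (T σ : ℝ) (m h : T3) : ℝ × ℝ × ℝ :=
  σ ^ 2 • Zf T (σ • m) h - Zf T m h

theorem AW_Ef {σ : ℝ} (ho : Ok K T V m h) (ho' : Ok K T V (σ • m) h) (l : Fin 3) :
    AW (Ef T σ m h) m h l = (σ ^ 2 - 1) * qf (Zf T (σ • m) h) (h l) / 4 := by
  have h1 := AW_Zf ho' (T := T) l
  rw [AW_scale] at h1
  unfold Ef
  rw [AW_sub, AW_smul, AW_Zf ho]
  linarith

theorem sq_sub_le {σ : ℝ} (h1 : 1 / 2 ≤ σ) (h2 : σ ≤ 2) : |σ ^ 2 - 1| ≤ 3 * |σ - 1| := by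
  have : σ ^ 2 - 1 = (σ + 1) * (σ - 1) := by ring
  rw [this, abs_mul]
  have : |σ + 1| ≤ 3 := by rw [abs_le]; constructor <;> linarith
  exact mul_le_mul_of_nonneg_right this (abs_nonneg _)

theorem norm_Ef_le {σ : ℝ} (hK : 1 ≤ K) (hT : 0 < T) (ho : Ok K T V m h)
    (ho' : Ok K T V (σ • m) h) (h1 : 1 / 2 ≤ σ) (h2 : σ ≤ 2) :
    ‖Ef T σ m h‖ ≤ 3 * K ^ 2 * V ^ 2 * |σ - 1| / T ^ 2 := by
  have hK0 : 0 ≤ K := by linarith
  refine inv_le ho (f := 3 * K * V ^ 2 * |σ - 1|) (fun l => ?_) (le_of_eq (by ring))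
  rw [AW_Ef ho ho']
  have h3 := blb (norm_Zf_le hT ho') (ho.hh l) (ho.hh l)
  rw [bl_self] at h3
  rw [abs_div, abs_mul]
  have h4 : |(4 : ℝ)| = 4 := by norm_num
  rw [h4]
  have h5 := mul_le_mul (sq_sub_le h1 h2) h3 (abs_nonneg _) (by positivity)
  calc |σ ^ 2 - 1| * |qf (Zf T (σ • m) h) (h l)| / 4
      ≤ 3 * |σ - 1| * (4 * K * V * V) / 4 := by gcongr
    _ = _ := by ring

theorem dZs_le {σ : ℝ} (hK : 1 ≤ K) (hT : 0 < T) (hV : 0 ≤ V) (hVT : V ≤ T) (ho : Ok K T V m h)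
    (ho' : Ok K T V (σ • m) h) (h1 : 1 / 2 ≤ σ) (h2 : σ ≤ 2) :
    ‖Zf T (σ • m) h - Zf T m h‖ ≤ 18 * K ^ 2 * |σ - 1| := by
  have hK0 : 0 ≤ K := by linarith
  have hσ : 0 < σ := by linarith
  have hE := norm_Ef_le hK hT ho ho' h1 h2
  have hZ := norm_Zf_le hT ho
  have e1 : Zf T (σ • m) h - Zf T m h =
      (σ ^ 2)⁻¹ • Ef T σ m h + ((σ ^ 2)⁻¹ - 1) • Zf T m h := by
    unfold Ef
    rw [smul_sub, smul_smul, inv_mul_cancel₀ (by positivity), one_smul, sub_smul, one_smul]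
    abel
  have i1 : (σ ^ 2)⁻¹ ≤ 4 := by
    rw [inv_le_comm₀ (by positivity) (by norm_num)]
    nlinarith
  have i2 : |(σ ^ 2)⁻¹ - 1| ≤ 6 * |σ - 1| := by
    have : (σ ^ 2)⁻¹ - 1 = -((σ ^ 2)⁻¹ * (σ + 1)) * (σ - 1) := by
      field_simp; ring
    rw [this, abs_mul, abs_neg]
    refine mul_le_mul_of_nonneg_right ?_ (abs_nonneg _)
    rw [abs_of_nonneg (by positivity), inv_mul_le_iff₀ (by positivity)]
    nlinarith
  have i0 : 0 ≤ (σ ^ 2)⁻¹ := by positivity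
  rw [e1]
  refine (norm_add_le _ _).trans ?_
  rw [norm_smul, norm_smul, Real.norm_eq_abs, Real.norm_eq_abs, abs_of_nonneg i0]
  have v1 : V ^ 2 / T ^ 2 ≤ 1 := by
    rw [div_le_one (by positivity)]; gcongr
  have e2 : 3 * K ^ 2 * V ^ 2 * |σ - 1| / T ^ 2 ≤ 3 * K ^ 2 * |σ - 1| := by
    calc 3 * K ^ 2 * V ^ 2 * |σ - 1| / T ^ 2 = 3 * K ^ 2 * |σ - 1| * (V ^ 2 / T ^ 2) := by ring
      _ ≤ 3 * K ^ 2 * |σ - 1| * 1 := by gcongr
      _ = _ := by ring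
  have k2 : K ≤ K ^ 2 := by nlinarith
  have a0 := abs_nonneg (σ - 1)
  calc (σ ^ 2)⁻¹ * ‖Ef T σ m h‖ + |(σ ^ 2)⁻¹ - 1| * ‖Zf T m h‖
      ≤ 4 * (3 * K ^ 2 * |σ - 1|) + 6 * |σ - 1| * K ^ 2 := by
        gcongr
        · exact hE.trans e2
        · exact hZ.trans k2
    _ = _ := by ring

/-- `E = μ H + O(μ²)` -/
theorem EmH_le {σ : ℝ} (hK : 1 ≤ K) (hT : 0 < T) (hV : 0 ≤ V) (hVT : V ≤ T) (ho : Ok K T V m h)
    (ho' : Ok K T V (σ • m) h) (h1 : 1 / 2 ≤ σ) (h2 : σ ≤ 2) :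
    ‖Ef T σ m h - (σ - 1) • Hf T m h‖ ≤ 37 * K ^ 3 * V ^ 2 * |σ - 1| ^ 2 / T ^ 2 := by
  have hK0 : 0 ≤ K := by linarith
  have a0 := abs_nonneg (σ - 1)
  refine inv_le ho (f := 37 * K ^ 2 * V ^ 2 * |σ - 1| ^ 2) (fun l => ?_) (le_of_eq (by ring))
  have h3 := blb (norm_Zf_le hT ho') (ho.hh l) (ho.hh l)
  have h4 := blb (dZs_le hK hT hV hVT ho ho' h1 h2) (ho.hh l) (ho.hh l)
  have e1 : AW (Ef T σ m h - (σ - 1) • Hf T m h) m h l =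
      (σ - 1) ^ 2 * (bl (Zf T (σ • m) h) (h l) (h l) / 4) +
        (σ - 1) * (bl (Zf T (σ • m) h - Zf T m h) (h l) (h l) / 2) := by
    rw [AW_sub, AW_smul, AW_Ef ho ho', AW_Hf ho, bl_sub_form, bl_self, bl_self]; ring
  rw [e1]
  refine (abs_add_le _ _).trans ?_
  rw [abs_mul, abs_mul, abs_pow, abs_div, abs_div, abs_two]
  have h5 : |(4 : ℝ)| = 4 := by norm_num
  rw [h5]
  have k2 : K ≤ K ^ 2 := by nlinarith
  calc |σ - 1| ^ 2 * (|bl (Zf T (σ • m) h) (h l) (h l)| / 4) +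
        |σ - 1| * (|bl (Zf T (σ • m) h - Zf T m h) (h l) (h l)| / 2)
      ≤ |σ - 1| ^ 2 * (4 * K ^ 2 * V * V / 4) +
        |σ - 1| * (4 * (18 * K ^ 2 * |σ - 1|) * V * V / 2) := by
        gcongr
        exact h3.trans (by gcongr)
    _ = 37 * K ^ 2 * V ^ 2 * |σ - 1| ^ 2 := by ring

theorem Ff_scale {σ : ℝ} (hσ : 0 < σ) (l : Fin 3) :
    Ff T (σ • m) h l = σ⁻¹ * (Ff T m h l + bl (Ef T σ m h) (m l) (h l)) := by
  simp only [Ff, Ef, Pi.smul_apply, bl_smul, bl_sub_form, bl_smul_form]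
  field_simp
  ring

/-- second order change of `F` in the radial direction -/
theorem ddFs_le {σ : ℝ} (hK : 1 ≤ K) (hT : 0 < T) (hV : 0 ≤ V) (hVT : V ≤ T)
    (ho : Ok K T V m h) (ho' : Ok K T V (σ • m) h) (h1 : 1 / 2 ≤ σ) (h2 : σ ≤ 2) (l : Fin 3) :
    |Ff T (σ • m) h l - Ff T m h l - (σ - 1) * Gf T m h m l -
      (σ - 1) ^ 2 / σ * Ff T m h l| ≤ 172 * K ^ 4 * |σ - 1| ^ 2 * (V ^ 3 / T) := by
  have hK0 : 0 ≤ K := by linarith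
  have hσ : 0 < σ := by linarith
  have a0 := abs_nonneg (σ - 1)
  have hE := norm_Ef_le hK hT ho ho' h1 h2
  have hEH := EmH_le hK hT hV hVT ho ho' h1 h2
  have i1 : |σ⁻¹ - 1| ≤ 2 * |σ - 1| := by
    have : σ⁻¹ - 1 = -(σ⁻¹ * (σ - 1)) := by field_simp; ring
    rw [this, abs_neg, abs_mul]
    refine mul_le_mul_of_nonneg_right ?_ a0
    rw [abs_of_nonneg (by positivity), inv_le_comm₀ hσ (by norm_num)]
    linarith
  have e1 : Ff T (σ • m) h l - Ff T m h l - (σ - 1) * Gf T m h m l -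
      (σ - 1) ^ 2 / σ * Ff T m h l =
      bl ((σ⁻¹ - 1) • Ef T σ m h + (Ef T σ m h - (σ - 1) • Hf T m h)) (m l) (h l) := by
    rw [Ff_scale hσ, Gf_self ho, bl_add_form, bl_smul_form, bl_sub_form, bl_smul_form]
    field_simp
    ring
  rw [e1]
  have n1 : ‖(σ⁻¹ - 1) • Ef T σ m h + (Ef T σ m h - (σ - 1) • Hf T m h)‖ ≤
      43 * K ^ 3 * V ^ 2 * |σ - 1| ^ 2 / T ^ 2 := by
    refine (norm_add_le _ _).trans ?_
    rw [norm_smul, Real.norm_eq_abs]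
    have k2 : K ^ 2 ≤ K ^ 3 := pow_le_pow_right₀ hK (by norm_num)
    calc |σ⁻¹ - 1| * ‖Ef T σ m h‖ + ‖Ef T σ m h - (σ - 1) • Hf T m h‖
        ≤ 2 * |σ - 1| * (3 * K ^ 3 * V ^ 2 * |σ - 1| / T ^ 2) +
          37 * K ^ 3 * V ^ 2 * |σ - 1| ^ 2 / T ^ 2 := by
          gcongr
          exact hE.trans (by gcongr)
      _ = _ := by ring
  refine (blb n1 (ho.hm l) (ho.hh l)).trans (le_of_eq ?_)
  field_simp
  ring

/-- `σ³ B_{σ m}[v] - B_m[v]` -/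
noncomputable def Eb (T σ : ℝ) (m h v : T3) : ℝ × ℝ × ℝ :=
  σ ^ 3 • Bf T (σ • m) h v - Bf T m h v

theorem norm_Eb_le {σ : ℝ} (hK : 1 ≤ K) (hT : 0 < T) (hV : 0 ≤ V)
    (ho : Ok K T V m h) (ho' : Ok K T V (σ • m) h) (h1 : 1 / 2 ≤ σ) (h2 : σ ≤ 2) (v : T3) :
    ‖Eb T σ m h v‖ ≤ 72 * K ^ 4 * V ^ 2 * |σ - 1| * ‖v‖ / T ^ 3 := by
  have hK0 : 0 ≤ K := by linarith
  have hσ : 0 < σ := by linarith
  have a0 := abs_nonneg (σ - 1)
  have hv0 := norm_nonneg v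
  refine inv_le ho (f := 72 * K ^ 3 * V ^ 2 * |σ - 1| * ‖v‖ / T) (fun l => ?_)
    (le_of_eq (by ring))
  have e1 : AW (Eb T σ m h v) m h l = -(2 * bl (Ef T σ m h) (m l) (v l)) +
      σ * (σ ^ 2 - 1) * (bl (Bf T (σ • m) h v) (h l) (h l) / 4) := by
    have h3 := AW_Bf ho' (T := T) v l
    rw [AW_scale] at h3
    simp only [Pi.smul_apply, bl_smul] at h3
    unfold Eb Ef
    rw [AW_sub, AW_smul, AW_Bf ho, bl_sub_form, bl_smul_form, bl_self]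
    have h4 : σ ^ 3 * AW (Bf T (σ • m) h v) m h l =
        σ * (σ ^ 2 * AW (Bf T (σ • m) h v) m h l) := by ring
    rw [h4]
    have h5 : σ ^ 2 * AW (Bf T (σ • m) h v) m h l =
        -2 * (σ * bl (Zf T (σ • m) h) (m l) (v l)) +
          (σ ^ 2 - 1) * qf (Bf T (σ • m) h v) (h l) / 4 := by linarith
    rw [h5]; ring
  rw [e1]
  have h3 := blb (norm_Ef_le hK hT ho ho' h1 h2) (ho.hm l) (norm_le_pi_norm v l)
  have h4 := blb (norm_Bf_le hK hT ho' v) (ho.hh l) (ho.hh l)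
  refine (abs_add_le _ _).trans ?_
  rw [abs_neg, abs_mul, abs_two, abs_mul, abs_mul, abs_div, abs_of_pos hσ]
  have h5 : |(4 : ℝ)| = 4 := by norm_num
  rw [h5]
  calc 2 * |bl (Ef T σ m h) (m l) (v l)| +
        σ * |σ ^ 2 - 1| * (|bl (Bf T (σ • m) h v) (h l) (h l)| / 4)
      ≤ 2 * (4 * (3 * K ^ 2 * V ^ 2 * |σ - 1| / T ^ 2) * (K * T) * ‖v‖) +
        2 * (3 * |σ - 1|) * (4 * (8 * K ^ 3 * ‖v‖ / T) * V * V / 4) := by
        gcongr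
        exact sq_sub_le h1 h2
    _ = 72 * K ^ 3 * V ^ 2 * |σ - 1| * ‖v‖ / T := by field_simp; ring

theorem Gf_scale {σ : ℝ} (hσ : 0 < σ) (v : T3) (l : Fin 3) :
    Gf T (σ • m) h v l = (σ ^ 2)⁻¹ * (Gf T m h v l + (bl (Ef T σ m h) (v l) (h l) +
      bl (Eb T σ m h v) (m l) (h l))) := by
  simp only [Gf, Ef, Eb, Pi.smul_apply, bl_smul, bl_sub_form, bl_smul_form]
  field_simp
  ring

/-- change of `G` in the radial direction -/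
theorem dGs_le {σ : ℝ} (hK : 1 ≤ K) (hT : 0 < T) (hV : 0 ≤ V)
    (ho : Ok K T V m h) (ho' : Ok K T V (σ • m) h) (h1 : 1 / 2 ≤ σ) (h2 : σ ≤ 2) (v : T3)
    (l : Fin 3) :
    |Gf T (σ • m) h v l - (σ ^ 2)⁻¹ * Gf T m h v l| ≤
      1200 * K ^ 5 * |σ - 1| * ‖v‖ * (V ^ 3 / T ^ 2) := by
  have hK0 : 0 ≤ K := by linarith
  have hσ : 0 < σ := by linarith
  have a0 := abs_nonneg (σ - 1)
  have hv0 := norm_nonneg v
  have i1 : (σ ^ 2)⁻¹ ≤ 4 := by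
    rw [inv_le_comm₀ (by positivity) (by norm_num)]
    nlinarith
  have i0 : 0 ≤ (σ ^ 2)⁻¹ := by positivity
  rw [Gf_scale hσ]
  have e1 : (σ ^ 2)⁻¹ * (Gf T m h v l + (bl (Ef T σ m h) (v l) (h l) +
      bl (Eb T σ m h v) (m l) (h l))) - (σ ^ 2)⁻¹ * Gf T m h v l =
      (σ ^ 2)⁻¹ * (bl (Ef T σ m h) (v l) (h l) + bl (Eb T σ m h v) (m l) (h l)) := by ring
  rw [e1, abs_mul, abs_of_nonneg i0]
  have h3 := blb (norm_Ef_le hK hT ho ho' h1 h2) (norm_le_pi_norm v l) (ho.hh l)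
  have h4 := blb (norm_Eb_le hK hT hV ho ho' h1 h2 v) (ho.hm l) (ho.hh l)
  have k5 : K ^ 2 ≤ K ^ 5 := pow_le_pow_right₀ hK (by norm_num)
  calc (σ ^ 2)⁻¹ * |bl (Ef T σ m h) (v l) (h l) + bl (Eb T σ m h v) (m l) (h l)|
      ≤ 4 * (4 * (3 * K ^ 5 * V ^ 2 * |σ - 1| / T ^ 2) * ‖v‖ * V +
        4 * (72 * K ^ 4 * V ^ 2 * |σ - 1| * ‖v‖ / T ^ 3) * (K * T) * V) := by
        refine mul_le_mul i1 ((abs_add_le _ _).trans (add_le_add (h3.trans ?_) h4))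
          (abs_nonneg _) (by norm_num)
        gcongr
    _ = _ := by field_simp; ring

/-- change of `H (m, h)` -/
theorem dHm_le (hK : 1 ≤ K) (hT : 0 < T) (hV : 0 ≤ V) (ho : Ok K T V m h) {u : T3}
    (ho' : Ok K T V (m + u) h) (hu : ‖u‖ ≤ K * T) (l : Fin 3) :
    |bl (Hf T (m + u) h) ((m + u) l) (h l) - bl (Hf T m h) (m l) (h l)| ≤
      392 * K ^ 5 * (V ^ 3 / T ^ 2) * ‖u‖ := by
  have hK0 : 0 ≤ K := by linarith
  have hu0 := norm_nonneg u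
  have hH := norm_Hf_le hK hT ho
  have dH : ‖Hf T (m + u) h - Hf T m h‖ ≤ 48 * K ^ 4 * V ^ 2 * ‖u‖ / T ^ 3 := by
    refine inv_le ho' (f := 48 * K ^ 3 * V ^ 2 * ‖u‖ / T) (fun l => ?_) (le_of_eq (by ring))
    have e1 : AW (Hf T (m + u) h - Hf T m h) (m + u) h l =
        bl (Zf T (m + u) h - Zf T m h) (h l) (h l) / 2 -
          (2 * bl (Hf T m h) (m l) (u l) + bl (Hf T m h) (u l) (u l)) := by
      rw [AW_sub, AW_Hf ho', AW_move, AW_Hf ho, bl_sub_form, bl_self, bl_self, bl_self]; ring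
    have h1 := blb (dZ_le hK hT ho ho' hu) (ho.hh l) (ho.hh l)
    have h2 := blb hH (ho.hm l) (norm_le_pi_norm u l)
    have h3 := blb hH (norm_le_pi_norm u l) (norm_le_pi_norm u l)
    rw [e1]
    refine (abs_sub _ _).trans ?_
    refine (add_le_add (le_refl _) (abs_add_le _ _)).trans ?_
    rw [abs_div, abs_two, abs_mul, abs_two]
    have h4 : 4 * (2 * K ^ 2 * V ^ 2 / T ^ 2) * ‖u‖ * ‖u‖ ≤
        4 * (2 * K ^ 2 * V ^ 2 / T ^ 2) * (K * T) * ‖u‖ := by gcongr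
    have h5 := h3.trans h4
    calc |bl (Zf T (m + u) h - Zf T m h) (h l) (h l)| / 2 +
          (2 * |bl (Hf T m h) (m l) (u l)| + |bl (Hf T m h) (u l) (u l)|)
        ≤ 4 * (12 * K ^ 3 * ‖u‖ / T) * V * V / 2 +
          (2 * (4 * (2 * K ^ 2 * V ^ 2 / T ^ 2) * (K * T) * ‖u‖) +
            4 * (2 * K ^ 2 * V ^ 2 / T ^ 2) * (K * T) * ‖u‖) := by
          gcongr
      _ = 48 * K ^ 3 * V ^ 2 * ‖u‖ / T := by field_simp; ring
  have e2 : bl (Hf T (m + u) h) ((m + u) l) (h l) - bl (Hf T m h) (m l) (h l) =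
      bl (Hf T (m + u) h - Hf T m h) ((m + u) l) (h l) + bl (Hf T m h) (u l) (h l) := by
    simp only [Pi.add_apply, bl_add, bl_sub_form]; ring
  rw [e2]
  have h1 := blb dH (ho'.hm l) (ho.hh l)
  have h2 := blb hH (norm_le_pi_norm u l) (ho.hh l)
  refine (abs_add_le _ _).trans ?_
  have k5 : K ^ 2 ≤ K ^ 5 := pow_le_pow_right₀ hK (by norm_num)
  have k6 : (0 : ℝ) ≤ K ^ 5 * (V ^ 3 / T ^ 2) * ‖u‖ := by positivity
  calc |bl (Hf T (m + u) h - Hf T m h) ((m + u) l) (h l)| + |bl (Hf T m h) (u l) (h l)|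
      ≤ 4 * (48 * K ^ 4 * V ^ 2 * ‖u‖ / T ^ 3) * (K * T) * V +
        4 * (2 * K ^ 5 * V ^ 2 / T ^ 2) * ‖u‖ * V := by
        refine add_le_add h1 (h2.trans ?_)
        gcongr
    _ = 200 * (K ^ 5 * (V ^ 3 / T ^ 2) * ‖u‖) := by field_simp; ring
    _ ≤ 392 * (K ^ 5 * (V ^ 3 / T ^ 2) * ‖u‖) := by linarith
    _ = _ := by ring

end

end Pool.Agent.Helper48_F5
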