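import Pool.Agent.Helper48_F5.Lip

/-!
Block LIP: `LIPStmt` from `FUPStmt`, `LKStmt` (and the measurability in `FAFStmt`).
-/

set_option autoImplicit false

open MeasureTheory Filter Topology
open scoped ENNReal

namespace Pool.Agent.Helper48_F5

open Pool.Agent.BTL Pool.Agent.F5S Pool.Agent.F5H
open Pool.Agent.Helper96_GN (q6 dq6 dot6 lattice_sum6 dq6_mono)

theorem Adm_mono {T a b : ℝ} {W : R6 → ℝ} (hT : 1 ≤ T) (hab : a ≤ b) (hW : Adm T a W) :
    Adm T b W := by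
  have hT0 : 0 < T := by linarith
  have hp : T ^ a ≤ T ^ b := Real.rpow_le_rpow_of_exponent_le hT hab
  have hp0 : 0 < T ^ a := Real.rpow_pos_of_pos hT0 _
  refine ⟨hW.1, hW.2.1, fun c hc => ?_, fun c c' => ?_⟩
  · obtain ⟨h1, h2, h3, h4⟩ := hW.2.2.1 c hc
    have hd : T ^ 2 / T ^ b ≤ T ^ 2 / T ^ a :=
      div_le_div_of_nonneg_left (by positivity) hp0 hp
    exact ⟨h1, hd.trans h2, hd.trans h3, hd.trans h4⟩
  · refine (hW.2.2.2 c c').trans ?_
    refine mul_le_mul_of_nonneg_right ?_ (norm_nonneg _)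
    exact Real.rpow_le_rpow_of_exponent_le hT (by linarith)

theorem one_le_norm_r3 {h : Z6} (hh : h ≠ 0) : 1 ≤ ‖r3 h‖ := by
  have key : ∀ z : ℤ × ℤ, z ≠ 0 → 1 ≤ ‖rc z‖ := by
    intro z hz
    have h2 : z.1 ≠ 0 ∨ z.2 ≠ 0 := by
      by_contra hcon
      push Not at hcon
      exact hz (Prod.ext hcon.1 hcon.2)
    have hi : ∀ n : ℤ, n ≠ 0 → (1 : ℝ) ≤ |(n : ℝ)| := by
      intro n hn
      have : 1 ≤ |n| := Int.one_le_abs hn
      exact_mod_cast this
    rcases h2 with h2 | h2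
    · exact (hi _ h2).trans (abs_fst_le (rc z))
    · exact (hi _ h2).trans (abs_snd_le (rc z))
  have h2 : h.1 ≠ 0 ∨ h.2.1 ≠ 0 ∨ h.2.2 ≠ 0 := by
    by_contra hcon
    push Not at hcon
    exact hh (Prod.ext hcon.1 (Prod.ext hcon.2.1 hcon.2.2))
  have e0 : t3 (r3 h) 0 = rc h.1 := rfl
  have e1 : t3 (r3 h) 1 = rc h.2.1 := rfl
  have e2 : t3 (r3 h) 2 = rc h.2.2 := rfl
  rcases h2 with h2 | h2 | h2
  · exact (key _ h2).trans (e0 ▸ t3_norm_le (r3 h) 0)
  · exact (key _ h2).trans (e1 ▸ t3_norm_le (r3 h) 1)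
  · exact (key _ h2).trans (e2 ▸ t3_norm_le (r3 h) 2)

theorem mid_sub (h x y : R6) : mid h x - mid h y = x - y := by
  unfold mid; abel

theorem meas_mid (h : R6) : Measurable (mid h) := by
  unfold mid; exact measurable_id.add_const _

section

variable {T : ℝ} {h : R6}

/-- slow variation in the form needed -/
theorem slow_of (hb : Bg T) (h1 : 1 ≤ ‖h‖) {x m : R6} (hx : Lev 5 T h x)
    (hq : q6 (fl T h m) (x - m) ≤ Real.log T + 6 ∨ q6 (fl T h x) (x - m) ≤ Real.log T + 6)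
    (v : R6) : (1 - ex T) * q6 (fl T h x) v ≤ q6 (fl T h m) v ∧
      q6 (fl T h m) v ≤ (1 + ex T) * q6 (fl T h x) v := by
  have hT := hb.T0
  have hP := hb.P1
  have e0 : 0 ≤ ex T := by unfold ex; positivity
  have e1 := hb.e3
  have hx7 : Lev 7 T h x := lev_mono (by norm_num) (by norm_num) hT hP hx
  have hx6 : Lev 6 T h x := lev_mono (by norm_num) (by norm_num) hT hP hx
  have fx' : fl T h x = flg T h x := by unfold fl; rw [if_pos hx7]
  have hp0 : 0 < T ^ (6 * rho0) := Real.rpow_pos_of_pos hT _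
  rcases hq with hq | hq
  · have hm7 : Lev 7 T h m := by
      by_contra hcon
      exact near2 hb h1 hcon hq hx6
    obtain ⟨⟨N, hN, hs⟩, -⟩ := near1 hb h1 hm7 hq
    have fm : fl T h m = flg T h m := by unfold fl; rw [if_pos hm7]
    have h2 := q_cmp hb hN hs v
    have e5 : m + (x - m) = x := by abel
    rw [e5] at h2
    rw [fx', fm, q6_flg hT, q6_flg hT]
    have q0 := qN_nonneg T h m v
    have q1 := qN_nonneg T h x v
    have h3 := abs_le.1 h2
    obtain ⟨a, ha⟩ : ∃ a, a = qN T h m v := ⟨_, rfl⟩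
    obtain ⟨b, hbb⟩ : ∃ b, b = qN T h x v := ⟨_, rfl⟩
    obtain ⟨δ, hδ⟩ : ∃ δ, δ = ex T := ⟨_, rfl⟩
    rw [← ha, ← hbb, ← hδ] at h3
    rw [← ha] at q0
    rw [← hbb] at q1
    rw [← hδ] at e0 e1
    rw [← ha, ← hbb, ← hδ]
    have k1 : (1 - δ) * b ≤ a := by nlinarith [h3.1, h3.2, mul_nonneg e0 q0, mul_nonneg e0 q1]
    have k2 : a ≤ (1 + δ) * b := by nlinarith [h3.1, h3.2, mul_nonneg e0 q0, mul_nonneg e0 q1]
    constructor
    · calc (1 - δ) * (T ^ (6 * rho0) * b) = T ^ (6 * rho0) * ((1 - δ) * b) := by ring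
        _ ≤ _ := mul_le_mul_of_nonneg_left k1 hp0.le
    · calc T ^ (6 * rho0) * a ≤ T ^ (6 * rho0) * ((1 + δ) * b) :=
            mul_le_mul_of_nonneg_left k2 hp0.le
        _ = _ := by ring
  · have hq' : q6 (fl T h x) (m - x) ≤ Real.log T + 6 := by
      have e : q6 (fl T h x) (m - x) = q6 (fl T h x) (x - m) := by
        unfold q6
        refine Finset.sum_congr rfl fun j _ => ?_
        rw [← neg_sub x m, map_neg, neg_sq]
      rw [e]; exact hq
    obtain ⟨⟨N, hN, hs⟩, hc⟩ := near1 hb h1 hx7 hq'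
    have hm6 := lev_of_cl (by norm_num) (by norm_num) hT hP e0 hb.e1 hx hc
    have hm7 : Lev 7 T h m := lev_mono (by norm_num) (by norm_num) hT hP hm6
    have fm : fl T h m = flg T h m := by unfold fl; rw [if_pos hm7]
    have h2 := q_cmp hb hN hs v
    have e5 : x + (m - x) = m := by abel
    rw [e5] at h2
    rw [fx', fm, q6_flg hT, q6_flg hT]
    have q0 := qN_nonneg T h m v
    have q1 := qN_nonneg T h x v
    have h3 := abs_le.1 h2
    obtain ⟨a, ha⟩ : ∃ a, a = qN T h m v := ⟨_, rfl⟩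
    obtain ⟨b, hbb⟩ : ∃ b, b = qN T h x v := ⟨_, rfl⟩
    obtain ⟨δ, hδ⟩ : ∃ δ, δ = ex T := ⟨_, rfl⟩
    rw [← ha, ← hbb, ← hδ] at h3
    rw [← ha] at q0
    rw [← hbb] at q1
    rw [← hδ] at e0 e1
    rw [← ha, ← hbb, ← hδ]
    have k1 : (1 - δ) * b ≤ a := by nlinarith [h3.1, h3.2, mul_nonneg e0 q0, mul_nonneg e0 q1]
    have k2 : a ≤ (1 + δ) * b := by nlinarith [h3.1, h3.2, mul_nonneg e0 q0, mul_nonneg e0 q1]
    constructor
    · calc (1 - δ) * (T ^ (6 * rho0) * b) = T ^ (6 * rho0) * ((1 - δ) * b) := by ring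
        _ ≤ _ := mul_le_mul_of_nonneg_left k1 hp0.le
    · calc T ^ (6 * rho0) * a ≤ T ^ (6 * rho0) * ((1 + δ) * b) :=
            mul_le_mul_of_nonneg_left k2 hp0.le
        _ = _ := by ring

/-- the closeness in the form needed -/
theorem cl_of (hb : Bg T) (h1 : 1 ≤ ‖h‖) {x m : R6}
    (hq : q6 (fl T h m) (x - m) ≤ Real.log T + 6) (hx : Lev 6 T h x) :
    Lev 7 T h m ∧ Cl T h m x (ex T) := by
  have hm7 : Lev 7 T h m := by
    by_contra hcon
    exact near2 hb h1 hcon hq hx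
  exact ⟨hm7, (near1 hb h1 hm7 hq).2⟩

end

theorem haar4 : (volume : Measure ((ℝ × ℝ) × (ℝ × ℝ))).IsAddHaarMeasure := by
  have h : (volume : Measure (ℝ × ℝ)).IsAddHaarMeasure := inferInstance
  exact @Measure.prod.instIsAddHaarMeasure (ℝ × ℝ) _ _ _ (ℝ × ℝ) _ _ _ volume volume h h _ _ _ _

theorem haar6 : (volume : Measure R6).IsAddHaarMeasure := by
  have h : (volume : Measure (ℝ × ℝ)).IsAddHaarMeasure := inferInstance
  exact @Measure.prod.instIsAddHaarMeasure (ℝ × ℝ) _ _ _ ((ℝ × ℝ) × (ℝ × ℝ)) _ _ _ volume volume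
    h haar4 _ _ _ _

theorem lintegral_mid (H : R6) (G : R6 → ℝ≥0∞) : ∫⁻ x, G (mid H x) = ∫⁻ x, G x := by
  have := haar6
  unfold mid
  exact lintegral_add_right_eq_self G _

theorem meas_Lev_mid (a T : ℝ) (H : R6) : MeasurableSet {x : R6 | Lev a T H (mid H x)} :=
  (meas_mid H) (meas_Lev a T H)

theorem meas_fx (faf : FAFStmt) {M T e : ℝ} {p : ℝ × ℝ} {W : R6 → ℝ} (hM : 1 ≤ M) (hT0 : 0 < T)
    (he : 0 < e) (hW : Measurable W) (hW1 : ∀ c, 0 ≤ W c ∧ W c ≤ 1) (h : Z6) :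
    Measurable (fx M T e p W h) := by
  have hL0 : 0 < Lx T := Real.rpow_pos_of_pos hT0 _
  have hR0 : 0 < Rx T := Real.rpow_pos_of_pos hT0 _
  have h2 := (faf M (Lx T) (Rx T) e hM hL0 hR0 he p W hW hW1).2.2.2.1
  have h3 : Measurable fun x : R6 => ((x, x + r3 h) : R6 × R6) :=
    measurable_id.prodMk (measurable_id.add_const _)
  have h4 := h2.comp h3
  have e1 : fx M T e p W h = (fun z : R6 × R6 => FF M (Lx T) (Rx T) e p W z.1 z.2) ∘
      fun x : R6 => ((x, x + r3 h) : R6 × R6) := by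
    funext x
    simp only [fx, Fx, Function.comp_apply]
  rw [e1]
  exact h4

theorem ind_exists (S : Set R6) (c : ℝ) (hS : MeasurableSet S) : ∃ F : R6 → ℝ, Measurable F ∧
    (∀ x ∈ S, F x = c) ∧ ∀ x, x ∉ S → F x = 0 :=
  ⟨S.indicator fun _ => c, measurable_const.indicator hS,
    fun _ hx => Set.indicator_of_mem hx _, fun _ hx => Set.indicator_of_notMem hx _⟩

/-- the right-hand side for a function of the region, abstract form -/
theorem rhs_le {T : ℝ} {H : R6} {A B : R6 → ℝ≥0∞} {a c : ℝ≥0∞}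
    (hac : a ≠ ⊤) (hcc : c ≠ ⊤) (hc : 2 * c ≤ ENNReal.ofReal (Px T ^ 500 * (T ^ 4)⁻¹))
    (hA : ∀ x, Lev 6 T H (mid H x) → a * A x ≤ c * (ENNReal.ofReal (T ^ (-(2 * rho0))) +
      ((DK T H (mid H x)).ncard : ℝ≥0∞)))
    (hA0 : ∀ x, ¬ Lev 6 T H (mid H x) → A x = 0)
    (hB : ∀ x, Lev 6 T H (mid H x) → B x ≤ c * (ENNReal.ofReal (T ^ (-(2 * rho0))) +
      ((DK T H (mid H x)).ncard : ℝ≥0∞)))
    (hB0 : ∀ x, ¬ Lev 6 T H (mid H x) → B x = 0) :
    a * (∫⁻ x, A x) + ∫⁻ x, B x ≤ ENNReal.ofReal (Px T ^ 500 * (T ^ 4)⁻¹) *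
      ∫⁻ m in {m | Lev 6 T H m}, (ENNReal.ofReal (T ^ (-(2 * rho0))) +
        ((DK T H m).ncard : ℝ≥0∞)) := by
  obtain ⟨G, hG⟩ : ∃ G : R6 → ℝ≥0∞, G = fun m => (ENNReal.ofReal (T ^ (-(2 * rho0))) +
    ((DK T H m).ncard : ℝ≥0∞)) := ⟨_, rfl⟩
  obtain ⟨S, hS⟩ : ∃ S : Set R6, S = {m | Lev 6 T H m} := ⟨_, rfl⟩
  have hSm : MeasurableSet S := by rw [hS]; exact meas_Lev 6 T H
  have e1 : ∫⁻ m in {m | Lev 6 T H m}, (ENNReal.ofReal (T ^ (-(2 * rho0))) +
      ((DK T H m).ncard : ℝ≥0∞)) = ∫⁻ x, S.indicator G (mid H x) := by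
    rw [← hS, ← hG, ← lintegral_indicator hSm]
    exact (lintegral_mid H (S.indicator G)).symm
  rw [e1]
  have t1 : a * (∫⁻ x, A x) ≤ c * ∫⁻ x, S.indicator G (mid H x) := by
    rw [← lintegral_const_mul' _ _ hac, ← lintegral_const_mul' _ _ hcc]
    refine lintegral_mono fun x => ?_
    by_cases hx : Lev 6 T H (mid H x)
    · rw [Set.indicator_of_mem (by rw [hS]; exact hx), hG]
      exact hA x hx
    · rw [Set.indicator_of_notMem (by rw [hS]; exact hx), hA0 x hx, mul_zero, mul_zero]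
  have t2 : (∫⁻ x, B x) ≤ c * ∫⁻ x, S.indicator G (mid H x) := by
    rw [← lintegral_const_mul' _ _ hcc]
    refine lintegral_mono fun x => ?_
    by_cases hx : Lev 6 T H (mid H x)
    · rw [Set.indicator_of_mem (by rw [hS]; exact hx), hG]
      exact hB x hx
    · rw [Set.indicator_of_notMem (by rw [hS]; exact hx), hB0 x hx, mul_zero]
  calc a * (∫⁻ x, A x) + ∫⁻ x, B x ≤ c * (∫⁻ x, S.indicator G (mid H x)) +
        c * ∫⁻ x, S.indicator G (mid H x) := add_le_add t1 t2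
    _ = (2 * c) * ∫⁻ x, S.indicator G (mid H x) := by ring
    _ ≤ _ := mul_le_mul' hc le_rfl

/-- THE LATTICE SUM for one difference -/
theorem lip_of (faf : FAFStmt) (hF : FUPStmt) (hL : LKStmt) : LIPStmt := by
  obtain ⟨dF, hdF, HF⟩ := hF
  obtain ⟨dL, hdL, HL⟩ := hL
  refine ⟨min dF dL, lt_min hdF hdL, fun M hM e he p => ?_⟩
  obtain ⟨TF, hTF, HF⟩ := HF M hM e he p
  obtain ⟨TL, hTL, HL⟩ := HL M hM e he p
  obtain ⟨TB, hTB⟩ := Filter.eventually_atTop.1 ev_Bg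
  refine ⟨max 1 (max TF (max TL TB)), le_max_left _ _, fun T hT W hW h hh0 => ?_⟩
  have T1 : 1 ≤ T := (le_max_left _ _).trans hT
  have hT' := (le_max_right _ _).trans hT
  have hTF' : TF ≤ T := (le_max_left _ _).trans hT'
  have hT'' := (le_max_right _ _).trans hT'
  have hTL' : TL ≤ T := (le_max_left _ _).trans hT''
  have hb : Bg T := hTB T ((le_max_right _ _).trans hT'')
  have hWF : Adm T dF W := Adm_mono T1 (min_le_left _ _) hW
  have hWL : Adm T dL W := Adm_mono T1 (min_le_right _ _) hW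
  have HF := HF T hTF' W hWF h
  have HL := HL T hTL' W hWL h
  have h1 := one_le_norm_r3 hh0
  have hT0 := hb.T0
  have hP := hb.P1
  have e0 : 0 ≤ ex T := by unfold ex; positivity
  have hlog : 0 ≤ Real.log T := Real.log_nonneg T1
  obtain ⟨H, hH⟩ : ∃ H, H = r3 h := ⟨_, rfl⟩
  rw [← hH] at h1 HF HL ⊢
  obtain ⟨c, hc⟩ : ∃ c, c = Px T ^ 200 * (T ^ 4)⁻¹ := ⟨_, rfl⟩
  have hP0 : 0 ≤ Px T := by linarith
  have hc0 : 0 ≤ c := by rw [hc]; positivity
  -- measurability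
  have hfm : Measurable (fx M T e p W h) := meas_fx faf hM hT0 he hW.1 hW.2.1 h
  obtain ⟨f, hf⟩ : ∃ f, f = fx M T e p W h := ⟨_, rfl⟩
  rw [← hf] at HF HL hfm ⊢
  obtain ⟨F1, -, hF1, hF1'⟩ := ind_exists {x | Lev 5 T H (mid H x)} c (meas_Lev_mid 5 T H)
  obtain ⟨F2, hF2m, hF2, hF2'⟩ := ind_exists {x | Lev 6 T H (mid H x)} c (meas_Lev_mid 6 T H)
  have l45 : ∀ x, Lev 4 T H x → Lev 5 T H x := fun x hx =>
    lev_mono (by norm_num) (by norm_num) hT0 hP hx
  have l56 : ∀ x, Lev 5 T H x → Lev 6 T H x := fun x hx =>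
    lev_mono (by norm_num) (by norm_num) hT0 hP hx
  have l67 : ∀ x, Lev 6 T H x → Lev 7 T H x := fun x hx =>
    lev_mono (by norm_num) (by norm_num) hT0 hP hx
  have hPc : Px T ^ 100 * (T ^ 4)⁻¹ ≤ c := by
    rw [hc]
    refine mul_le_mul_of_nonneg_right (pow_le_pow_right₀ hP (by norm_num)) (by positivity)
  have hfF : ∀ x, |f x| ≤ F1 x := by
    intro x
    obtain ⟨a1, a2, a3⟩ := HF x
    rw [abs_of_nonneg a1]
    by_cases hx : Lev 5 T H (mid H x)
    · rw [hF1 x hx]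
      exact a2.trans hPc
    · rw [hF1' x hx]
      by_cases hfx : f x = 0
      · rw [hfx]
      · exact absurd (l45 _ (a3 hfx)) hx
  have hfc : ∀ x, |f x| ≤ c := by
    intro x
    refine (hfF x).trans ?_
    by_cases hx : Lev 5 T H (mid H x)
    · rw [hF1 x hx]
    · rw [hF1' x hx]; exact hc0
  have hf0 : ∀ x, ¬ Lev 6 T H (mid H x) → f x = 0 := by
    intro x hx
    by_contra hcon
    exact hx (l56 _ (l45 _ ((HF x).2.2 hcon)))
  have sq : ∀ x m : R6, q6 (fl T H (mid H m)) (x - m) ≤ Real.log T + 6 →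
      q6 (fl T H (mid H m)) (mid H x - mid H m) ≤ Real.log T + 6 := by
    intro x m hm; rw [mid_sub]; exact hm
  have lip : ∀ x m : R6, q6 (fl T H (mid H m)) (x - m) ≤ Real.log T + 6 →
      |f m - f x| ≤ ex T * F1 x := by
    intro x m hm
    have hm' := sq x m hm
    by_cases hx : Lev 5 T H (mid H x)
    · obtain ⟨c1, c2⟩ := cl_of hb h1 hm' (l56 _ hx)
      have e5 : m + (x - m) = x := by abel
      have hk := HL m (x - m) c1 (by rw [e5]; exact l67 _ (l56 _ hx)) (ex T) hb.e2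
        (by linarith [hb.e3]) (by rw [← mid_sub H]; exact c2.d)
        (fun i j => by rw [e5]; exact c2.F i j) (by rw [e5]; exact c2.F1 2)
      rw [e5] at hk
      rw [abs_sub_comm, hF1 x hx, hc]
      refine hk.trans (le_of_eq (by ring))
    · have hfx : f x = 0 := by
        by_contra hcon
        exact hx (l45 _ ((HF x).2.2 hcon))
      have hfm0 : f m = 0 := by
        by_contra hcon
        have hm4 := (HF m).2.2 hcon
        have hm7 := l67 _ (l56 _ (l45 _ hm4))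
        have hcl := (near1 hb h1 hm7 hm').2
        have h5 := lev_of_cl (by norm_num) (by norm_num) hT0 hP e0 hb.e1 hm4 hcl
        have e7 : (4 : ℝ) + 1 = 5 := by norm_num
        rw [e7] at h5
        exact hx h5
      rw [hfx, hfm0, hF1' x hx, sub_zero, abs_zero, mul_zero]
  have dom : ∀ x m : R6, q6 (fl T H (mid H m)) (x - m) ≤ Real.log T + 6 → F1 x ≤ F2 m := by
    intro x m hm
    have hm' := sq x m hm
    by_cases hx : Lev 5 T H (mid H x)
    · obtain ⟨c1, c2⟩ := cl_of hb h1 hm' (l56 _ hx)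
      have h6 := lev_of_cl (by norm_num) (by norm_num) hT0 hP e0 hb.e1 hx c2.symm
      have e7 : (5 : ℝ) + 1 = 6 := by norm_num
      rw [e7] at h6
      rw [hF1 x hx, hF2 m h6]
    · rw [hF1' x hx]
      by_cases hm6 : Lev 6 T H (mid H m)
      · rw [hF2 m hm6]; exact hc0
      · rw [hF2' m hm6]
  have main := lattice_sum6 (l := fun x => fl T H (mid H x))
    (fun j v => (meas_fl T H j v).comp (meas_mid H))
    (fun x v hv => fl_pos hT0 (by linarith) (mid H x) v hv)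
    (δ := ex T) (L := Real.log T + 6) (R := Px T / 3) e0 hb.e3 (by linarith)
    (by linarith) (S := {x | Lev 5 T H (mid H x)}) (f := f) (F1 := F1) (F2 := F2) hfm hF2m
    (fun x hx m hm v => by
      have hm' : q6 (fl T H (mid H m)) (mid H x - mid H m) ≤ Real.log T + 6 ∨
          q6 (fl T H (mid H x)) (mid H x - mid H m) ≤ Real.log T + 6 := by
        rw [mid_sub]; exact hm
      exact slow_of hb h1 hx hm' v)
    hF1' hfF lip dom
  refine main.trans ?_
  have hset : ∀ x, Lev 6 T H x → dq6 (q6 (fl T H x)) (Px T) = DK T H x := by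
    intro x hx
    have fe : fl T H x = flg T H x := by unfold fl; rw [if_pos (l67 _ hx)]
    rw [fe]
    ext k
    simp only [dq6, DK, Set.mem_ofPred_eq, q6_flg hT0]
  have e3R : 3 * (Px T / 3) = Px T := by ring
  rw [e3R]
  have k2 : ENNReal.ofReal (10 ^ 9 * (ex T + Real.exp (-(Real.log T + 6)) +
      Real.exp (-(Px T / 3) ^ 2))) ≤ ENNReal.ofReal (T ^ (-(2 * rho0))) :=
    ENNReal.ofReal_le_ofReal hb.fin
  have k3 : ENNReal.ofReal (T ^ (-(2 * rho0))) ≤ 1 := by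
    rw [← ENNReal.ofReal_one]
    refine ENNReal.ofReal_le_ofReal ?_
    exact Real.rpow_le_one_of_one_le_of_nonpos T1 (by linarith [rho0_pos])
  have k4 : 2 * ENNReal.ofReal c ≤ ENNReal.ofReal (Px T ^ 500 * (T ^ 4)⁻¹) := by
    have : (2 : ℝ≥0∞) = ENNReal.ofReal 2 := by norm_num
    rw [this, ← ENNReal.ofReal_mul (by norm_num)]
    refine ENNReal.ofReal_le_ofReal ?_
    rw [hc]
    have p1 : 2 * Px T ^ 200 ≤ Px T ^ 500 := by
      calc 2 * Px T ^ 200 ≤ Px T * Px T ^ 200 :=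
            mul_le_mul_of_nonneg_right hb.P2 (by positivity)
        _ = Px T ^ 201 := by ring
        _ ≤ Px T ^ 500 := pow_le_pow_right₀ hP (by norm_num)
    calc 2 * (Px T ^ 200 * (T ^ 4)⁻¹) = (2 * Px T ^ 200) * (T ^ 4)⁻¹ := by ring
      _ ≤ _ := mul_le_mul_of_nonneg_right p1 (by positivity)
  refine rhs_le (c := ENNReal.ofReal c) ENNReal.ofReal_ne_top ENNReal.ofReal_ne_top k4
    ?_ ?_ ?_ ?_
  · intro x hx
    have n1 : ((dq6 (q6 (fl T H (mid H x))) 3).ncard : ℝ≥0∞) ≤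
        ((DK T H (mid H x)).ncard : ℝ≥0∞) := by
      rw [← hset _ hx]
      exact_mod_cast dq6_mono (fun v hv => fl_pos hT0 (by linarith) (mid H x) v hv)
        (by norm_num) (by linarith [hb.P9])
    obtain ⟨n, hn⟩ : ∃ n : ℝ≥0∞, n = ((DK T H (mid H x)).ncard : ℝ≥0∞) := ⟨_, rfl⟩
    obtain ⟨t, ht⟩ : ∃ t : ℝ≥0∞, t = ENNReal.ofReal (T ^ (-(2 * rho0))) := ⟨_, rfl⟩
    rw [← ht] at k2 k3 ⊢
    rw [← hn] at n1 ⊢
    have h6 : F2 x = c := hF2 x hx
    rw [h6]
    calc _ ≤ t * (ENNReal.ofReal c * (1 + n)) :=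
          mul_le_mul' k2 (mul_le_mul' le_rfl (add_le_add le_rfl n1))
      _ = ENNReal.ofReal c * (t + t * n) := by ring
      _ ≤ ENNReal.ofReal c * (t + 1 * n) :=
          mul_le_mul' le_rfl (add_le_add le_rfl (mul_le_mul' k3 le_rfl))
      _ = _ := by rw [one_mul]
  · intro x hx
    have h6 : F2 x = 0 := hF2' x hx
    rw [h6, ENNReal.ofReal_zero, zero_mul]
  · intro x hx
    rw [hset _ hx]
    refine mul_le_mul' (ENNReal.ofReal_le_ofReal (hfc x)) ?_
    exact le_add_self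
  · intro x hx
    rw [hf0 x hx, abs_zero, ENNReal.ofReal_zero, zero_mul]

end Pool.Agent.Helper48_F5
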