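import Pool.Agent.Helper48_F5.Near

/-!
Block LIP: conditions for large `T`.
-/

set_option autoImplicit false

open MeasureTheory Filter Topology

namespace Pool.Agent.Helper48_F5

open Pool.Agent.BTL Pool.Agent.F5S Pool.Agent.F5H

/-- size of a step -/
noncomputable def Nx (T : ℝ) : ℝ := 2 * Real.sqrt (Real.log T + 6) * T ^ (-(3 * rho0))

/-- `τ` -/
noncomputable def tx (T : ℝ) : ℝ := T ^ (-(3 / 100 : ℝ))

/-- `η` -/
noncomputable def ex (T : ℝ) : ℝ := T ^ (-(5 / 2 * rho0))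

/-- `T` is large -/
structure Bg (T : ℝ) : Prop where
  T1 : 1 ≤ T
  P2 : 2 ≤ Px T
  P9 : 9 ≤ Px T
  ok : 6 * (8 * Px T) ^ 4 * (8 * Lx T) ^ 2 ≤ T ^ 2
  lt : 8 * Lx T ≤ T
  t2 : tx T ≤ 1 / 2
  Pt : 8 * Px T * tx T ≤ 1
  N1 : 10 ^ 8 * Kc (Px T) ^ 8 * Nx T ≤ ex T
  e1 : ex T ≤ 1 / (2500 * Px T)
  e2 : T ^ (-(1 / 100 : ℝ)) ≤ ex T
  e3 : ex T ≤ 1 / 200
  R1 : 2 * T ^ (4 / 3 : ℝ) ≤ Rx T
  bad : 1000 * Kc (Px T) ^ 4 * Lx T * (Real.sqrt (Real.log T + 6) / T) ≤ Nx T
  fin : 10 ^ 9 * (ex T + Real.exp (-(Real.log T + 6)) + Real.exp (-(Px T / 3) ^ 2)) ≤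
    T ^ (-(2 * rho0))

theorem ev_le (C a b : ℝ) (h : a < b) : ∀ᶠ T in atTop, C * T ^ a ≤ T ^ b := by
  have h1 := (tendsto_rpow_atTop (y := b - a) (by linarith)).eventually_ge_atTop C
  filter_upwards [h1, eventually_gt_atTop 0] with T hT hT0
  have e : T ^ b = T ^ (b - a) * T ^ a := by
    rw [← Real.rpow_add hT0]; congr 1; ring
  rw [e]
  exact mul_le_mul_of_nonneg_right hT (Real.rpow_nonneg hT0.le _)

theorem ev_log (a : ℝ) (h : 0 < a) : ∀ᶠ T in atTop, Real.log T + 6 ≤ T ^ a := by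
  have h1 := (isLittleO_log_rpow_atTop h).bound (by norm_num : (0 : ℝ) < 1 / 2)
  have h2 := (tendsto_rpow_atTop h).eventually_ge_atTop 12
  filter_upwards [h1, h2, eventually_gt_atTop 1] with T hT hT2 hT0
  rw [Real.norm_eq_abs, Real.norm_eq_abs, abs_of_nonneg (Real.log_nonneg hT0.le),
    abs_of_nonneg (Real.rpow_nonneg (by linarith) _)] at hT
  linarith

theorem ev_Bg : ∀ᶠ T in atTop, Bg T := by
  have r0 := rho0_pos
  have r1 := rho0_le
  have hP2 : ∀ᶠ T in atTop, 2 ≤ Px T := by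
    have := ev_le 2 0 (rho0 / 10000) (by positivity)
    filter_upwards [this] with T hT
    rw [Real.rpow_zero, mul_one] at hT
    exact hT
  have hok := ev_le (6 * 8 ^ 4 * 64) (4 * (rho0 / 10000) + 277 / 250) 2 (by linarith)
  have hlt := ev_le 8 (277 / 500) 1 (by norm_num)
  have ht2 := ev_le 2 (-(3 / 100)) 0 (by norm_num)
  have hPt := ev_le 8 (rho0 / 10000 + -(3 / 100)) 0 (by linarith)
  have hN1 := ev_le (10 ^ 8 * (6 * 8 ^ 4) ^ 8 * 2)
    (32 * (rho0 / 10000) + rho0 / 4 + -(3 * rho0)) (-(5 / 2 * rho0)) (by linarith)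
  have he1 := ev_le 2500 (rho0 / 10000 + -(5 / 2 * rho0)) 0 (by linarith)
  have he3 := ev_le 200 (-(5 / 2 * rho0)) 0 (by linarith)
  have hR1 := ev_le 2 (4 / 3) (669 / 500 + 2 * rho0) (by linarith)
  have hbad := ev_le (1000 * (6 * 8 ^ 4) ^ 4) (16 * (rho0 / 10000) + 277 / 500 + -1)
    (-(3 * rho0)) (by linarith)
  have hfin := ev_le (3 * 10 ^ 9) (-(5 / 2 * rho0)) (-(2 * rho0)) (by linarith)
  have hl1 := ev_log (rho0 / 4) (by positivity)
  have hl2 := ev_log (rho0 / 10000) (by positivity)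
  have hP9 := ev_le 9 0 (rho0 / 10000) (by positivity)
  filter_upwards [hP2, hok, hlt, ht2, hPt, hN1, he1, he3, hR1, hbad, hfin, hl1, hl2, hP9,
    eventually_ge_atTop 1] with T hP2 hok hlt ht2 hPt hN1 he1 he3 hR1 hbad hfin hl1 hl2 hP9 hT
  have T0 : 0 < T := by linarith
  have hlog : 0 ≤ Real.log T := Real.log_nonneg hT
  have pw : ∀ (a : ℝ) (n : ℕ), (T ^ a) ^ n = T ^ (n * a) := by
    intro a n
    rw [← Real.rpow_natCast, ← Real.rpow_mul T0.le]; congr 1; ring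
  have hsq : Real.sqrt (Real.log T + 6) ≤ T ^ (rho0 / 4) := by
    have h1 : Real.sqrt (Real.log T + 6) ≤ Real.log T + 6 := by
      rw [Real.sqrt_le_left (by linarith)]
      nlinarith
    exact h1.trans hl1
  have hmono : ∀ a b : ℝ, a ≤ b → T ^ a ≤ T ^ b := fun a b hab =>
    Real.rpow_le_rpow_of_exponent_le hT hab
  have e0 : T ^ (0 : ℝ) = 1 := Real.rpow_zero T
  have hP9'' : 9 ≤ Px T := by
    rw [e0, mul_one] at hP9
    exact hP9
  refine ⟨hT, hP2, hP9'', ?_, ?_, ?_, ?_, ?_, ?_, ?_, ?_, hR1, ?_, ?_⟩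
  · have e : 6 * (8 * Px T) ^ 4 * (8 * Lx T) ^ 2 =
        6 * 8 ^ 4 * 64 * T ^ (4 * (rho0 / 10000) + 277 / 250) := by
      have a1 : (8 * Px T) ^ 4 = 8 ^ 4 * T ^ (4 * (rho0 / 10000)) := by
        rw [mul_pow]; unfold Px; rw [pw]; norm_num
      have a2 : (8 * Lx T) ^ 2 = 64 * T ^ (277 / 250 : ℝ) := by
        rw [mul_pow]; unfold Lx; rw [pw]; norm_num
      rw [a1, a2, Real.rpow_add T0]; ring
    rw [e]
    refine hok.trans (le_of_eq ?_)
    exact Real.rpow_two T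
  · have : T ^ (1 : ℝ) = T := Real.rpow_one T
    rw [this] at hlt
    exact hlt
  · rw [e0] at ht2
    unfold tx; linarith
  · rw [e0, Real.rpow_add T0] at hPt
    unfold Px tx; linarith
  · have e : 10 ^ 8 * (6 * 8 ^ 4) ^ 8 * 2 * T ^ (32 * (rho0 / 10000) + rho0 / 4 + -(3 * rho0)) =
        10 ^ 8 * Kc (Px T) ^ 8 * (2 * T ^ (rho0 / 4) * T ^ (-(3 * rho0))) := by
      have a1 : Kc (Px T) ^ 8 = (6 * 8 ^ 4) ^ 8 * T ^ (32 * (rho0 / 10000)) := by
        have : Kc (Px T) = (6 * 8 ^ 4) * T ^ (4 * (rho0 / 10000)) := by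
          unfold Kc; rw [mul_pow]; unfold Px; rw [pw]; norm_num; ring
        rw [this, mul_pow, pw]
        congr 2
        norm_num
        ring
      rw [a1, Real.rpow_add T0, Real.rpow_add T0]; ring
    rw [e] at hN1
    refine le_trans ?_ hN1
    unfold Nx
    have hK : 0 ≤ Kc (Px T) := by unfold Kc; have : 0 ≤ Px T := by linarith
                                  positivity
    gcongr
  · rw [e0, Real.rpow_add T0] at he1
    rw [le_div_iff₀ (by linarith)]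
    unfold ex Px; linarith
  · exact hmono _ _ (by linarith)
  · rw [e0] at he3
    unfold ex; linarith
  · have e : 1000 * (6 * 8 ^ 4) ^ 4 * T ^ (16 * (rho0 / 10000) + 277 / 500 + -1) =
        1000 * Kc (Px T) ^ 4 * Lx T * T⁻¹ := by
      have a1 : Kc (Px T) ^ 4 = (6 * 8 ^ 4) ^ 4 * T ^ (16 * (rho0 / 10000)) := by
        have : Kc (Px T) = (6 * 8 ^ 4) * T ^ (4 * (rho0 / 10000)) := by
          unfold Kc; rw [mul_pow]; unfold Px; rw [pw]; norm_num; ring
        rw [this, mul_pow, pw]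
        congr 2
        norm_num
        ring
      rw [a1, Real.rpow_add T0, Real.rpow_add T0, Real.rpow_neg_one]
      unfold Lx; ring
    rw [e] at hbad
    have hs0 := Real.sqrt_nonneg (Real.log T + 6)
    calc 1000 * Kc (Px T) ^ 4 * Lx T * (Real.sqrt (Real.log T + 6) / T) =
        (1000 * Kc (Px T) ^ 4 * Lx T * T⁻¹) * Real.sqrt (Real.log T + 6) := by ring
      _ ≤ T ^ (-(3 * rho0)) * Real.sqrt (Real.log T + 6) := mul_le_mul_of_nonneg_right hbad hs0
      _ ≤ Nx T := by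
          unfold Nx
          have : 0 ≤ T ^ (-(3 * rho0)) := Real.rpow_nonneg T0.le _
          nlinarith [mul_nonneg hs0 this]
  · have h1 : Real.exp (-(Real.log T + 6)) ≤ T⁻¹ := by
      have : Real.exp (-(Real.log T + 6)) ≤ Real.exp (-Real.log T) :=
        Real.exp_le_exp.2 (by linarith)
      rwa [Real.exp_neg (Real.log T), Real.exp_log T0] at this
    have h2 : Real.exp (-(Px T / 3) ^ 2) ≤ T⁻¹ := by
      have hP9' : 9 ≤ Px T := by
        rw [e0, mul_one] at hP9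
        exact hP9
      have hl2' : Real.log T + 6 ≤ Px T := hl2
      have a : Real.log T ≤ (Px T / 3) ^ 2 := by nlinarith
      have : Real.exp (-(Px T / 3) ^ 2) ≤ Real.exp (-Real.log T) :=
        Real.exp_le_exp.2 (by linarith)
      rwa [Real.exp_neg (Real.log T), Real.exp_log T0] at this
    have h3 : T⁻¹ ≤ ex T := by
      unfold ex
      rw [← Real.rpow_neg_one]
      exact hmono _ _ (by linarith)
    refine le_trans ?_ hfin
    unfold ex at h3 ⊢
    linarith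

end Pool.Agent.Helper48_F5
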