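import Pool.Agent.Helper48_F5.LipMain
import Pool.Agent.F5H.StmtsM

/-!
`DKNStmt`: the link between the blocks LIP and C.
-/

set_option autoImplicit false

open MeasureTheory Filter Topology

namespace Pool.Agent.Helper48_F5

open Pool.Agent.BTL Pool.Agent.F5S Pool.Agent.F5H
open Pool.Agent.Helper96_GN (dot6)

theorem cp_eq (x : R6) : BC.cp x = t3 x := rfl

theorem bl_eq (A : ℝ × ℝ × ℝ) (x y : ℝ × ℝ) : BC.bl A x y = bl A x y := rfl

theorem kap_eq (T V : ℝ) : BC.kap T V = kap T V := rfl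

theorem kpr_eq (T V : ℝ) : BC.kpr T V = kapr T V := by
  unfold BC.kpr kapr
  rw [kap_eq]

theorem d6_eq (k : Z6) (v : R6) : BC.d6 (r3 k) v = dot6 k v := by
  unfold BC.d6 dot6
  rw [Fin.sum_univ_three]
  rfl

/-- radial coordinate of a vector, two bounds -/
theorem nu_bds {K T : ℝ} {x : T3} (hK : 0 < K) (hT : 0 < T) (hx : ‖x‖ ≤ K * T)
    (hip : T ^ 2 / K ^ 2 ≤ ip x x) (v : T3) :
    |nu x v| * ‖x‖ ≤ 6 * ‖v‖ ∧ |nu x v| * T ≤ 6 * K ^ 3 * ‖v‖ := by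
  have hip0 : 0 < ip x x := lt_of_lt_of_le (by positivity) hip
  have hv := norm_nonneg v
  have hx0 := norm_nonneg x
  have a1 := abs_ip_le v x
  have e : |nu x v| = |ip v x| / ip x x := by
    unfold nu; rw [abs_div, abs_of_pos hip0]
  constructor
  · have a2 := sq_norm_le_ip x
    rw [e, div_mul_eq_mul_div, div_le_iff₀ hip0]
    calc |ip v x| * ‖x‖ ≤ 6 * ‖v‖ * ‖x‖ * ‖x‖ := mul_le_mul_of_nonneg_right a1 hx0
      _ = 6 * ‖v‖ * ‖x‖ ^ 2 := by ring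
      _ ≤ 6 * ‖v‖ * ip x x := by gcongr
  · rw [e, div_mul_eq_mul_div, div_le_iff₀ hip0]
    calc |ip v x| * T ≤ 6 * ‖v‖ * ‖x‖ * T := mul_le_mul_of_nonneg_right a1 hT.le
      _ ≤ 6 * ‖v‖ * (K * T) * T := by gcongr
      _ = 6 * K ^ 3 * ‖v‖ * (T ^ 2 / K ^ 2) := by field_simp
      _ ≤ _ := by gcongr

theorem kapr_le_kap {T V : ℝ} (hT : 1 ≤ T) (hV : 1 ≤ V) (hVT : V ≤ T) :
    kapr T V ≤ kap T V := by
  have hT0 : 0 < T := by linarith
  have hk0 : 0 < kap T V := kap_pos hT0 (by linarith)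
  have hk1 : kap T V ≤ 1 := by
    unfold kap
    have a : V / T ≤ 1 := by rw [div_le_one hT0]; exact hVT
    calc Real.sqrt (V / T) ≤ Real.sqrt 1 := Real.sqrt_le_sqrt a
      _ = 1 := Real.sqrt_one
  refine max_le ?_ ?_
  · calc kap T V ^ 3 = kap T V * kap T V ^ 2 := by ring
      _ ≤ kap T V * 1 := mul_le_mul_of_nonneg_left (pow_le_one₀ hk0.le hk1) hk0.le
      _ = kap T V := mul_one _
  · have a : T ^ (-(1 / 2) : ℝ) ≤ kap T V := by
      unfold kap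
      refine Real.le_sqrt_of_sq_le ?_
      rw [← Real.rpow_natCast, ← Real.rpow_mul hT0.le]
      have : (-(1 / 2) : ℝ) * ((2 : ℕ) : ℝ) = -1 := by norm_num
      rw [this, Real.rpow_neg_one, le_div_iff₀ hT0, inv_mul_cancel₀ hT0.ne']
      exact hV
    refine le_trans ?_ a
    exact Real.rpow_le_rpow_of_exponent_le hT (by norm_num)

/-- square root of the quadratic form against any decomposition -/
theorem sqrt_qN_le {T : ℝ} (hb : Bg T) {h m : R6} (h1 : 1 ≤ ‖h‖) (hl : Lev 7 T h m) {v w : R6}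
    {ν : ℝ} (hv : v = ν • m + w) :
    Real.sqrt (qN T h m v) ≤ 27 * Kc (Px T) ^ 3 *
      ((∑ i, ∑ j, |Gf T (t3 m) (t3 h) (t3 v) i - Gf T (t3 m) (t3 h) (t3 v) j|) +
        kap T ‖h‖ * ‖w‖ + kapr T ‖h‖ * T * |ν|) := by
  have hT := hb.T0
  have hK := hb.K1
  have hP := hb.P1
  have hLx : 0 ≤ Lx T := by unfold Lx; positivity
  have hh : ‖h‖ ≤ 8 * Lx T := hl.hh.trans (by linarith)
  have hp := par_of hb h1 hh
  have hsz : Sz 7 (Px T) T (t3 m) := ⟨hl.hm, hl.hd⟩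
  have ho := ok_of hb hh (by norm_num) (by norm_num) hsz
  have hip := hsz.ip (by norm_num) (by norm_num) hP hT
  have hip0 : 0 < ip (t3 m) (t3 m) := lt_of_lt_of_le (by positivity) hip
  have hmK : ‖t3 m‖ ≤ Kc (Px T) * T := (pi_norm_le_iff_of_nonneg (by positivity)).2 ho.hm
  obtain ⟨b1, b2⟩ := nu_bds (by linarith : 0 < Kc (Px T)) hT hmK hip (t3 w)
  rw [norm_t3 w] at b1 b2
  have hk := hp.k0
  have hr := hp.r0
  have hrk := kapr_le_kap hb.T1 h1 (hh.trans hb.lt)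
  have hw0 := norm_nonneg w
  -- the radial coordinate of `v`
  have e1 : nu (t3 m) (t3 v) = ν + nu (t3 m) (t3 w) := by
    rw [hv, t3_add, t3_smul, nu_add, nu_smul]
    have : nu (t3 m) (t3 m) = 1 := by unfold nu; exact div_self hip0.ne'
    rw [this, mul_one]
  have e2 : t3 v - nu (t3 m) (t3 v) • t3 m = t3 w - nu (t3 m) (t3 w) • t3 m := by
    rw [e1, hv, t3_add, t3_smul, add_smul]; abel
  have c1 : ‖t3 v - nu (t3 m) (t3 v) • t3 m‖ ≤ 7 * ‖w‖ := by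
    rw [e2]
    refine (norm_sub_le _ _).trans ?_
    rw [norm_smul, Real.norm_eq_abs, norm_t3 w]
    linarith
  have c2 : kapr T ‖h‖ * T * |nu (t3 m) (t3 v)| ≤ kapr T ‖h‖ * T * |ν| +
      6 * Kc (Px T) ^ 3 * (kap T ‖h‖ * ‖w‖) := by
    rw [e1]
    have a1 := abs_add_le ν (nu (t3 m) (t3 w))
    calc kapr T ‖h‖ * T * |ν + nu (t3 m) (t3 w)| ≤
        kapr T ‖h‖ * T * (|ν| + |nu (t3 m) (t3 w)|) :=
          mul_le_mul_of_nonneg_left a1 (by positivity)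
      _ = kapr T ‖h‖ * T * |ν| + kapr T ‖h‖ * (|nu (t3 m) (t3 w)| * T) := by ring
      _ ≤ kapr T ‖h‖ * T * |ν| + kap T ‖h‖ * (6 * Kc (Px T) ^ 3 * ‖w‖) := by
          refine add_le_add (le_refl _) (mul_le_mul hrk b2 (by positivity) hk.le)
      _ = _ := by ring
  -- the square root
  obtain ⟨S, hS⟩ : ∃ S, S = ∑ i, ∑ j,
    |Gf T (t3 m) (t3 h) (t3 v) i - Gf T (t3 m) (t3 h) (t3 v) j| := ⟨_, rfl⟩
  have hSp : ∀ i j, |Gf T (t3 m) (t3 h) (t3 v) i - Gf T (t3 m) (t3 h) (t3 v) j| ≤ S := by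
    intro i j
    rw [hS]
    refine le_trans ?_ (Finset.single_le_sum (f := fun i => ∑ j,
      |Gf T (t3 m) (t3 h) (t3 v) i - Gf T (t3 m) (t3 h) (t3 v) j|)
      (fun i _ => Finset.sum_nonneg fun j _ => abs_nonneg _) (Finset.mem_univ i))
    exact Finset.single_le_sum (f := fun j =>
      |Gf T (t3 m) (t3 h) (t3 v) i - Gf T (t3 m) (t3 h) (t3 v) j|)
      (fun j _ => abs_nonneg _) (Finset.mem_univ j)
  rw [← hS]
  have s1 := hSp 0 2
  have s2 := hSp 1 2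
  have hS0 : 0 ≤ S := (abs_nonneg _).trans s1
  obtain ⟨x, hx⟩ : ∃ x, x = t3 v - nu (t3 m) (t3 v) • t3 m := ⟨_, rfl⟩
  have hipx : ip x x ≤ 6 * ‖x‖ * ‖x‖ := (le_abs_self _).trans (abs_ip_le x x)
  have hx7 : ‖x‖ ≤ 7 * ‖w‖ := by rw [hx]; exact c1
  have hx0 := norm_nonneg x
  have k3 : 1 ≤ Kc (Px T) ^ 3 := one_le_pow₀ hK
  have hq : qN T h m v = (Gf T (t3 m) (t3 h) (t3 v) 0 - Gf T (t3 m) (t3 h) (t3 v) 2) ^ 2 +
    (Gf T (t3 m) (t3 h) (t3 v) 1 - Gf T (t3 m) (t3 h) (t3 v) 2) ^ 2 +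
    kap T ‖h‖ ^ 2 * ip x x + (kapr T ‖h‖ * T * nu (t3 m) (t3 v)) ^ 2 := by rw [hx]; rfl
  have q1 : (Gf T (t3 m) (t3 h) (t3 v) 0 - Gf T (t3 m) (t3 h) (t3 v) 2) ^ 2 ≤ S ^ 2 := by
    rw [← sq_abs]; exact pow_le_pow_left₀ (abs_nonneg _) s1 2
  have q2 : (Gf T (t3 m) (t3 h) (t3 v) 1 - Gf T (t3 m) (t3 h) (t3 v) 2) ^ 2 ≤ S ^ 2 := by
    rw [← sq_abs]; exact pow_le_pow_left₀ (abs_nonneg _) s2 2
  have q3 : kap T ‖h‖ ^ 2 * ip x x ≤ (18 * (kap T ‖h‖ * ‖w‖)) ^ 2 := by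
    calc kap T ‖h‖ ^ 2 * ip x x ≤ kap T ‖h‖ ^ 2 * (6 * (7 * ‖w‖) * (7 * ‖w‖)) := by
          refine mul_le_mul_of_nonneg_left (hipx.trans ?_) (by positivity)
          gcongr
      _ = 294 * (kap T ‖h‖ * ‖w‖) ^ 2 := by ring
      _ ≤ 324 * (kap T ‖h‖ * ‖w‖) ^ 2 := by
          have : 0 ≤ (kap T ‖h‖ * ‖w‖) ^ 2 := by positivity
          linarith
      _ = _ := by ring
  obtain ⟨R, hR⟩ : ∃ R, R = kapr T ‖h‖ * T * |ν| + 6 * Kc (Px T) ^ 3 * (kap T ‖h‖ * ‖w‖) :=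
    ⟨_, rfl⟩
  rw [← hR] at c2
  have q4 : (kapr T ‖h‖ * T * nu (t3 m) (t3 v)) ^ 2 ≤ R ^ 2 := by
    rw [← sq_abs, abs_mul, abs_of_pos (by positivity : 0 < kapr T ‖h‖ * T)]
    exact pow_le_pow_left₀ (by positivity) c2 2
  have hR0 : 0 ≤ R := by rw [hR]; positivity
  obtain ⟨W, hW⟩ : ∃ W, W = kap T ‖h‖ * ‖w‖ := ⟨_, rfl⟩
  have hW0 : 0 ≤ W := by rw [hW]; positivity
  rw [← hW] at q3 hR ⊢
  have f1 : Real.sqrt (qN T h m v) ≤ 2 * S + 18 * W + R := by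
    rw [Real.sqrt_le_left (by positivity)]
    rw [hq]
    nlinarith [mul_nonneg hS0 hW0, mul_nonneg hS0 hR0, mul_nonneg hW0 hR0, sq_nonneg S]
  refine f1.trans ?_
  rw [hR]
  obtain ⟨Z, hZ⟩ : ∃ Z, Z = kapr T ‖h‖ * T * |ν| := ⟨_, rfl⟩
  have hZ0 : 0 ≤ Z := by rw [hZ]; positivity
  rw [← hZ]
  obtain ⟨C, hC⟩ : ∃ C, C = Kc (Px T) ^ 3 := ⟨_, rfl⟩
  rw [← hC] at k3 ⊢
  nlinarith [mul_nonneg (sub_nonneg.2 k3) hS0, mul_nonneg (sub_nonneg.2 k3) hW0,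
    mul_nonneg (sub_nonneg.2 k3) hZ0]

/-- DKN -/
theorem dkn : DKNStmt := by
  intro ep hep
  have r0 := rho0_pos
  -- constants for large `T`
  have hA := ev_le (27 * (6 * 8 ^ 4) ^ 3) (13 * (rho0 / 10000) + 3 * rho0) (4 * rho0)
    (by linarith)
  have hB := ev_le 6 (rho0 / 10000) (4 * rho0) (by linarith)
  have hev : ∀ᶠ T in atTop, Bg T ∧ 27 * (6 * 8 ^ 4) ^ 3 * T ^ (13 * (rho0 / 10000) + 3 * rho0) ≤
      T ^ (4 * rho0) ∧ 6 * T ^ (rho0 / 10000) ≤ T ^ (4 * rho0) :=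
    ev_Bg.and (hA.and hB)
  obtain ⟨T0, hT0⟩ := Filter.eventually_atTop.1 hev
  refine ⟨max 1 T0, le_max_left _ _, fun T hT h hh m hl6 => ?_⟩
  obtain ⟨hb, hA, hB⟩ := hT0 T ((le_max_right _ _).trans hT)
  have h1 := one_le_norm_r3 hh
  have hT := hb.T0
  have hT1 := hb.T1
  have hP := hb.P1
  have hK := hb.K1
  have hQ : T ^ (4 * rho0) ≤ T ^ ep := Real.rpow_le_rpow_of_exponent_le hT1 hep
  have hQ6 : 6 * Px T ≤ T ^ ep := hB.trans hQ
  have hl : Lev 7 T (r3 h) m := lev_mono (by norm_num) (by norm_num) hT hP hl6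
  have hLx : 0 ≤ Lx T := by unfold Lx; positivity
  have hRx : 0 ≤ Rx T := by unfold Rx; positivity
  have hhn : ‖r3 h‖ ≤ 8 * Lx T := hl.hh.trans (by linarith)
  have hsz : Sz 7 (Px T) T (t3 m) := ⟨hl.hm, hl.hd⟩
  have ho := ok_of hb hhn (by norm_num) (by norm_num) hsz
  refine ⟨⟨Zf T (t3 m) (t3 (r3 h)), ?_, ?_, ?_, ?_, ?_⟩, ?_⟩
  · intro x
    have h2 := hl6.hZ x
    have hn : 0 ≤ nr x := by unfold nr; positivity
    refine ⟨le_trans ?_ h2.1, h2.2.trans (by gcongr)⟩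
    exact div_le_div_of_nonneg_left hn (by positivity) hQ6
  · intro l
    exact AW_Zf ho l
  · intro i j
    exact (hl6.hF i j).trans hQ6
  · intro l
    refine (hl6.hR l).trans ?_
    exact mul_le_mul_of_nonneg_right hQ6 hRx
  · intro i j hij
    have h2 := hl6.hd i j hij
    rw [div_le_iff₀ (by positivity)] at h2
    calc T ^ 2 ≤ |dr (t3 m i) (t3 m j)| * (6 * Px T) := h2
      _ ≤ |dr (t3 m i) (t3 m j)| * T ^ ep := mul_le_mul_of_nonneg_left hQ6 (abs_nonneg _)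
      _ = _ := by rw [mul_comm]; rfl
  · intro k hk A B v w ν hAo hBo hv
    have eA : A = Zf T (t3 m) (t3 (r3 h)) := by
      refine eq_of_AW ho fun l => ?_
      rw [AW_Zf ho]
      exact hAo l
    have eB : B = Bf T (t3 m) (t3 (r3 h)) (t3 v) := by
      refine eq_of_AW ho fun l => ?_
      rw [AW_Bf ho]
      have h2 := hBo l
      rw [eA] at h2
      have h3 : BC.bl (Zf T (t3 m) (t3 (r3 h))) (BC.cp m l) (BC.cp v l) =
        bl (Zf T (t3 m) (t3 (r3 h))) (t3 m l) (t3 v l) := rfl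
      rw [h3] at h2
      have h4 : AW B (t3 m) (t3 (r3 h)) l = qf B (BC.cp m l) + qf B (BC.cp (r3 h) l) / 4 := rfl
      rw [h4, h2]; ring
    have h2 := hk.2 v
    have hq0 := qN_nonneg T (r3 h) m v
    have h3 : |dot6 k v| ≤ Px T * (T ^ (3 * rho0) * Real.sqrt (qN T (r3 h) m v)) := by
      have e2 : T ^ (6 * rho0) = (T ^ (3 * rho0)) ^ 2 := by
        rw [← Real.rpow_natCast, ← Real.rpow_mul hT.le]; congr 1; push_cast; ring
      have e3 : Px T ^ 2 * (T ^ (6 * rho0) * qN T (r3 h) m v) =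
          (Px T * (T ^ (3 * rho0) * Real.sqrt (qN T (r3 h) m v))) ^ 2 := by
        rw [e2, mul_pow, mul_pow, Real.sq_sqrt hq0]
      rw [e3] at h2
      exact abs_le_of_sq_le_sq h2 (by positivity)
    have h4 := sqrt_qN_le hb h1 hl hv
    rw [d6_eq, kap_eq, kpr_eq]
    have eG : ∀ i, BC.Gf (r3 h) m A B v i = Gf T (t3 m) (t3 (r3 h)) (t3 v) i := by
      intro i
      rw [eA, eB]
      rfl
    have eS : (∑ i, ∑ j, |BC.Gf (r3 h) m A B v i - BC.Gf (r3 h) m A B v j|) =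
        ∑ i, ∑ j, |Gf T (t3 m) (t3 (r3 h)) (t3 v) i - Gf T (t3 m) (t3 (r3 h)) (t3 v) j| := by
      refine Finset.sum_congr rfl fun i _ => Finset.sum_congr rfl fun j _ => ?_
      rw [eG, eG]
    rw [eS]
    obtain ⟨N, hN⟩ : ∃ N, N = (∑ i, ∑ j, |Gf T (t3 m) (t3 (r3 h)) (t3 v) i -
      Gf T (t3 m) (t3 (r3 h)) (t3 v) j|) + kap T ‖r3 h‖ * ‖w‖ + kapr T ‖r3 h‖ * T * |ν| :=
      ⟨_, rfl⟩
    rw [← hN] at h4 ⊢
    have hN0 : 0 ≤ N := by
      have hk0 := kap_pos (V := ‖r3 h‖) hT (by linarith)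
      have hr0 := kapr_pos (V := ‖r3 h‖) hT
      rw [hN]
      have : 0 ≤ ∑ i, ∑ j, |Gf T (t3 m) (t3 (r3 h)) (t3 v) i -
          Gf T (t3 m) (t3 (r3 h)) (t3 v) j| :=
        Finset.sum_nonneg fun i _ => Finset.sum_nonneg fun j _ => abs_nonneg _
      positivity
    have h5 : Px T * (T ^ (3 * rho0) * (27 * Kc (Px T) ^ 3)) ≤ T ^ ep := by
      refine le_trans (le_of_eq ?_) (hA.trans hQ)
      have a1 : Kc (Px T) ^ 3 = (6 * 8 ^ 4) ^ 3 * T ^ (12 * (rho0 / 10000)) := by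
        have pw : ∀ (a : ℝ) (n : ℕ), (T ^ a) ^ n = T ^ (n * a) := by
          intro a n
          rw [← Real.rpow_natCast, ← Real.rpow_mul hT.le]; congr 1; ring
        have : Kc (Px T) = (6 * 8 ^ 4) * T ^ (4 * (rho0 / 10000)) := by
          unfold Kc; rw [mul_pow]; unfold Px; rw [pw]; norm_num; ring
        rw [this, mul_pow, pw]
        congr 2
        norm_num
        ring
      have a2 : T ^ (13 * (rho0 / 10000) + 3 * rho0) =
          T ^ (12 * (rho0 / 10000)) * Px T * T ^ (3 * rho0) := by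
        unfold Px
        rw [← Real.rpow_add hT, ← Real.rpow_add hT]; congr 1; ring
      rw [a1, a2]; ring
    calc |dot6 k v| ≤ Px T * (T ^ (3 * rho0) * Real.sqrt (qN T (r3 h) m v)) := h3
      _ ≤ Px T * (T ^ (3 * rho0) * (27 * Kc (Px T) ^ 3 * N)) := by gcongr
      _ = (Px T * (T ^ (3 * rho0) * (27 * Kc (Px T) ^ 3))) * N := by ring
      _ ≤ T ^ ep * N := mul_le_mul_of_nonneg_right h5 hN0

end Pool.Agent.Helper48_F5
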