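import Pool.Agent.Helper48_F5.Sol

/-!
Estimates for `Z`, `B`, `F`, `G` when `m` moves by a small vector.
-/

set_option autoImplicit false

open MeasureTheory

namespace Pool.Agent.Helper48_F5

open Pool.Agent.BTL Pool.Agent.F5S

theorem AW_move (A : ℝ × ℝ × ℝ) (m u h : T3) (l : Fin 3) :
    AW A (m + u) h l = AW A m h l + 2 * bl A (m l) (u l) + qf A (u l) := by
  simp only [AW, Pi.add_apply, ← bl_self, bl_add, bl_add', bl_comm A (u l) (m l)]; ring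

section

variable {K T V : ℝ} {m h : T3}

theorem norm_Zf_le (hT : 0 < T) (ho : Ok K T V m h) : ‖Zf T m h‖ ≤ K := by
  have := norm_sol_le ho (f := fun _ => T ^ 2) (c := T ^ 2) (fun l => by
    rw [abs_of_nonneg (by positivity)])
  calc ‖Zf T m h‖ ≤ K * T ^ 2 / T ^ 2 := this
    _ = K := by field_simp

theorem norm_Bf_le (hK : 1 ≤ K) (hT : 0 < T) (ho : Ok K T V m h) (v : T3) :
    ‖Bf T m h v‖ ≤ 8 * K ^ 3 * ‖v‖ / T := by
  have hK0 : 0 ≤ K := by linarith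
  have hv := norm_nonneg v
  have := norm_sol_le ho (f := fun l => -2 * bl (Zf T m h) (m l) (v l))
    (c := 8 * K ^ 2 * T * ‖v‖) (fun l => by
      have h1 := blb (norm_Zf_le hT ho) (ho.hm l) (norm_le_pi_norm v l)
      rw [abs_mul, abs_neg, abs_two]
      calc 2 * |bl (Zf T m h) (m l) (v l)| ≤ 2 * (4 * K * (K * T) * ‖v‖) := by linarith
        _ = 8 * K ^ 2 * T * ‖v‖ := by ring)
  calc ‖Bf T m h v‖ ≤ K * (8 * K ^ 2 * T * ‖v‖) / T ^ 2 := this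
    _ = 8 * K ^ 3 * ‖v‖ / T := by field_simp

theorem norm_Hf_le (hK : 1 ≤ K) (hT : 0 < T) (ho : Ok K T V m h) :
    ‖Hf T m h‖ ≤ 2 * K ^ 2 * V ^ 2 / T ^ 2 := by
  have hK0 : 0 ≤ K := by linarith
  have := norm_sol_le ho (f := fun l => qf (Zf T m h) (h l) / 2)
    (c := 2 * K * V ^ 2) (fun l => by
      have h1 := blb (norm_Zf_le hT ho) (ho.hh l) (ho.hh l)
      rw [bl_self] at h1
      rw [abs_div, abs_two]
      have : |qf (Zf T m h) (h l)| ≤ 4 * K * V ^ 2 := by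
        calc _ ≤ 4 * K * V * V := h1
          _ = _ := by ring
      linarith)
  calc ‖Hf T m h‖ ≤ K * (2 * K * V ^ 2) / T ^ 2 := this
    _ = _ := by ring

theorem AW_Zf (ho : Ok K T V m h) (l : Fin 3) : AW (Zf T m h) m h l = T ^ 2 := AW_sol ho _ l

theorem AW_Bf (ho : Ok K T V m h) (v : T3) (l : Fin 3) :
    AW (Bf T m h v) m h l = -2 * bl (Zf T m h) (m l) (v l) := AW_sol ho _ l

theorem AW_Hf (ho : Ok K T V m h) (l : Fin 3) :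
    AW (Hf T m h) m h l = qf (Zf T m h) (h l) / 2 := AW_sol ho _ l

theorem inv_le (ho : Ok K T V m h) {A : ℝ × ℝ × ℝ} {f c : ℝ} (hf : ∀ l, |AW A m h l| ≤ f)
    (hc : K * f / T ^ 2 ≤ c) : ‖A‖ ≤ c := (ho.inv A f hf).trans hc

/-- change of `Z` -/
theorem dZ_le (hK : 1 ≤ K) (hT : 0 < T) (ho : Ok K T V m h) {u : T3} (ho' : Ok K T V (m + u) h)
    (hu : ‖u‖ ≤ K * T) : ‖Zf T (m + u) h - Zf T m h‖ ≤ 12 * K ^ 3 * ‖u‖ / T := by
  have hK0 : 0 ≤ K := by linarith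
  have hu0 := norm_nonneg u
  refine inv_le ho' (f := 12 * K ^ 2 * T * ‖u‖) (fun l => ?_) (le_of_eq (by field_simp))
  have h1 := blb (norm_Zf_le hT ho) (ho.hm l) (norm_le_pi_norm u l)
  have h2 := blb (norm_Zf_le hT ho) (norm_le_pi_norm u l) (norm_le_pi_norm u l)
  rw [bl_self] at h2
  have h3 : AW (Zf T (m + u) h - Zf T m h) (m + u) h l =
      -(2 * bl (Zf T m h) (m l) (u l) + qf (Zf T m h) (u l)) := by
    rw [AW_sub, AW_Zf ho', AW_move, AW_Zf ho]; ring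
  rw [h3, abs_neg]
  refine (abs_add_le _ _).trans ?_
  rw [abs_mul, abs_two]
  have h4 : 4 * K * ‖u‖ * ‖u‖ ≤ 4 * K * (K * T) * ‖u‖ := by gcongr
  calc 2 * |bl (Zf T m h) (m l) (u l)| + |qf (Zf T m h) (u l)|
      ≤ 2 * (4 * K * (K * T) * ‖u‖) + 4 * K * (K * T) * ‖u‖ := by linarith
    _ = 12 * K ^ 2 * T * ‖u‖ := by ring

/-- second order change of `Z` -/
theorem ddZ_le (hK : 1 ≤ K) (hT : 0 < T) (ho : Ok K T V m h) {u : T3} (ho' : Ok K T V (m + u) h)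
    (hu : ‖u‖ ≤ K * T) :
    ‖Zf T (m + u) h - Zf T m h - Bf T m h u‖ ≤ 100 * K ^ 5 * ‖u‖ ^ 2 / T ^ 2 := by
  have hK0 : 0 ≤ K := by linarith
  have hu0 := norm_nonneg u
  refine inv_le ho' (f := 100 * K ^ 4 * ‖u‖ ^ 2) (fun l => ?_) (le_of_eq (by ring))
  have hB := norm_Bf_le hK hT ho u
  have h1 := blb (norm_Zf_le hT ho) (norm_le_pi_norm u l) (norm_le_pi_norm u l)
  have h2 := blb hB (ho.hm l) (norm_le_pi_norm u l)
  have h3 := blb hB (norm_le_pi_norm u l) (norm_le_pi_norm u l)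
  rw [bl_self] at h1 h3
  have h4 : AW (Zf T (m + u) h - Zf T m h - Bf T m h u) (m + u) h l =
      -(qf (Zf T m h) (u l) + 2 * bl (Bf T m h u) (m l) (u l) + qf (Bf T m h u) (u l)) := by
    rw [AW_sub, AW_sub, AW_Zf ho', AW_move, AW_Zf ho, AW_move, AW_Bf ho]; ring
  rw [h4, abs_neg]
  refine (abs_add_le _ _).trans ((add_le_add (abs_add_le _ _) (le_refl _)).trans ?_)
  rw [abs_mul, abs_two]
  have e2 : 4 * (8 * K ^ 3 * ‖u‖ / T) * (K * T) * ‖u‖ = 32 * K ^ 4 * ‖u‖ ^ 2 := by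
    field_simp; ring
  have e3 : 4 * (8 * K ^ 3 * ‖u‖ / T) * ‖u‖ * ‖u‖ ≤ 32 * K ^ 4 * ‖u‖ ^ 2 := by
    calc 4 * (8 * K ^ 3 * ‖u‖ / T) * ‖u‖ * ‖u‖ ≤ 4 * (8 * K ^ 3 * ‖u‖ / T) * (K * T) * ‖u‖ := by
          gcongr
      _ = _ := e2
  rw [e2] at h2
  have e1 : 4 * K * ‖u‖ * ‖u‖ ≤ 4 * K ^ 4 * ‖u‖ ^ 2 := by
    have : K ≤ K ^ 4 := by
      calc K = K ^ 1 := (pow_one K).symm
        _ ≤ K ^ 4 := pow_le_pow_right₀ hK (by norm_num)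
    calc 4 * K * ‖u‖ * ‖u‖ = 4 * K * ‖u‖ ^ 2 := by ring
      _ ≤ 4 * K ^ 4 * ‖u‖ ^ 2 := by gcongr
  have e5 : (0 : ℝ) ≤ K ^ 4 * ‖u‖ ^ 2 := by positivity
  calc |qf (Zf T m h) (u l)| + 2 * |bl (Bf T m h u) (m l) (u l)| + |qf (Bf T m h u) (u l)|
      ≤ 4 * K ^ 4 * ‖u‖ ^ 2 + 2 * (32 * K ^ 4 * ‖u‖ ^ 2) + 32 * K ^ 4 * ‖u‖ ^ 2 := by linarith
    _ = 100 * K ^ 4 * ‖u‖ ^ 2 := by ring

/-- second order change of `F` -/
theorem ddF_le (hK : 1 ≤ K) (hT : 0 < T) (hV : 0 ≤ V) (ho : Ok K T V m h) {u : T3}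
    (ho' : Ok K T V (m + u) h) (hu : ‖u‖ ≤ K * T) (l : Fin 3) :
    |Ff T (m + u) h l - Ff T m h l - Gf T m h u l| ≤ 448 * K ^ 6 * (V / T) * ‖u‖ ^ 2 := by
  have hK0 : 0 ≤ K := by linarith
  have hu0 := norm_nonneg u
  have h1 := blb (ddZ_le hK hT ho ho' hu) (ho.hm l) (ho.hh l)
  have h2 := blb (dZ_le hK hT ho ho' hu) (norm_le_pi_norm u l) (ho.hh l)
  have h3 : Ff T (m + u) h l - Ff T m h l - Gf T m h u l =
      bl (Zf T (m + u) h - Zf T m h - Bf T m h u) (m l) (h l) +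
        bl (Zf T (m + u) h - Zf T m h) (u l) (h l) := by
    simp only [Ff, Gf, Pi.add_apply, bl_add, bl_sub_form]; ring
  rw [h3]
  refine (abs_add_le _ _).trans ?_
  have e1 : 4 * (100 * K ^ 5 * ‖u‖ ^ 2 / T ^ 2) * (K * T) * V = 400 * K ^ 6 * (V / T) * ‖u‖ ^ 2 := by
    field_simp; ring
  have e2 : 4 * (12 * K ^ 3 * ‖u‖ / T) * ‖u‖ * V ≤ 48 * K ^ 6 * (V / T) * ‖u‖ ^ 2 := by
    have : K ^ 3 ≤ K ^ 6 := pow_le_pow_right₀ hK (by norm_num)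
    calc 4 * (12 * K ^ 3 * ‖u‖ / T) * ‖u‖ * V = 48 * K ^ 3 * (V / T) * ‖u‖ ^ 2 := by
          field_simp; ring
      _ ≤ _ := by gcongr
  rw [e1] at h1
  linarith

/-- change of `B` -/
theorem dB_le (hK : 1 ≤ K) (hT : 0 < T) (ho : Ok K T V m h) {u : T3} (ho' : Ok K T V (m + u) h)
    (hu : ‖u‖ ≤ K * T) (v : T3) :
    ‖Bf T (m + u) h v - Bf T m h v‖ ≤ 200 * K ^ 5 * ‖u‖ * ‖v‖ / T ^ 2 := by
  have hK0 : 0 ≤ K := by linarith
  have hu0 := norm_nonneg u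
  have hv0 := norm_nonneg v
  refine inv_le ho' (f := 200 * K ^ 4 * ‖u‖ * ‖v‖) (fun l => ?_) (le_of_eq (by ring))
  have hB := norm_Bf_le hK hT ho v
  have h1 := blb (dZ_le hK hT ho ho' hu) (ho.hm l) (norm_le_pi_norm v l)
  have h2 := blb (norm_Zf_le hT ho') (norm_le_pi_norm u l) (norm_le_pi_norm v l)
  have h3 := blb hB (ho.hm l) (norm_le_pi_norm u l)
  have h4 := blb hB (norm_le_pi_norm u l) (norm_le_pi_norm u l)
  rw [bl_self] at h4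
  have h5 : AW (Bf T (m + u) h v - Bf T m h v) (m + u) h l =
      -(2 * bl (Zf T (m + u) h - Zf T m h) (m l) (v l) + 2 * bl (Zf T (m + u) h) (u l) (v l) +
        2 * bl (Bf T m h v) (m l) (u l) + qf (Bf T m h v) (u l)) := by
    rw [AW_sub, AW_Bf ho', AW_move, AW_Bf ho]
    simp only [Pi.add_apply, bl_add, bl_sub_form]; ring
  rw [h5, abs_neg]
  refine (abs_add_le _ _).trans ((add_le_add (abs_add_le _ _) (le_refl _)).trans ?_)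
  refine (add_le_add (add_le_add (abs_add_le _ _) (le_refl _)) (le_refl _)).trans ?_
  rw [abs_mul, abs_two, abs_mul, abs_two, abs_mul, abs_two]
  obtain ⟨q, hq⟩ : ∃ q : ℝ, q = K ^ 4 * ‖u‖ * ‖v‖ := ⟨_, rfl⟩
  have hq0 : 0 ≤ q := by rw [hq]; positivity
  have e1 : 4 * (12 * K ^ 3 * ‖u‖ / T) * (K * T) * ‖v‖ = 48 * q := by
    rw [hq]; field_simp; ring
  have e2 : 4 * K * ‖u‖ * ‖v‖ ≤ 4 * q := by
    have : K ≤ K ^ 4 := by
      calc K = K ^ 1 := (pow_one K).symm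
        _ ≤ K ^ 4 := pow_le_pow_right₀ hK (by norm_num)
    rw [hq]
    calc 4 * K * ‖u‖ * ‖v‖ ≤ 4 * K ^ 4 * ‖u‖ * ‖v‖ := by gcongr
      _ = _ := by ring
  have e3 : 4 * (8 * K ^ 3 * ‖v‖ / T) * (K * T) * ‖u‖ = 32 * q := by
    rw [hq]; field_simp; ring
  have e4 : 4 * (8 * K ^ 3 * ‖v‖ / T) * ‖u‖ * ‖u‖ ≤ 32 * q := by
    calc 4 * (8 * K ^ 3 * ‖v‖ / T) * ‖u‖ * ‖u‖ ≤ 4 * (8 * K ^ 3 * ‖v‖ / T) * (K * T) * ‖u‖ := by
          gcongr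
      _ = _ := e3
  rw [e1] at h1
  rw [e3] at h3
  have e5 : 200 * K ^ 4 * ‖u‖ * ‖v‖ = 200 * q := by rw [hq]; ring
  rw [e5]
  linarith

/-- change of `G` -/
theorem dG_le (hK : 1 ≤ K) (hT : 0 < T) (hV : 0 ≤ V) (ho : Ok K T V m h) {u : T3}
    (ho' : Ok K T V (m + u) h) (hu : ‖u‖ ≤ K * T) (v : T3) (l : Fin 3) :
    |Gf T (m + u) h v l - Gf T m h v l| ≤ 880 * K ^ 6 * (V / T) * ‖u‖ * ‖v‖ := by
  have hK0 : 0 ≤ K := by linarith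
  have hu0 := norm_nonneg u
  have hv0 := norm_nonneg v
  have h1 := blb (dZ_le hK hT ho ho' hu) (norm_le_pi_norm v l) (ho.hh l)
  have h2 := blb (dB_le hK hT ho ho' hu v) (ho.hm l) (ho.hh l)
  have h3 := blb (norm_Bf_le hK hT ho' v) (norm_le_pi_norm u l) (ho.hh l)
  have h4 : Gf T (m + u) h v l - Gf T m h v l =
      bl (Zf T (m + u) h - Zf T m h) (v l) (h l) +
        bl (Bf T (m + u) h v - Bf T m h v) (m l) (h l) +
        bl (Bf T (m + u) h v) (u l) (h l) := by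
    simp only [Gf, Pi.add_apply, bl_add, bl_sub_form]; ring
  rw [h4]
  refine (abs_add_le _ _).trans ((add_le_add (abs_add_le _ _) (le_refl _)).trans ?_)
  obtain ⟨q, hq⟩ : ∃ q : ℝ, q = K ^ 6 * (V / T) * ‖u‖ * ‖v‖ := ⟨_, rfl⟩
  have hq0 : 0 ≤ q := by rw [hq]; positivity
  have k3 : K ^ 3 ≤ K ^ 6 := pow_le_pow_right₀ hK (by norm_num)
  have e1 : 4 * (12 * K ^ 3 * ‖u‖ / T) * ‖v‖ * V ≤ 48 * q := by
    rw [hq]
    calc 4 * (12 * K ^ 3 * ‖u‖ / T) * ‖v‖ * V = 48 * (K ^ 3 * (V / T) * ‖u‖ * ‖v‖) := by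
          field_simp; ring
      _ ≤ _ := by gcongr
  have e2 : 4 * (200 * K ^ 5 * ‖u‖ * ‖v‖ / T ^ 2) * (K * T) * V = 800 * q := by
    rw [hq]; field_simp; ring
  have e3 : 4 * (8 * K ^ 3 * ‖v‖ / T) * ‖u‖ * V ≤ 32 * q := by
    rw [hq]
    calc 4 * (8 * K ^ 3 * ‖v‖ / T) * ‖u‖ * V = 32 * (K ^ 3 * (V / T) * ‖u‖ * ‖v‖) := by
          field_simp; ring
      _ ≤ _ := by gcongr
  rw [e2] at h2
  have e5 : 880 * K ^ 6 * (V / T) * ‖u‖ * ‖v‖ = 880 * q := by rw [hq]; ring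
  rw [e5]
  linarith

end

end Pool.Agent.Helper48_F5
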