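import Pool.Agent.Helper48_F5.Step

/-!
Block LIP: the field of linear forms.
-/

set_option autoImplicit false

open MeasureTheory Filter Topology

namespace Pool.Agent.Helper48_F5

open Pool.Agent.BTL Pool.Agent.F5S Pool.Agent.F5H
open Pool.Agent.Helper96_GN (q6 dq6 dot6)

/-- index type of the nine forms -/
abbrev J9 : Type := Fin 2 ⊕ (Fin 3 ⊕ (Fin 3 ⊕ Unit))

/-- `t3` as a linear map -/
def tL : R6 →ₗ[ℝ] T3 where
  toFun := t3
  map_add' := t3_add
  map_smul' := t3_smul

noncomputable def gL (T : ℝ) (m h : T3) (i : Fin 3) : T3 →ₗ[ℝ] ℝ where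
  toFun v := Gd T m h v i 2
  map_add' v w := Gd_add T m h v w i 2
  map_smul' c v := by simp only [Gd_smul, smul_eq_mul, RingHom.id_apply]

theorem nu_add (m v w : T3) : nu m (v + w) = nu m v + nu m w := by
  unfold nu; rw [ip_add]; ring

theorem nu_smul (m : T3) (c : ℝ) (v : T3) : nu m (c • v) = c * nu m v := by
  unfold nu; rw [ip_smul]; ring

noncomputable def nL (m : T3) : T3 →ₗ[ℝ] ℝ where
  toFun := nu m
  map_add' := nu_add m
  map_smul' c v := by simp only [nu_smul, smul_eq_mul, RingHom.id_apply]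

/-- first coordinate of the tangential part -/
noncomputable def aL (m : T3) (l : Fin 3) : T3 →ₗ[ℝ] ℝ where
  toFun v := (v l).1 - nu m v * (m l).1
  map_add' v w := by simp only [nu_add, Pi.add_apply, Prod.fst_add]; ring
  map_smul' c v := by
    simp only [nu_smul, Pi.smul_apply, Prod.smul_fst, smul_eq_mul, RingHom.id_apply]; ring

/-- second coordinate of the tangential part -/
noncomputable def bL (m : T3) (l : Fin 3) : T3 →ₗ[ℝ] ℝ where
  toFun v := (v l).2 - nu m v * (m l).2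
  map_add' v w := by simp only [nu_add, Pi.add_apply, Prod.snd_add]; ring
  map_smul' c v := by
    simp only [nu_smul, Pi.smul_apply, Prod.smul_snd, smul_eq_mul, RingHom.id_apply]; ring

def cL (l : Fin 3) : T3 →ₗ[ℝ] ℝ where
  toFun v := (v l).1
  map_add' _ _ := rfl
  map_smul' _ _ := rfl

def dL (l : Fin 3) : T3 →ₗ[ℝ] ℝ where
  toFun v := (v l).2
  map_add' _ _ := rfl
  map_smul' _ _ := rfl

/-- the forms at a good point -/
noncomputable def flg (T : ℝ) (h m : R6) : J9 → R6 →ₗ[ℝ] ℝ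
  | Sum.inl i => T ^ (3 * rho0) • (gL T (t3 m) (t3 h) ⟨i.1, by have := i.2; omega⟩ ∘ₗ tL)
  | Sum.inr (Sum.inl l) => (T ^ (3 * rho0) * kap T ‖h‖) • (aL (t3 m) l ∘ₗ tL)
  | Sum.inr (Sum.inr (Sum.inl l)) => (T ^ (3 * rho0) * kap T ‖h‖) • (bL (t3 m) l ∘ₗ tL)
  | Sum.inr (Sum.inr (Sum.inr _)) => (T ^ (3 * rho0) * (kapr T ‖h‖ * T)) • (nL (t3 m) ∘ₗ tL)

/-- the forms at the other points -/
noncomputable def flb (T : ℝ) : J9 → R6 →ₗ[ℝ] ℝ
  | Sum.inl _ => 0
  | Sum.inr (Sum.inl l) => T • (cL l ∘ₗ tL)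
  | Sum.inr (Sum.inr (Sum.inl l)) => T • (dL l ∘ₗ tL)
  | Sum.inr (Sum.inr (Sum.inr _)) => 0

open Classical in
/-- the field -/
noncomputable def fl (T : ℝ) (h m : R6) : J9 → R6 →ₗ[ℝ] ℝ :=
  if Lev 7 T h m then flg T h m else flb T

theorem ip_self (v : T3) : ip v v = ∑ l, ((v l).1 ^ 2 + (v l).2 ^ 2) := by
  unfold ip; exact Finset.sum_congr rfl fun l _ => by ring

theorem q6_flg {T : ℝ} (hT : 0 < T) (h m v : R6) :
    q6 (flg T h m) v = T ^ (6 * rho0) * qN T h m v := by
  have e : T ^ (6 * rho0) = (T ^ (3 * rho0)) ^ 2 := by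
    rw [← Real.rpow_natCast, ← Real.rpow_mul hT.le]; congr 1; push_cast; ring
  unfold q6 qN
  rw [e, ip_self]
  simp only [Fintype.sum_sum_type, Fin.sum_univ_two, Fin.sum_univ_three,
    Finset.univ_unique, Finset.sum_singleton, flg, LinearMap.smul_apply, LinearMap.comp_apply,
    smul_eq_mul, gL, aL, bL, nL, tL, LinearMap.coe_mk, AddHom.coe_mk, Gd, Pi.sub_apply,
    Prod.fst_sub, Prod.snd_sub, Pi.smul_apply, Prod.smul_fst, Prod.smul_snd]
  have e0 : (⟨((0 : Fin 2) : ℕ), by norm_num⟩ : Fin 3) = 0 := rfl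
  have e1 : (⟨((1 : Fin 2) : ℕ), by norm_num⟩ : Fin 3) = 1 := rfl
  rw [e0, e1]
  ring

theorem q6_flb (T : ℝ) (v : R6) : q6 (flb T) v = T ^ 2 * ip (t3 v) (t3 v) := by
  unfold q6
  rw [ip_self]
  simp only [Fintype.sum_sum_type, Fin.sum_univ_two, Fin.sum_univ_three,
    Finset.univ_unique, Finset.sum_singleton, flb, LinearMap.smul_apply, LinearMap.comp_apply,
    smul_eq_mul, cL, dL, tL, LinearMap.coe_mk, AddHom.coe_mk, LinearMap.zero_apply]
  ring

theorem ip_pos {v : T3} (hv : v ≠ 0) : 0 < ip v v := by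
  have h1 := sq_norm_le_ip v
  have h2 : 0 < ‖v‖ := norm_pos_iff.2 hv
  exact lt_of_lt_of_le (by positivity) h1

theorem t3_ne {v : R6} (hv : v ≠ 0) : t3 v ≠ 0 := by
  intro h
  have h1 := norm_t3 v
  rw [h, norm_zero] at h1
  exact hv (norm_eq_zero.1 h1.symm)

theorem kap_pos {T V : ℝ} (hT : 0 < T) (hV : 0 < V) : 0 < kap T V := by
  unfold kap; exact Real.sqrt_pos.2 (by positivity)

theorem kapr_pos {T V : ℝ} (hT : 0 < T) : 0 < kapr T V :=
  lt_of_lt_of_le (Real.rpow_pos_of_pos hT _) (le_max_right _ _)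

/-- positivity -/
theorem qN_pos {T : ℝ} (hT : 0 < T) {h : R6} (hh : 0 < ‖h‖) (m : R6) {v : R6} (hv : v ≠ 0) :
    0 < qN T h m v := by
  have hk := kap_pos hT hh
  have hr := kapr_pos (V := ‖h‖) hT
  have h1 := ip_self_nonneg (t3 v - nu (t3 m) (t3 v) • t3 m)
  have hsum : 0 < kap T ‖h‖ ^ 2 * ip (t3 v - nu (t3 m) (t3 v) • t3 m)
      (t3 v - nu (t3 m) (t3 v) • t3 m) + (kapr T ‖h‖ * T * nu (t3 m) (t3 v)) ^ 2 := by
    by_cases hν : nu (t3 m) (t3 v) = 0
    · have h2 : t3 v - nu (t3 m) (t3 v) • t3 m = t3 v := by rw [hν, zero_smul, sub_zero]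
      rw [h2]
      have h3 := ip_pos (t3_ne hv)
      positivity
    · have : kapr T ‖h‖ * T * nu (t3 m) (t3 v) ≠ 0 :=
        mul_ne_zero (by positivity) hν
      have h3 : 0 < (kapr T ‖h‖ * T * nu (t3 m) (t3 v)) ^ 2 := by positivity
      have h4 : 0 ≤ kap T ‖h‖ ^ 2 * ip (t3 v - nu (t3 m) (t3 v) • t3 m)
        (t3 v - nu (t3 m) (t3 v) • t3 m) := by positivity
      linarith
  unfold qN
  nlinarith [sq_nonneg (Gf T (t3 m) (t3 h) (t3 v) 0 - Gf T (t3 m) (t3 h) (t3 v) 2),
    sq_nonneg (Gf T (t3 m) (t3 h) (t3 v) 1 - Gf T (t3 m) (t3 h) (t3 v) 2)]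

theorem fl_pos {T : ℝ} (hT : 0 < T) {h : R6} (hh : 0 < ‖h‖) (m : R6) (v : R6) (hv : v ≠ 0) :
    0 < q6 (fl T h m) v := by
  unfold fl
  by_cases hm : Lev 7 T h m
  · rw [if_pos hm, q6_flg hT]
    have := qN_pos hT hh m hv
    positivity
  · rw [if_neg hm, q6_flb]
    have := ip_pos (t3_ne hv)
    positivity

/-! ### measurability -/

theorem meas_t3 (l : Fin 3) : Measurable fun m : R6 => t3 m l := by
  fin_cases l
  · exact measurable_fst
  · exact measurable_fst.comp measurable_snd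
  · exact measurable_snd.comp measurable_snd

section

variable {A : R6 → ℝ × ℝ × ℝ} {z w : R6 → ℝ × ℝ}

theorem meas_bl (hA : Measurable A) (hz : Measurable z) (hw : Measurable w) :
    Measurable fun m => bl (A m) (z m) (w m) := by
  unfold bl
  fun_prop

theorem meas_qf (hA : Measurable A) (hz : Measurable z) : Measurable fun m => qf (A m) (z m) := by
  unfold qf
  fun_prop

end

theorem meas_cr {a b : R6 → ℝ × ℝ × ℝ} (ha : Measurable a) (hb : Measurable b) :
    Measurable fun m => cr (a m) (b m) := by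
  unfold cr
  fun_prop

theorem meas_dot {a b : R6 → ℝ × ℝ × ℝ} (ha : Measurable a) (hb : Measurable b) :
    Measurable fun m => dot (a m) (b m) := by
  unfold dot
  fun_prop

theorem meas_wv (h : T3) (l : Fin 3) : Measurable fun m : R6 => wv (t3 m) h l := by
  have := meas_t3 l
  unfold wv vq
  fun_prop

theorem meas_nn (h : T3) : Measurable fun m : R6 => nn (t3 m) h := by
  unfold nn
  exact meas_dot (meas_wv h 0) (meas_cr (meas_wv h 1) (meas_wv h 2))

theorem meas_sol (h : T3) {f : R6 → Fin 3 → ℝ} (hf : ∀ l, Measurable fun m => f m l) :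
    Measurable fun m : R6 => sol (t3 m) h (f m) := by
  have h0 := meas_cr (meas_wv h 1) (meas_wv h 2)
  have h1 := meas_cr (meas_wv h 2) (meas_wv h 0)
  have h2 := meas_cr (meas_wv h 0) (meas_wv h 1)
  have hn := meas_nn h
  have f0 := hf 0
  have f1 := hf 1
  have f2 := hf 2
  unfold sol
  exact hn.inv.smul ((f0.smul h0).add ((f1.smul h1).add (f2.smul h2)))

theorem meas_Zf (T : ℝ) (h : T3) : Measurable fun m : R6 => Zf T (t3 m) h := by
  unfold Zf
  exact meas_sol h fun l => measurable_const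

theorem meas_Ff (T : ℝ) (h : T3) (l : Fin 3) : Measurable fun m : R6 => Ff T (t3 m) h l := by
  unfold Ff
  exact meas_bl (meas_Zf T h) (meas_t3 l) measurable_const

theorem meas_Bf (T : ℝ) (h v : T3) : Measurable fun m : R6 => Bf T (t3 m) h v := by
  unfold Bf
  exact meas_sol h fun l =>
    (meas_bl (meas_Zf T h) (meas_t3 l) measurable_const).const_mul (-2)

theorem meas_Gf (T : ℝ) (h v : T3) (l : Fin 3) : Measurable fun m : R6 => Gf T (t3 m) h v l := by
  unfold Gf
  exact (meas_bl (meas_Zf T h) measurable_const measurable_const).add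
    (meas_bl (meas_Bf T h v) (meas_t3 l) measurable_const)

theorem meas_ip {v w : R6 → T3} (hv : ∀ l, Measurable fun m => v m l)
    (hw : ∀ l, Measurable fun m => w m l) : Measurable fun m => ip (v m) (w m) := by
  unfold ip
  refine Finset.measurable_sum _ fun l _ => ?_
  have := hv l
  have := hw l
  fun_prop

theorem meas_nu (v : T3) : Measurable fun m : R6 => nu (t3 m) v := by
  unfold nu
  have h1 : Measurable fun m : R6 => ip v (t3 m) :=
    meas_ip (v := fun _ => v) (fun l => measurable_const) meas_t3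
  have h2 : Measurable fun m : R6 => ip (t3 m) (t3 m) := meas_ip meas_t3 meas_t3
  exact h1.div h2

theorem meas_dr {z w : R6 → ℝ × ℝ} (hz : Measurable z) (hw : Measurable w) :
    Measurable fun m => dr (z m) (w m) := by
  unfold dr
  fun_prop

theorem meas_Lev (a T : ℝ) (h : R6) : MeasurableSet {m : R6 | Lev a T h m} := by
  have e : {m : R6 | Lev a T h m} =
      {m | (∀ l, ‖t3 m l‖ ≤ a * T) ∧
        (∀ i j, i ≠ j → T ^ 2 / (a * Px T) ≤ |dr (t3 m i) (t3 m j)|) ∧
        ‖h‖ ≤ a * Lx T ∧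
        (∀ i j, |Ff T (t3 m) (t3 h) i - Ff T (t3 m) (t3 h) j| ≤ a * Px T) ∧
        (∀ i, |Ff T (t3 m) (t3 h) i| ≤ a * Px T * Rx T) ∧
        Zf T (t3 m) (t3 h) ∈ KM (a * Px T)} := by
    ext m
    exact ⟨fun ⟨h1, h2, h3, h4, h5, h6⟩ => ⟨h1, h2, h3, h4, h5, h6⟩,
      fun ⟨h1, h2, h3, h4, h5, h6⟩ => ⟨h1, h2, h3, h4, h5, h6⟩⟩
  rw [e]
  refine MeasurableSet.inter ?_ (MeasurableSet.inter ?_ (MeasurableSet.inter ?_
    (MeasurableSet.inter ?_ (MeasurableSet.inter ?_ ?_))))
  · have : {m : R6 | ∀ l, ‖t3 m l‖ ≤ a * T} = ⋂ l, {m : R6 | ‖t3 m l‖ ≤ a * T} := by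
      ext m; simp
    change MeasurableSet {m : R6 | ∀ l, ‖t3 m l‖ ≤ a * T}
    rw [this]
    exact MeasurableSet.iInter fun l => measurableSet_le (meas_t3 l).norm measurable_const
  · change MeasurableSet {m : R6 | ∀ i j, i ≠ j → T ^ 2 / (a * Px T) ≤ |dr (t3 m i) (t3 m j)|}
    have : {m : R6 | ∀ i j, i ≠ j → T ^ 2 / (a * Px T) ≤ |dr (t3 m i) (t3 m j)|} =
        ⋂ i, ⋂ j, {m : R6 | i ≠ j → T ^ 2 / (a * Px T) ≤ |dr (t3 m i) (t3 m j)|} := by
      ext m; simp
    rw [this]
    refine MeasurableSet.iInter fun i => MeasurableSet.iInter fun j => ?_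
    by_cases hij : i = j
    · have : {m : R6 | i ≠ j → T ^ 2 / (a * Px T) ≤ |dr (t3 m i) (t3 m j)|} = Set.univ := by
        ext m; simp [hij]
      rw [this]; exact MeasurableSet.univ
    · have : {m : R6 | i ≠ j → T ^ 2 / (a * Px T) ≤ |dr (t3 m i) (t3 m j)|} =
          {m : R6 | T ^ 2 / (a * Px T) ≤ |dr (t3 m i) (t3 m j)|} := by
        ext m; simp [hij]
      rw [this]
      exact measurableSet_le measurable_const
        (continuous_abs.measurable.comp (meas_dr (meas_t3 i) (meas_t3 j)))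
  · exact MeasurableSet.const _
  · change MeasurableSet {m : R6 | ∀ i j, |Ff T (t3 m) (t3 h) i - Ff T (t3 m) (t3 h) j| ≤
      a * Px T}
    have : {m : R6 | ∀ i j, |Ff T (t3 m) (t3 h) i - Ff T (t3 m) (t3 h) j| ≤ a * Px T} =
        ⋂ i, ⋂ j, {m : R6 | |Ff T (t3 m) (t3 h) i - Ff T (t3 m) (t3 h) j| ≤ a * Px T} := by
      ext m; simp
    rw [this]
    refine MeasurableSet.iInter fun i => MeasurableSet.iInter fun j => ?_
    exact measurableSet_le (continuous_abs.measurable.comp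
      ((meas_Ff T (t3 h) i).sub (meas_Ff T (t3 h) j))) measurable_const
  · change MeasurableSet {m : R6 | ∀ i, |Ff T (t3 m) (t3 h) i| ≤ a * Px T * Rx T}
    have : {m : R6 | ∀ i, |Ff T (t3 m) (t3 h) i| ≤ a * Px T * Rx T} =
        ⋂ i, {m : R6 | |Ff T (t3 m) (t3 h) i| ≤ a * Px T * Rx T} := by
      ext m; simp
    rw [this]
    exact MeasurableSet.iInter fun i => measurableSet_le (continuous_abs.measurable.comp
      (meas_Ff T (t3 h) i)) measurable_const
  · exact (meas_Zf T (t3 h)) (measurableSet_KM _)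

theorem meas_flg (T : ℝ) (h : R6) (j : J9) (v : R6) : Measurable fun m => flg T h m j v := by
  rcases j with i | l | l | u
  · simp only [flg, LinearMap.smul_apply, LinearMap.comp_apply, gL, tL, LinearMap.coe_mk,
      AddHom.coe_mk, Gd, smul_eq_mul]
    exact ((meas_Gf T (t3 h) (t3 v) _).sub (meas_Gf T (t3 h) (t3 v) 2)).const_mul _
  · simp only [flg, LinearMap.smul_apply, LinearMap.comp_apply, aL, tL, LinearMap.coe_mk,
      AddHom.coe_mk, smul_eq_mul]
    exact (measurable_const.sub ((meas_nu (t3 v)).mul (meas_t3 l).fst)).const_mul _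
  · simp only [flg, LinearMap.smul_apply, LinearMap.comp_apply, bL, tL, LinearMap.coe_mk,
      AddHom.coe_mk, smul_eq_mul]
    exact (measurable_const.sub ((meas_nu (t3 v)).mul (meas_t3 l).snd)).const_mul _
  · simp only [flg, LinearMap.smul_apply, LinearMap.comp_apply, nL, tL, LinearMap.coe_mk,
      AddHom.coe_mk, smul_eq_mul]
    exact (meas_nu (t3 v)).const_mul _

theorem meas_fl (T : ℝ) (h : R6) (j : J9) (v : R6) : Measurable fun m => fl T h m j v := by
  classical
  have e : (fun m => fl T h m j v) = fun m => if Lev 7 T h m then flg T h m j v else flb T j v := by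
    funext m
    unfold fl
    by_cases hm : Lev 7 T h m
    · simp [hm]
    · simp [hm]
  rw [e]
  exact Measurable.ite (meas_Lev 7 T h) (meas_flg T h j v) measurable_const

end Pool.Agent.Helper48_F5
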