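import Pool.Agent.F5S.Defs

/-!
MP_f5cbfa_nt, hard half, block LIP: linear algebra of the midpoint coordinates.
`m` midpoints, `h` differences (three points of the plane each), forms `A : ℝ × ℝ × ℝ`.
`AW A m h l = A(m_l) + A(h_l)/4`.
-/

set_option autoImplicit false

open MeasureTheory

namespace Pool.Agent.Helper48_F5

open Pool.Agent.BTL Pool.Agent.F5S

/-- three points of the plane -/
abbrev T3 : Type := Fin 3 → ℝ × ℝ

/-- the symmetric bilinear form of the form `A` -/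
def bl (A : ℝ × ℝ × ℝ) (z w : ℝ × ℝ) : ℝ :=
  A.1 * (z.1 * w.1) + A.2.1 * (z.1 * w.2 + z.2 * w.1) + A.2.2 * (z.2 * w.2)

theorem bl_self (A : ℝ × ℝ × ℝ) (z : ℝ × ℝ) : bl A z z = qf A z := by
  simp only [bl, qf]; ring

theorem bl_comm (A : ℝ × ℝ × ℝ) (z w : ℝ × ℝ) : bl A z w = bl A w z := by
  simp only [bl]; ring

theorem bl_add_form (A B : ℝ × ℝ × ℝ) (z w : ℝ × ℝ) : bl (A + B) z w = bl A z w + bl B z w := by
  simp only [bl, Prod.fst_add, Prod.snd_add]; ring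

theorem bl_sub_form (A B : ℝ × ℝ × ℝ) (z w : ℝ × ℝ) : bl (A - B) z w = bl A z w - bl B z w := by
  simp only [bl, Prod.fst_sub, Prod.snd_sub]; ring

theorem bl_smul_form (c : ℝ) (A : ℝ × ℝ × ℝ) (z w : ℝ × ℝ) : bl (c • A) z w = c * bl A z w := by
  simp only [bl, Prod.smul_fst, Prod.smul_snd, smul_eq_mul]; ring

theorem bl_add (A : ℝ × ℝ × ℝ) (z z' w : ℝ × ℝ) : bl A (z + z') w = bl A z w + bl A z' w := by
  simp only [bl, Prod.fst_add, Prod.snd_add]; ring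

theorem bl_add' (A : ℝ × ℝ × ℝ) (z w w' : ℝ × ℝ) : bl A z (w + w') = bl A z w + bl A z w' := by
  simp only [bl, Prod.fst_add, Prod.snd_add]; ring

theorem bl_smul (c : ℝ) (A : ℝ × ℝ × ℝ) (z w : ℝ × ℝ) : bl A (c • z) w = c * bl A z w := by
  simp only [bl, Prod.smul_fst, Prod.smul_snd, smul_eq_mul]; ring

theorem bl_smul' (c : ℝ) (A : ℝ × ℝ × ℝ) (z w : ℝ × ℝ) : bl A z (c • w) = c * bl A z w := by
  simp only [bl, Prod.smul_fst, Prod.smul_snd, smul_eq_mul]; ring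

theorem abs_fst_le (z : ℝ × ℝ) : |z.1| ≤ ‖z‖ := by
  rw [← Real.norm_eq_abs]; exact norm_fst_le z

theorem abs_snd_le (z : ℝ × ℝ) : |z.2| ≤ ‖z‖ := by
  rw [← Real.norm_eq_abs]; exact norm_snd_le z

theorem abs_f1_le (A : ℝ × ℝ × ℝ) : |A.1| ≤ ‖A‖ := by
  rw [← Real.norm_eq_abs]; exact norm_fst_le A

theorem abs_f2_le (A : ℝ × ℝ × ℝ) : |A.2.1| ≤ ‖A‖ := by
  rw [← Real.norm_eq_abs]; exact (norm_fst_le A.2).trans (norm_snd_le A)

theorem abs_f3_le (A : ℝ × ℝ × ℝ) : |A.2.2| ≤ ‖A‖ := by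
  rw [← Real.norm_eq_abs]; exact (norm_snd_le A.2).trans (norm_snd_le A)

theorem abs_bl_le (A : ℝ × ℝ × ℝ) (z w : ℝ × ℝ) : |bl A z w| ≤ 4 * ‖A‖ * ‖z‖ * ‖w‖ := by
  have h : ∀ a b c : ℝ, ∀ x y t : ℝ, 0 ≤ x → 0 ≤ y → 0 ≤ t → |a| ≤ x → |b| ≤ y → |c| ≤ t →
      |a * (b * c)| ≤ x * (y * t) := by
    intro a b c x y t hx hy ht h1 h2 h3
    rw [abs_mul, abs_mul]
    exact mul_le_mul h1 (mul_le_mul h2 h3 (abs_nonneg _) hy) (by positivity) hx
  have n1 := norm_nonneg A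
  have n2 := norm_nonneg z
  have n3 := norm_nonneg w
  have e1 := h A.1 z.1 w.1 _ _ _ n1 n2 n3 (abs_f1_le A) (abs_fst_le z) (abs_fst_le w)
  have e2 := h A.2.1 z.1 w.2 _ _ _ n1 n2 n3 (abs_f2_le A) (abs_fst_le z) (abs_snd_le w)
  have e3 := h A.2.1 z.2 w.1 _ _ _ n1 n2 n3 (abs_f2_le A) (abs_snd_le z) (abs_fst_le w)
  have e4 := h A.2.2 z.2 w.2 _ _ _ n1 n2 n3 (abs_f3_le A) (abs_snd_le z) (abs_snd_le w)
  have hb : bl A z w = A.1 * (z.1 * w.1) + A.2.1 * (z.1 * w.2) + A.2.1 * (z.2 * w.1) +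
      A.2.2 * (z.2 * w.2) := by simp only [bl]; ring
  rw [hb]
  rw [abs_le] at e1 e2 e3 e4 ⊢
  constructor <;> nlinarith [e1.1, e1.2, e2.1, e2.2, e3.1, e3.2, e4.1, e4.2]

/-- the same with bounds for the factors -/
theorem blb {A : ℝ × ℝ × ℝ} {z w : ℝ × ℝ} {a x y : ℝ} (hA : ‖A‖ ≤ a) (hz : ‖z‖ ≤ x)
    (hw : ‖w‖ ≤ y) : |bl A z w| ≤ 4 * a * x * y := by
  have n1 := norm_nonneg A
  have n2 := norm_nonneg z
  have n3 := norm_nonneg w
  refine (abs_bl_le A z w).trans ?_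
  have ha : 0 ≤ a := n1.trans hA
  have hx : 0 ≤ x := n2.trans hz
  gcongr

/-- value on the midpoints -/
noncomputable def AW (A : ℝ × ℝ × ℝ) (m h : T3) (l : Fin 3) : ℝ := qf A (m l) + qf A (h l) / 4

theorem AW_add (A B : ℝ × ℝ × ℝ) (m h : T3) (l : Fin 3) :
    AW (A + B) m h l = AW A m h l + AW B m h l := by
  simp only [AW, ← bl_self, bl_add_form]; ring

theorem AW_sub (A B : ℝ × ℝ × ℝ) (m h : T3) (l : Fin 3) :
    AW (A - B) m h l = AW A m h l - AW B m h l := by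
  simp only [AW, ← bl_self, bl_sub_form]; ring

theorem AW_smul (c : ℝ) (A : ℝ × ℝ × ℝ) (m h : T3) (l : Fin 3) :
    AW (c • A) m h l = c * AW A m h l := by
  simp only [AW, ← bl_self, bl_smul_form]; ring

/-- Lagrange interpolation, polarised -/
theorem lag (A : ℝ × ℝ × ℝ) (a b c x y : ℝ × ℝ) :
    bl A x y * (dr a b * dr b c * dr c a) * 2 =
      -(qf A a * dr b c * (dr x b * dr y c + dr x c * dr y b) +
        qf A b * dr c a * (dr x c * dr y a + dr x a * dr y c) +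
        qf A c * dr a b * (dr x a * dr y b + dr x b * dr y a)) := by
  simp only [bl, qf, dr]; ring

/-- regular points: sizes and directions of the midpoints, size of the differences -/
structure Reg (P T V : ℝ) (m h : T3) : Prop where
  hm : ∀ l, ‖m l‖ ≤ P * T
  hd : ∀ i j, i ≠ j → T ^ 2 / P ≤ |dr (m i) (m j)|
  hh : ∀ l, ‖h l‖ ≤ V

/-- what is used of regular points -/
structure Ok (K T V : ℝ) (m h : T3) : Prop where
  hm : ∀ l, ‖m l‖ ≤ K * T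
  hh : ∀ l, ‖h l‖ ≤ V
  inv : ∀ (A : ℝ × ℝ × ℝ) (f : ℝ), (∀ l, |AW A m h l| ≤ f) → ‖A‖ ≤ K * f / T ^ 2

theorem norm_form_le {A : ℝ × ℝ × ℝ} {b : ℝ} (h1 : |A.1| ≤ b) (h2 : |A.2.1| ≤ b)
    (h3 : |A.2.2| ≤ b) : ‖A‖ ≤ b := by
  rw [Prod.norm_def, Prod.norm_def]
  simp only [Real.norm_eq_abs]
  exact max_le h1 (max_le h2 h3)

theorem ok_of_reg {P T V : ℝ} {m h : T3} (hP : 1 ≤ P) (hT : 0 < T)
    (hs : 6 * P ^ 4 * V ^ 2 ≤ T ^ 2) (hr : Reg P T V m h) : Ok (6 * P ^ 4) T V m h := by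
  have hP0 : 0 < P := by linarith
  have hPP : P ≤ 6 * P ^ 4 := by
    have : (1 : ℝ) ≤ P ^ 3 := one_le_pow₀ hP
    nlinarith
  refine ⟨fun l => (hr.hm l).trans (mul_le_mul_of_nonneg_right hPP hT.le), hr.hh, ?_⟩
  intro A f hf
  have hf0 : 0 ≤ f := (abs_nonneg _).trans (hf 0)
  have ha0 := norm_nonneg A
  -- values on the midpoints
  have hq : ∀ l, |qf A (m l)| ≤ f + ‖A‖ * V ^ 2 := by
    intro l
    have h1 := hf l
    have h2 := blb (le_refl ‖A‖) (hr.hh l) (hr.hh l)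
    rw [bl_self] at h2
    have h3 : qf A (m l) = AW A m h l - qf A (h l) / 4 := by simp only [AW]; ring
    rw [h3]
    rw [abs_le] at h1 h2 ⊢
    constructor <;> nlinarith [h1.1, h1.2, h2.1, h2.2]
  have hd01 := hr.hd 0 1 (by decide)
  have hd12 := hr.hd 1 2 (by decide)
  have hd20 := hr.hd 2 0 (by decide)
  have hTP : 0 < T ^ 2 / P := by positivity
  obtain ⟨g, hg⟩ : ∃ g : ℝ, g = f + ‖A‖ * V ^ 2 := ⟨_, rfl⟩
  rw [← hg] at hq
  have hg0 : 0 ≤ g := by rw [hg]; positivity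
  -- bound of the polarised form on unit vectors
  have key : ∀ x y : ℝ × ℝ, (∀ z : ℝ × ℝ, |dr x z| ≤ ‖z‖) → (∀ z : ℝ × ℝ, |dr y z| ≤ ‖z‖) →
      |bl A x y| ≤ 3 * P ^ 4 * g / T ^ 2 := by
    intro x y hx hy
    have mix : ∀ i j, |dr x (m i) * dr y (m j) + dr x (m j) * dr y (m i)| ≤
        2 * (P * T) ^ 2 := by
      intro i j
      have a1 := (hx (m i)).trans (hr.hm i)
      have a2 := (hx (m j)).trans (hr.hm j)
      have a3 := (hy (m i)).trans (hr.hm i)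
      have a4 := (hy (m j)).trans (hr.hm j)
      have b1 : |dr x (m i) * dr y (m j)| ≤ (P * T) * (P * T) := by
        rw [abs_mul]; exact mul_le_mul a1 a4 (abs_nonneg _) (by positivity)
      have b2 : |dr x (m j) * dr y (m i)| ≤ (P * T) * (P * T) := by
        rw [abs_mul]; exact mul_le_mul a2 a3 (abs_nonneg _) (by positivity)
      calc _ ≤ |dr x (m i) * dr y (m j)| + |dr x (m j) * dr y (m i)| := abs_add_le _ _
        _ ≤ 2 * (P * T) ^ 2 := by nlinarith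
    obtain ⟨D1, hD1⟩ : ∃ D1, D1 = |dr (m 0) (m 1)| := ⟨_, rfl⟩
    obtain ⟨D2, hD2⟩ : ∃ D2, D2 = |dr (m 1) (m 2)| := ⟨_, rfl⟩
    obtain ⟨D3, hD3⟩ : ∃ D3, D3 = |dr (m 2) (m 0)| := ⟨_, rfl⟩
    rw [← hD1] at hd01
    rw [← hD2] at hd12
    rw [← hD3] at hd20
    have p1 : 0 < D1 := hTP.trans_le hd01
    have p2 : 0 < D2 := hTP.trans_le hd12
    have p3 : 0 < D3 := hTP.trans_le hd20
    have hl := congrArg abs (lag A (m 0) (m 1) (m 2) x y)
    rw [abs_mul, abs_mul, abs_mul, abs_mul, abs_neg, abs_two, ← hD1, ← hD2, ← hD3] at hl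
    have term : ∀ q D t : ℝ, |q| ≤ g → |t| ≤ 2 * (P * T) ^ 2 →
        |q * D * t| ≤ g * |D| * (2 * (P * T) ^ 2) := by
      intro q D t h1 h2
      rw [abs_mul, abs_mul]
      exact mul_le_mul (mul_le_mul_of_nonneg_right h1 (abs_nonneg _)) h2 (abs_nonneg _)
        (by positivity)
    have t1 := term _ (dr (m 1) (m 2)) _ (hq 0) (mix 1 2)
    have t2 := term _ (dr (m 2) (m 0)) _ (hq 1) (mix 2 0)
    have t3 := term _ (dr (m 0) (m 1)) _ (hq 2) (mix 0 1)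
    rw [← hD2] at t1
    rw [← hD3] at t2
    rw [← hD1] at t3
    have hsum : |bl A x y| * (D1 * D2 * D3) * 2 ≤
        g * (D1 + D2 + D3) * (2 * (P * T) ^ 2) := by
      rw [hl]
      refine (abs_add_le _ _).trans ?_
      refine (add_le_add (abs_add_le _ _) (le_refl _)).trans ?_
      linarith
    have pD : 0 < D1 * D2 * D3 := by positivity
    -- D1 + D2 + D3 ≤ 3 P² / T⁴ * D1 D2 D3
    have c1 : D1 * (T ^ 2 / P) ^ 2 ≤ D1 * D2 * D3 := by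
      have := mul_le_mul hd12 hd20 hTP.le p2.le
      calc D1 * (T ^ 2 / P) ^ 2 = D1 * (T ^ 2 / P * (T ^ 2 / P)) := by ring
        _ ≤ D1 * (D2 * D3) := mul_le_mul_of_nonneg_left this p1.le
        _ = _ := by ring
    have c2 : D2 * (T ^ 2 / P) ^ 2 ≤ D1 * D2 * D3 := by
      have := mul_le_mul hd01 hd20 hTP.le p1.le
      calc D2 * (T ^ 2 / P) ^ 2 = D2 * (T ^ 2 / P * (T ^ 2 / P)) := by ring
        _ ≤ D2 * (D1 * D3) := mul_le_mul_of_nonneg_left this p2.le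
        _ = _ := by ring
    have c3 : D3 * (T ^ 2 / P) ^ 2 ≤ D1 * D2 * D3 := by
      have := mul_le_mul hd01 hd12 hTP.le p1.le
      calc D3 * (T ^ 2 / P) ^ 2 = D3 * (T ^ 2 / P * (T ^ 2 / P)) := by ring
        _ ≤ D3 * (D1 * D2) := mul_le_mul_of_nonneg_left this p3.le
        _ = _ := by ring
    have c4 : (D1 + D2 + D3) * (T ^ 2 / P) ^ 2 ≤ 3 * (D1 * D2 * D3) := by nlinarith
    have c5 : |bl A x y| * (T ^ 2 / P) ^ 2 ≤ 3 * g * (P * T) ^ 2 := by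
      have h1 : |bl A x y| * (D1 * D2 * D3) ≤ g * (D1 + D2 + D3) * (P * T) ^ 2 := by linarith
      have h2 : |bl A x y| * (D1 * D2 * D3) * (T ^ 2 / P) ^ 2 ≤
          3 * g * (P * T) ^ 2 * (D1 * D2 * D3) := by
        calc |bl A x y| * (D1 * D2 * D3) * (T ^ 2 / P) ^ 2
            ≤ g * (D1 + D2 + D3) * (P * T) ^ 2 * (T ^ 2 / P) ^ 2 :=
              mul_le_mul_of_nonneg_right h1 (by positivity)
          _ = g * (P * T) ^ 2 * ((D1 + D2 + D3) * (T ^ 2 / P) ^ 2) := by ring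
          _ ≤ g * (P * T) ^ 2 * (3 * (D1 * D2 * D3)) :=
              mul_le_mul_of_nonneg_left c4 (by positivity)
          _ = _ := by ring
      have h3 : (|bl A x y| * (T ^ 2 / P) ^ 2) * (D1 * D2 * D3) ≤
          (3 * g * (P * T) ^ 2) * (D1 * D2 * D3) := by linarith
      exact le_of_mul_le_mul_right h3 pD
    rw [le_div_iff₀ (by positivity)]
    have e1 : |bl A x y| * (T ^ 2 / P) ^ 2 * P ^ 2 = |bl A x y| * T ^ 4 := by
      field_simp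
    have e2 : |bl A x y| * T ^ 4 ≤ 3 * g * (P * T) ^ 2 * P ^ 2 := by
      rw [← e1]; exact mul_le_mul_of_nonneg_right c5 (by positivity)
    have e3 : (|bl A x y| * T ^ 2) * T ^ 2 ≤ (3 * P ^ 4 * g) * T ^ 2 := by
      calc (|bl A x y| * T ^ 2) * T ^ 2 = |bl A x y| * T ^ 4 := by ring
        _ ≤ 3 * g * (P * T) ^ 2 * P ^ 2 := e2
        _ = _ := by ring
    exact le_of_mul_le_mul_right e3 (by positivity)
  have u1 : ∀ z : ℝ × ℝ, |dr ((1 : ℝ), (0 : ℝ)) z| ≤ ‖z‖ := by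
    intro z
    have : dr ((1 : ℝ), (0 : ℝ)) z = z.2 := by simp [dr]
    rw [this]; exact abs_snd_le z
  have u2 : ∀ z : ℝ × ℝ, |dr ((0 : ℝ), (1 : ℝ)) z| ≤ ‖z‖ := by
    intro z
    have : dr ((0 : ℝ), (1 : ℝ)) z = -z.1 := by simp [dr]
    rw [this, abs_neg]; exact abs_fst_le z
  have k1 := key _ _ u1 u1
  have k2 := key _ _ u1 u2
  have k3 := key _ _ u2 u2
  have f1 : bl A ((1 : ℝ), (0 : ℝ)) ((1 : ℝ), (0 : ℝ)) = A.1 := by simp [bl]
  have f2 : bl A ((1 : ℝ), (0 : ℝ)) ((0 : ℝ), (1 : ℝ)) = A.2.1 := by simp [bl]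
  have f3 : bl A ((0 : ℝ), (1 : ℝ)) ((0 : ℝ), (1 : ℝ)) = A.2.2 := by simp [bl]
  rw [f1] at k1
  rw [f2] at k2
  rw [f3] at k3
  have hA := norm_form_le k1 k2 k3
  rw [hg] at hA
  rw [le_div_iff₀ (by positivity)] at hA ⊢
  nlinarith [mul_le_mul_of_nonneg_left hs ha0]

end Pool.Agent.Helper48_F5
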