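import Pool.Agent.Helper48_F5.Fld
import Pool.Agent.F5H.StmtsA

/-!
Block LIP: the lattice sum, `LIPStmt` from `FUPStmt` and `LKStmt`.
-/

set_option autoImplicit false

open MeasureTheory Filter Topology
open scoped ENNReal

namespace Pool.Agent.Helper48_F5

open Pool.Agent.BTL Pool.Agent.F5S Pool.Agent.F5H
open Pool.Agent.Helper96_GN (q6 dq6 dot6)

section

variable {T : ℝ} {h m : R6}

theorem qN_nonneg (T : ℝ) (h m v : R6) : 0 ≤ qN T h m v := by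
  have h1 := ip_self_nonneg (t3 v - nu (t3 m) (t3 v) • t3 m)
  unfold qN
  positivity

/-- the norm controls the coordinates -/
theorem nb_of_q (hT : 0 < T) (hh : 0 < ‖h‖) (m v : R6) :
    NB T (kap T ‖h‖) (kapr T ‖h‖) (t3 m) (t3 h) (t3 v) (2 * Real.sqrt (qN T h m v)) := by
  have hk := kap_pos hT hh
  have hr := kapr_pos (V := ‖h‖) hT
  have h1 := ip_self_nonneg (t3 v - nu (t3 m) (t3 v) • t3 m)
  have h2 := sq_norm_le_ip (t3 v - nu (t3 m) (t3 v) • t3 m)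
  have hs := Real.sqrt_nonneg (qN T h m v)
  obtain ⟨a, ha⟩ : ∃ a, a = Gf T (t3 m) (t3 h) (t3 v) 0 - Gf T (t3 m) (t3 h) (t3 v) 2 := ⟨_, rfl⟩
  obtain ⟨b, hb⟩ : ∃ b, b = Gf T (t3 m) (t3 h) (t3 v) 1 - Gf T (t3 m) (t3 h) (t3 v) 2 := ⟨_, rfl⟩
  have e : qN T h m v = a ^ 2 + b ^ 2 +
    kap T ‖h‖ ^ 2 * ip (t3 v - nu (t3 m) (t3 v) • t3 m) (t3 v - nu (t3 m) (t3 v) • t3 m) +
    (kapr T ‖h‖ * T * nu (t3 m) (t3 v)) ^ 2 := by rw [ha, hb]; rfl
  have h3 : 0 ≤ kap T ‖h‖ ^ 2 * ip (t3 v - nu (t3 m) (t3 v) • t3 m)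
      (t3 v - nu (t3 m) (t3 v) • t3 m) := by positivity
  have h4 := sq_nonneg (kapr T ‖h‖ * T * nu (t3 m) (t3 v))
  have hqa : a ^ 2 ≤ qN T h m v := by
    rw [e]; nlinarith [sq_nonneg b]
  have hqb : b ^ 2 ≤ qN T h m v := by
    rw [e]; nlinarith [sq_nonneg a]
  have hqc : (kapr T ‖h‖ * T * nu (t3 m) (t3 v)) ^ 2 ≤ qN T h m v := by
    rw [e]; nlinarith [sq_nonneg a, sq_nonneg b]
  have hqd : (kap T ‖h‖ * ‖t3 v - nu (t3 m) (t3 v) • t3 m‖) ^ 2 ≤ qN T h m v := by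
    have : (kap T ‖h‖ * ‖t3 v - nu (t3 m) (t3 v) • t3 m‖) ^ 2 ≤ kap T ‖h‖ ^ 2 *
        ip (t3 v - nu (t3 m) (t3 v) • t3 m) (t3 v - nu (t3 m) (t3 v) • t3 m) := by
      rw [mul_pow]
      exact mul_le_mul_of_nonneg_left h2 (by positivity)
    rw [e]; nlinarith [sq_nonneg a, sq_nonneg b]
  have ra := Real.abs_le_sqrt hqa
  have rb := Real.abs_le_sqrt hqb
  have rc := Real.abs_le_sqrt hqc
  have rd := Real.abs_le_sqrt hqd
  have ra' := abs_le.1 ra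
  have rb' := abs_le.1 rb
  refine ⟨fun i j => ?_, ?_, ?_⟩
  · fin_cases i <;> fin_cases j <;> simp only [Fin.zero_eta, Fin.mk_one, Fin.reduceFinMk,
      Fin.isValue] <;> rw [abs_le] <;> constructor <;> linarith
  · have := le_abs_self (kap T ‖h‖ * ‖t3 v - nu (t3 m) (t3 v) • t3 m‖)
    linarith
  · have : |kapr T ‖h‖ * T * nu (t3 m) (t3 v)| = kapr T ‖h‖ * T * |nu (t3 m) (t3 v)| := by
      rw [abs_mul, abs_of_pos (by positivity)]
    linarith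

/-- one square -/
theorem sq_cmp {a d s η : ℝ} (ha : |a| ≤ s) (hd : |d| ≤ η * s) (hη0 : 0 ≤ η) (hη : η ≤ 1) :
    |(a + d) ^ 2 - a ^ 2| ≤ 3 * η * s ^ 2 := by
  have hs : 0 ≤ s := (abs_nonneg a).trans ha
  have e : (a + d) ^ 2 - a ^ 2 = 2 * (a * d) + d * d := by ring
  rw [e]
  refine (abs_add_le _ _).trans ?_
  rw [abs_mul, abs_mul, abs_mul, abs_two]
  have h1 : |a| * |d| ≤ s * (η * s) := mul_le_mul ha hd (abs_nonneg _) hs
  have h2 : |d| * |d| ≤ (η * s) * (η * s) := mul_le_mul hd hd (abs_nonneg _) (by positivity)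
  have h3 : (η * s) * (η * s) ≤ η * s ^ 2 := by
    calc (η * s) * (η * s) = η * (η * s ^ 2) := by ring
      _ ≤ 1 * (η * s ^ 2) := mul_le_mul_of_nonneg_right hη (by positivity)
      _ = _ := one_mul _
  nlinarith

/-- slow variation of the quadratic form -/
theorem q_cmp (hb : Bg T) {u : R6} {N : ℝ} (hN : N ≤ Nx T)
    (hs : St (Kc (Px T)) T ‖h‖ (tx T) (kap T ‖h‖) (kapr T ‖h‖) (8 * Px T) (t3 m) (t3 h)
      (t3 u) N) (v : R6) :
    |qN T h (m + u) v - qN T h m v| ≤ ex T / 10 * qN T h m v := by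
  have hK := hb.K1
  have hT := hb.T0
  have hp := hs.par
  have hk := hp.k0
  have hr := hp.r0
  have hτ := hp.t0
  have hτ1 := hp.t1
  have hN0 := hs.Nu0
  have hv := nb_of_q hT hp.V0 m v
  obtain ⟨s, hsd⟩ : ∃ s, s = Real.sqrt (qN T h m v) := ⟨_, rfl⟩
  have hs0 : 0 ≤ s := by rw [hsd]; exact Real.sqrt_nonneg _
  have hss : s ^ 2 = qN T h m v := by rw [hsd]; exact Real.sq_sqrt (qN_nonneg T h m v)
  rw [← hsd] at hv
  obtain ⟨η, hη⟩ : ∃ η, η = 47016 * Kc (Px T) ^ 6 * N := ⟨_, rfl⟩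
  have hη0 : 0 ≤ η := by rw [hη]; positivity
  have hηe : 10 ^ 3 * η ≤ ex T := by
    refine le_trans ?_ hb.N1
    rw [hη]
    have b1 : Kc (Px T) ^ 6 ≤ Kc (Px T) ^ 8 := pow_le_pow_right₀ hK (by norm_num)
    calc 10 ^ 3 * (47016 * Kc (Px T) ^ 6 * N) = 47016000 * Kc (Px T) ^ 6 * N := by ring
      _ ≤ 10 ^ 8 * Kc (Px T) ^ 8 * Nx T := by
          refine mul_le_mul (mul_le_mul (by norm_num) b1 (by positivity) (by norm_num)) hN hN0
            (by positivity)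
  have hη1 : η ≤ 1 := by
    have := hb.e3
    linarith
  -- the four differences
  have d1 : ∀ i j, |Gd T (t3 (m + u)) (t3 h) (t3 v) i j - Gd T (t3 m) (t3 h) (t3 v) i j| ≤
      η * s := by
    intro i j
    rw [t3_add]
    refine (hs.dG hv i j).trans (le_of_eq ?_)
    rw [hη]; ring
  have k36 : Kc (Px T) ^ 3 ≤ Kc (Px T) ^ 6 := pow_le_pow_right₀ hK (by norm_num)
  have k26 : Kc (Px T) ^ 2 ≤ Kc (Px T) ^ 6 := pow_le_pow_right₀ hK (by norm_num)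
  have d2 : kap T ‖h‖ * ‖(t3 v - nu (t3 (m + u)) (t3 v) • t3 (m + u)) -
      (t3 v - nu (t3 m) (t3 v) • t3 m)‖ ≤ η * s := by
    rw [t3_add]
    refine (hs.dw hv).trans ?_
    rw [hη]
    calc 39 * Kc (Px T) ^ 3 * tx T * (N * (2 * s)) ≤ 39 * Kc (Px T) ^ 6 * 1 * (N * (2 * s)) := by
          gcongr
      _ = 78 * (Kc (Px T) ^ 6 * N * s) := by ring
      _ ≤ 47016 * (Kc (Px T) ^ 6 * N * s) := by
          have : 0 ≤ Kc (Px T) ^ 6 * N * s := by positivity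
          linarith
      _ = _ := by ring
  have d3 : |kapr T ‖h‖ * T * nu (t3 (m + u)) (t3 v) - kapr T ‖h‖ * T * nu (t3 m) (t3 v)| ≤
      η * s := by
    have e : |kapr T ‖h‖ * T * nu (t3 (m + u)) (t3 v) - kapr T ‖h‖ * T * nu (t3 m) (t3 v)| =
        kapr T ‖h‖ * T * |nu (t3 m + t3 u) (t3 v) - nu (t3 m) (t3 v)| := by
      rw [t3_add, ← mul_sub, abs_mul, abs_of_pos (by positivity)]
    rw [e]
    refine (hs.dnu hv).trans ?_
    rw [hη]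
    calc 14 * Kc (Px T) ^ 2 * tx T * (N * (2 * s)) ≤ 14 * Kc (Px T) ^ 6 * 1 * (N * (2 * s)) := by
          gcongr
      _ = 28 * (Kc (Px T) ^ 6 * N * s) := by ring
      _ ≤ 47016 * (Kc (Px T) ^ 6 * N * s) := by
          have : 0 ≤ Kc (Px T) ^ 6 * N * s := by positivity
          linarith
      _ = _ := by ring
  -- sizes
  obtain ⟨w, hw⟩ : ∃ w, w = t3 v - nu (t3 m) (t3 v) • t3 m := ⟨_, rfl⟩
  obtain ⟨w', hw'⟩ : ∃ w', w' = t3 v - nu (t3 (m + u)) (t3 v) • t3 (m + u) := ⟨_, rfl⟩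
  rw [← hw, ← hw'] at d2
  have q1 : qN T h m v = Gd T (t3 m) (t3 h) (t3 v) 0 2 ^ 2 + Gd T (t3 m) (t3 h) (t3 v) 1 2 ^ 2 +
      kap T ‖h‖ ^ 2 * ip w w + (kapr T ‖h‖ * T * nu (t3 m) (t3 v)) ^ 2 := by rw [hw]; rfl
  have q2 : qN T h (m + u) v = Gd T (t3 (m + u)) (t3 h) (t3 v) 0 2 ^ 2 +
      Gd T (t3 (m + u)) (t3 h) (t3 v) 1 2 ^ 2 +
      kap T ‖h‖ ^ 2 * ip w' w' + (kapr T ‖h‖ * T * nu (t3 (m + u)) (t3 v)) ^ 2 := by
    rw [hw']; rfl
  have hiw := ip_self_nonneg w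
  have hiw2 := sq_norm_le_ip w
  have hkiw : 0 ≤ kap T ‖h‖ ^ 2 * ip w w := by positivity
  have sz : ∀ a : ℝ, a ^ 2 ≤ qN T h m v → |a| ≤ s := by
    intro a ha
    rw [hsd]
    exact Real.abs_le_sqrt ha
  have s1 := sz (Gd T (t3 m) (t3 h) (t3 v) 0 2) (by
    rw [q1]; nlinarith [sq_nonneg (Gd T (t3 m) (t3 h) (t3 v) 1 2),
      sq_nonneg (kapr T ‖h‖ * T * nu (t3 m) (t3 v))])
  have s2 := sz (Gd T (t3 m) (t3 h) (t3 v) 1 2) (by
    rw [q1]; nlinarith [sq_nonneg (Gd T (t3 m) (t3 h) (t3 v) 0 2),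
      sq_nonneg (kapr T ‖h‖ * T * nu (t3 m) (t3 v))])
  have s3 := sz (kapr T ‖h‖ * T * nu (t3 m) (t3 v)) (by
    rw [q1]; nlinarith [sq_nonneg (Gd T (t3 m) (t3 h) (t3 v) 1 2),
      sq_nonneg (Gd T (t3 m) (t3 h) (t3 v) 0 2)])
  have s4 : kap T ‖h‖ * ‖w‖ ≤ s := by
    have := sz (kap T ‖h‖ * ‖w‖) (by
      have : (kap T ‖h‖ * ‖w‖) ^ 2 ≤ kap T ‖h‖ ^ 2 * ip w w := by
        rw [mul_pow]; exact mul_le_mul_of_nonneg_left hiw2 (by positivity)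
      rw [q1]; nlinarith [sq_nonneg (Gd T (t3 m) (t3 h) (t3 v) 1 2),
        sq_nonneg (Gd T (t3 m) (t3 h) (t3 v) 0 2),
        sq_nonneg (kapr T ‖h‖ * T * nu (t3 m) (t3 v))])
    exact (le_abs_self _).trans this
  -- comparisons
  have c1 := sq_cmp s1 (d1 0 2) hη0 hη1
  have c2 := sq_cmp s2 (d1 1 2) hη0 hη1
  have c3 := sq_cmp s3 d3 hη0 hη1
  rw [add_sub_cancel] at c1 c2 c3
  have c4 : |kap T ‖h‖ ^ 2 * ip w' w' - kap T ‖h‖ ^ 2 * ip w w| ≤ 18 * η * s ^ 2 := by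
    obtain ⟨x, hx⟩ : ∃ x, x = w' - w := ⟨_, rfl⟩
    have e1 : w' = w + x := by rw [hx]; abel
    rw [← hx] at d2
    have e2 : kap T ‖h‖ ^ 2 * ip w' w' - kap T ‖h‖ ^ 2 * ip w w =
        kap T ‖h‖ ^ 2 * (2 * ip w x + ip x x) := by
      rw [e1, ip_add, ip_add', ip_add', ip_comm x w]; ring
    rw [e2, abs_mul, abs_of_pos (by positivity : 0 < kap T ‖h‖ ^ 2)]
    have i1 := abs_ip_le w x
    have i2 := abs_ip_le x x
    have hx0 := norm_nonneg x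
    have hw0 := norm_nonneg w
    have i3 : |2 * ip w x + ip x x| ≤ 12 * ‖w‖ * ‖x‖ + 6 * ‖x‖ * ‖x‖ := by
      refine (abs_add_le _ _).trans ?_
      rw [abs_mul, abs_two]
      linarith
    have i4 : (kap T ‖h‖ * ‖w‖) * (kap T ‖h‖ * ‖x‖) ≤ s * (η * s) :=
      mul_le_mul s4 d2 (by positivity) hs0
    have i5 : (kap T ‖h‖ * ‖x‖) * (kap T ‖h‖ * ‖x‖) ≤ (η * s) * (η * s) :=
      mul_le_mul d2 d2 (by positivity) (by positivity)
    have i6 : (η * s) * (η * s) ≤ η * s ^ 2 := by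
      calc (η * s) * (η * s) = η * (η * s ^ 2) := by ring
        _ ≤ 1 * (η * s ^ 2) := mul_le_mul_of_nonneg_right hη1 (by positivity)
        _ = _ := one_mul _
    calc kap T ‖h‖ ^ 2 * |2 * ip w x + ip x x| ≤
          kap T ‖h‖ ^ 2 * (12 * ‖w‖ * ‖x‖ + 6 * ‖x‖ * ‖x‖) :=
          mul_le_mul_of_nonneg_left i3 (by positivity)
      _ = 12 * ((kap T ‖h‖ * ‖w‖) * (kap T ‖h‖ * ‖x‖)) +
          6 * ((kap T ‖h‖ * ‖x‖) * (kap T ‖h‖ * ‖x‖)) := by ring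
      _ ≤ 18 * η * s ^ 2 := by nlinarith
  have e : qN T h (m + u) v - qN T h m v =
      (Gd T (t3 (m + u)) (t3 h) (t3 v) 0 2 ^ 2 - Gd T (t3 m) (t3 h) (t3 v) 0 2 ^ 2) +
      (Gd T (t3 (m + u)) (t3 h) (t3 v) 1 2 ^ 2 - Gd T (t3 m) (t3 h) (t3 v) 1 2 ^ 2) +
      (kap T ‖h‖ ^ 2 * ip w' w' - kap T ‖h‖ ^ 2 * ip w w) +
      ((kapr T ‖h‖ * T * nu (t3 (m + u)) (t3 v)) ^ 2 -
        (kapr T ‖h‖ * T * nu (t3 m) (t3 v)) ^ 2) := by
    rw [q1, q2]; ring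
  rw [e]
  refine (abs_add_le _ _).trans ?_
  refine (add_le_add ((abs_add_le _ _).trans (add_le_add (abs_add_le _ _) (le_refl _)))
    (le_refl _)).trans ?_
  rw [← hss]
  have hs2 : 0 ≤ s ^ 2 := by positivity
  have f1 : 27 * η * s ^ 2 ≤ ex T / 10 * s ^ 2 := by
    refine mul_le_mul_of_nonneg_right ?_ hs2
    linarith
  linarith

/-- closeness from the quadratic form at a good point -/
theorem near1 (hb : Bg T) (h1 : 1 ≤ ‖h‖) (hl : Lev 7 T h m) {x : R6}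
    (hq : q6 (fl T h m) (x - m) ≤ Real.log T + 6) :
    (∃ N, N ≤ Nx T ∧ St (Kc (Px T)) T ‖h‖ (tx T) (kap T ‖h‖) (kapr T ‖h‖) (8 * Px T) (t3 m)
      (t3 h) (t3 (x - m)) N) ∧ Cl T h m x (ex T) := by
  have hT := hb.T0
  have hlog : 0 ≤ Real.log T := Real.log_nonneg hb.T1
  have e : fl T h m = flg T h m := by unfold fl; rw [if_pos hl]
  rw [e, q6_flg hT] at hq
  have hn := nb_of_q hT (by linarith : 0 < ‖h‖) m (x - m)
  have hN : 2 * Real.sqrt (qN T h m (x - m)) ≤ Nx T := by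
    have hq0 := qN_nonneg T h m (x - m)
    have hp0 : 0 < T ^ (3 * rho0) := Real.rpow_pos_of_pos hT _
    have e2 : T ^ (6 * rho0) = (T ^ (3 * rho0)) ^ 2 := by
      rw [← Real.rpow_natCast, ← Real.rpow_mul hT.le]; congr 1; push_cast; ring
    have e3 : Real.sqrt (T ^ (6 * rho0) * qN T h m (x - m)) =
        T ^ (3 * rho0) * Real.sqrt (qN T h m (x - m)) := by
      rw [e2, Real.sqrt_mul (by positivity), Real.sqrt_sq hp0.le]
    have h2 : T ^ (3 * rho0) * Real.sqrt (qN T h m (x - m)) ≤ Real.sqrt (Real.log T + 6) := by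
      rw [← e3]; exact Real.sqrt_le_sqrt hq
    have e4 : T ^ (-(3 * rho0)) = (T ^ (3 * rho0))⁻¹ := Real.rpow_neg hT.le _
    unfold Nx
    rw [e4, mul_assoc]
    refine mul_le_mul_of_nonneg_left ?_ (by norm_num)
    rw [← div_eq_mul_inv, le_div_iff₀ hp0]
    linarith
  have h2 := step hb h1 hl hN hn
  have e5 : m + (x - m) = x := by abel
  rw [e5] at h2
  exact ⟨⟨_, hN, h2.1⟩, h2.2⟩

/-- closeness at the other points -/
theorem near2 (hb : Bg T) (h1 : 1 ≤ ‖h‖) (hl : ¬ Lev 7 T h m) {x : R6}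
    (hq : q6 (fl T h m) (x - m) ≤ Real.log T + 6) : ¬ Lev 6 T h x := by
  intro hx
  have hT := hb.T0
  have hP := hb.P1
  have hlog : 0 ≤ Real.log T := Real.log_nonneg hb.T1
  have e : fl T h m = flb T := by unfold fl; rw [if_neg hl]
  rw [e, q6_flb] at hq
  have hu : ‖x - m‖ ≤ Real.sqrt (Real.log T + 6) / T := by
    rw [le_div_iff₀ hT]
    have h2 := sq_norm_le_ip (t3 (x - m))
    rw [norm_t3] at h2
    refine Real.le_sqrt_of_sq_le ?_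
    rw [mul_pow]
    calc ‖x - m‖ ^ 2 * T ^ 2 ≤ ip (t3 (x - m)) (t3 (x - m)) * T ^ 2 :=
          mul_le_mul_of_nonneg_right h2 (by positivity)
      _ = T ^ 2 * ip (t3 (x - m)) (t3 (x - m)) := by ring
      _ ≤ _ := hq
  have hLx : 0 ≤ Lx T := by unfold Lx; positivity
  have hh : ‖h‖ ≤ 8 * Lx T := hx.hh.trans (by linarith)
  have hx7 : Lev 7 T h x := lev_mono (by norm_num) (by norm_num) hT hP hx
  have hn := nb_triv hb h1 hh (a := 6) (by norm_num) (by norm_num) (x := t3 x) ⟨hx.hm, hx.hd⟩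
    (t3 (m - x))
  have hN : 72 * Kc (Px T) ^ 4 * ‖h‖ * ‖t3 (m - x)‖ ≤ Nx T := by
    refine le_trans ?_ hb.bad
    rw [norm_t3, norm_sub_rev]
    have hK := hb.K1
    have hs := Real.sqrt_nonneg (Real.log T + 6)
    calc 72 * Kc (Px T) ^ 4 * ‖h‖ * ‖x - m‖ ≤
        72 * Kc (Px T) ^ 4 * (8 * Lx T) * (Real.sqrt (Real.log T + 6) / T) := by gcongr
      _ = 576 * (Kc (Px T) ^ 4 * Lx T * (Real.sqrt (Real.log T + 6) / T)) := by ring
      _ ≤ 1000 * (Kc (Px T) ^ 4 * Lx T * (Real.sqrt (Real.log T + 6) / T)) := by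
          have : 0 ≤ Kc (Px T) ^ 4 * Lx T * (Real.sqrt (Real.log T + 6) / T) := by positivity
          linarith
      _ = _ := by ring
  have h2 := (step hb h1 hx7 hN hn).2
  have e5 : x + (m - x) = m := by abel
  rw [e5] at h2
  have e0 : 0 ≤ ex T := by unfold ex; positivity
  have h3 := lev_of_cl (by norm_num) (by norm_num) hT hP e0 hb.e1 hx h2
  have e7 : (6 : ℝ) + 1 = 7 := by norm_num
  rw [e7] at h3
  exact hl h3

end

end Pool.Agent.Helper48_F5
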