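import Pool.Agent.Helper48_F5.Slow3

/-!
Block LIP: regions and closeness.
-/

set_option autoImplicit false

open MeasureTheory

namespace Pool.Agent.Helper48_F5

open Pool.Agent.BTL Pool.Agent.F5S Pool.Agent.F5H

theorem t3_add (x y : R6) : t3 (x + y) = t3 x + t3 y := by
  funext l; fin_cases l <;> rfl

theorem t3_sub (x y : R6) : t3 (x - y) = t3 x - t3 y := by
  funext l; fin_cases l <;> rfl

theorem t3_smul (c : ℝ) (x : R6) : t3 (c • x) = c • t3 x := by
  funext l; fin_cases l <;> rfl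

theorem t3_norm_le (x : R6) (l : Fin 3) : ‖t3 x l‖ ≤ ‖x‖ := by
  have h1 : ‖x.1‖ ≤ ‖x‖ := norm_fst_le x
  have h2 : ‖x.2.1‖ ≤ ‖x‖ := (norm_fst_le x.2).trans (norm_snd_le x)
  have h3 : ‖x.2.2‖ ≤ ‖x‖ := (norm_snd_le x.2).trans (norm_snd_le x)
  fin_cases l
  · exact h1
  · exact h2
  · exact h3

theorem norm_t3 (x : R6) : ‖t3 x‖ = ‖x‖ := by
  refine le_antisymm ((pi_norm_le_iff_of_nonneg (norm_nonneg _)).2 (t3_norm_le x)) ?_
  rw [Prod.norm_def, Prod.norm_def]
  exact max_le (norm_le_pi_norm (t3 x) 0) (max_le (norm_le_pi_norm (t3 x) 1)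
    (norm_le_pi_norm (t3 x) 2))

/-- change of a determinant -/
theorem dr_move (a b x y : ℝ × ℝ) {s t : ℝ} (ha : ‖a‖ ≤ s) (hb : ‖b‖ ≤ s) (hx : ‖x‖ ≤ t)
    (hy : ‖y‖ ≤ t) : |dr (a + x) (b + y) - dr a b| ≤ 4 * s * t + 2 * t ^ 2 := by
  have e : dr (a + x) (b + y) - dr a b = dr a y + dr x b + dr x y := by
    simp only [dr, Prod.fst_add, Prod.snd_add]; ring
  have hs : 0 ≤ s := (norm_nonneg a).trans ha
  have ht : 0 ≤ t := (norm_nonneg x).trans hx
  have h1 : |dr a y| ≤ 2 * s * t := (abs_dr_le a y).trans (by gcongr)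
  have h2 : |dr x b| ≤ 2 * t * s := (abs_dr_le x b).trans (by gcongr)
  have h3 : |dr x y| ≤ 2 * t * t := (abs_dr_le x y).trans (by gcongr)
  rw [e]
  refine (abs_add_le _ _).trans ((add_le_add (abs_add_le _ _) (le_refl _)).trans ?_)
  nlinarith

/-- sizes and directions -/
structure Sz (a P T : ℝ) (m : T3) : Prop where
  hm : ∀ l, ‖m l‖ ≤ a * T
  hd : ∀ i j, i ≠ j → T ^ 2 / (a * P) ≤ |dr (m i) (m j)|

theorem Sz.move {a P T : ℝ} {m u : T3} (hs : Sz a P T m) (ha : 1 ≤ a) (ha7 : a ≤ 7) (hP : 1 ≤ P)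
    (hT : 0 < T) (hu : ‖u‖ ≤ T / (2500 * P)) : Sz (a + 1) P T (m + u) := by
  have hP0 : 0 < P := by linarith
  have ht : T / (2500 * P) ≤ T / 2500 := by
    refine div_le_div_of_nonneg_left hT.le (by norm_num) ?_
    linarith
  refine ⟨fun l => ?_, fun i j hij => ?_⟩
  · rw [Pi.add_apply]
    have h1 := norm_le_pi_norm u l
    have h2 := hs.hm l
    have h3 := norm_add_le (m l) (u l)
    linarith
  · have h1 := hs.hd i j hij
    have h2 := dr_move (m i) (m j) (u i) (u j) (hs.hm i) (hs.hm j)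
      ((norm_le_pi_norm u i).trans hu) ((norm_le_pi_norm u j).trans hu)
    have h3 := abs_sub_abs_le_abs_sub (dr (m i) (m j)) (dr ((m + u) i) ((m + u) j))
    rw [abs_sub_comm] at h3
    rw [Pi.add_apply, Pi.add_apply] at h3 ⊢
    have h4 : 4 * (a * T) * (T / (2500 * P)) + 2 * (T / (2500 * P)) ^ 2 ≤
        T ^ 2 / (a * P) - T ^ 2 / ((a + 1) * P) := by
      have e1 : T ^ 2 / (a * P) - T ^ 2 / ((a + 1) * P) = T ^ 2 / P * (1 / (a * (a + 1))) := by
        field_simp; ring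
      have e2 : (1 : ℝ) / 56 ≤ 1 / (a * (a + 1)) := by
        refine one_div_le_one_div_of_le (by positivity) ?_
        nlinarith
      have e3 : 4 * (a * T) * (T / (2500 * P)) = T ^ 2 / P * (4 * a / 2500) := by
        field_simp
      have e4 : 2 * (T / (2500 * P)) ^ 2 ≤ T ^ 2 / P * (2 / 2500 ^ 2) := by
        have : 2 * (T / (2500 * P)) ^ 2 = T ^ 2 / P * (2 / 2500 ^ 2 * (1 / P)) := by
          field_simp
        rw [this]
        refine mul_le_mul_of_nonneg_left ?_ (by positivity)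
        have : 1 / P ≤ 1 := by rw [div_le_one hP0]; exact hP
        nlinarith
      rw [e1, e3]
      have e5 : T ^ 2 / P * (1 / 56) ≤ T ^ 2 / P * (1 / (a * (a + 1))) :=
        mul_le_mul_of_nonneg_left e2 (by positivity)
      have e6 : T ^ 2 / P * (4 * a / 2500) ≤ T ^ 2 / P * (28 / 2500) := by
        refine mul_le_mul_of_nonneg_left ?_ (by positivity)
        linarith
      have e7 : 0 ≤ T ^ 2 / P := by positivity
      nlinarith
    linarith

theorem Sz.reg {a P T V : ℝ} {m h : T3} (hs : Sz a P T m) (_ha : 0 ≤ a) (ha8 : a ≤ 8)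
    (ha0 : 1 ≤ a) (hP : 1 ≤ P) (hT : 0 < T) (hh : ∀ l, ‖h l‖ ≤ V) : Reg (8 * P) T V m h := by
  have hP0 : 0 < P := by linarith
  refine ⟨fun l => (hs.hm l).trans ?_, fun i j hij => le_trans ?_ (hs.hd i j hij), hh⟩
  · refine mul_le_mul_of_nonneg_right ?_ hT.le
    nlinarith
  · refine div_le_div_of_nonneg_left (by positivity) (by positivity) ?_
    exact mul_le_mul_of_nonneg_right ha8 hP0.le

/-- the constant -/
noncomputable def Kc (P : ℝ) : ℝ := 6 * (8 * P) ^ 4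

theorem Kc_ge {P : ℝ} (hP : 1 ≤ P) : 24576 * P ≤ Kc P := by
  have h1 : P ≤ P ^ 4 := by
    calc P = P ^ 1 := (pow_one P).symm
      _ ≤ P ^ 4 := pow_le_pow_right₀ hP (by norm_num)
  have : Kc P = 24576 * P ^ 4 := by unfold Kc; ring
  rw [this]; linarith

theorem Sz.ip {a P T : ℝ} {m : T3} (hs : Sz a P T m) (ha8 : a ≤ 8) (ha0 : 1 ≤ a)
    (hP : 1 ≤ P) (hT : 0 < T) : T ^ 2 / Kc P ^ 2 ≤ ip m m := by
  have hP0 : 0 < P := by linarith
  have h1 := hs.hd 0 1 (by decide)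
  have h2 := abs_dr_le (m 0) (m 1)
  have h3 := norm_le_pi_norm m 0
  have h4 := norm_le_pi_norm m 1
  have h5 := sq_norm_le_ip m
  have h6 : 2 * ‖m 0‖ * ‖m 1‖ ≤ 2 * (‖m‖ ^ 2) := by
    have := mul_le_mul h3 h4 (norm_nonneg _) (norm_nonneg m)
    nlinarith
  have h7 : T ^ 2 / Kc P ^ 2 ≤ T ^ 2 / (a * P) / 2 := by
    rw [div_div]
    refine div_le_div_of_nonneg_left (by positivity) (by positivity) ?_
    have := Kc_ge hP
    have h8 : 0 < Kc P := by linarith
    nlinarith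
  linarith

/-- closeness of two points -/
structure Cl (T : ℝ) (h m m' : R6) (η : ℝ) : Prop where
  d : ‖m' - m‖ ≤ η * T
  F : ∀ i j, |Fd T (t3 m') (t3 h) i j - Fd T (t3 m) (t3 h) i j| ≤ η
  F1 : ∀ l, |Ff T (t3 m') (t3 h) l - Ff T (t3 m) (t3 h) l| ≤ η * Rx T
  Z : ‖Zf T (t3 m') (t3 h) - Zf T (t3 m) (t3 h)‖ ≤ η

theorem Cl.symm {T : ℝ} {h m m' : R6} {η : ℝ} (hc : Cl T h m m' η) : Cl T h m' m η :=
  ⟨by rw [norm_sub_rev]; exact hc.d, fun i j => by rw [abs_sub_comm]; exact hc.F i j,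
    fun l => by rw [abs_sub_comm]; exact hc.F1 l, by rw [norm_sub_rev]; exact hc.Z⟩

theorem KM_move {a P : ℝ} (ha : 1 ≤ a) (ha7 : a ≤ 7) (hP : 1 ≤ P) {A B : ℝ × ℝ × ℝ}
    (hA : A ∈ KM (a * P)) (hB : ‖B - A‖ ≤ 1 / (2500 * P)) : B ∈ KM ((a + 1) * P) := by
  intro x
  have hP0 : 0 < P := by linarith
  have h1 := hA x
  have h2 := blb hB (le_refl ‖x‖) (le_refl ‖x‖)
  rw [bl_self] at h2
  have h3 : qf (B - A) x = qf B x - qf A x := by
    simp only [← bl_self, bl_sub_form]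
  rw [h3] at h2
  have h4 : ‖x‖ * ‖x‖ ≤ nr x := by
    have : ‖x‖ ≤ Real.sqrt (nr x) := by
      rw [Prod.norm_def, Real.norm_eq_abs, Real.norm_eq_abs]
      refine max_le (Real.abs_le_sqrt ?_) (Real.abs_le_sqrt ?_)
      · unfold nr; nlinarith [sq_nonneg x.2]
      · unfold nr; nlinarith [sq_nonneg x.1]
    have hn : 0 ≤ nr x := by unfold nr; positivity
    calc ‖x‖ * ‖x‖ ≤ Real.sqrt (nr x) * Real.sqrt (nr x) :=
          mul_le_mul this this (norm_nonneg _) (Real.sqrt_nonneg _)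
      _ = nr x := Real.mul_self_sqrt hn
  have hn : 0 ≤ nr x := by unfold nr; positivity
  have h5 : 4 * (1 / (2500 * P)) * ‖x‖ * ‖x‖ ≤ 4 * (1 / (2500 * P)) * nr x := by
    rw [mul_assoc]
    exact mul_le_mul_of_nonneg_left h4 (by positivity)
  have h6 := abs_le.1 (h2.trans h5)
  have h7 : nr x / ((a + 1) * P) ≤ nr x / (a * P) - 4 * (1 / (2500 * P)) * nr x := by
    have e1 : nr x / (a * P) - 4 * (1 / (2500 * P)) * nr x =
        nr x / P * (1 / a - 4 / 2500) := by field_simp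
    have e2 : nr x / ((a + 1) * P) = nr x / P * (1 / (a + 1)) := by field_simp
    rw [e1, e2]
    refine mul_le_mul_of_nonneg_left ?_ (by positivity)
    have e3 : 1 / a - 1 / (a + 1) = 1 / (a * (a + 1)) := by field_simp; ring
    have e4 : (1 : ℝ) / 56 ≤ 1 / (a * (a + 1)) := by
      refine one_div_le_one_div_of_le (by positivity) ?_
      nlinarith
    linarith
  have h8 : a * P * nr x + 4 * (1 / (2500 * P)) * nr x ≤ (a + 1) * P * nr x := by
    have e1 : 4 * (1 / (2500 * P)) ≤ P := by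
      have : 4 * (1 / (2500 * P)) ≤ 1 := by
        rw [mul_one_div, div_le_one (by positivity)]
        linarith
      linarith
    nlinarith
  constructor
  · linarith [h6.1]
  · linarith [h6.2]

theorem lev_of_cl {a T : ℝ} {h m m' : R6} {η : ℝ} (ha : 1 ≤ a) (ha7 : a ≤ 7) (hT : 0 < T)
    (hP : 1 ≤ Px T) (_hη0 : 0 ≤ η) (hη : η ≤ 1 / (2500 * Px T)) (hl : Lev a T h m)
    (hc : Cl T h m m' η) : Lev (a + 1) T h m' := by
  have hP0 : 0 < Px T := by linarith
  have hη1 : η ≤ 1 := by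
    refine hη.trans ?_
    rw [div_le_one (by positivity)]
    linarith
  have hR : 0 ≤ Rx T := by unfold Rx; positivity
  have e : m' = m + (m' - m) := by abel
  have hs : Sz a (Px T) T (t3 m) := ⟨hl.hm, hl.hd⟩
  have hu : ‖t3 (m' - m)‖ ≤ T / (2500 * Px T) := by
    rw [norm_t3]
    refine hc.d.trans ?_
    calc η * T ≤ 1 / (2500 * Px T) * T := mul_le_mul_of_nonneg_right hη hT.le
      _ = _ := by ring
  have hs' := hs.move ha ha7 hP hT hu
  rw [← t3_add, ← e] at hs'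
  refine ⟨hs'.hm, hs'.hd, ?_, fun i j => ?_, fun l => ?_, ?_⟩
  · have h1 := hl.hh
    have h2 : 0 ≤ Lx T := by unfold Lx; positivity
    linarith
  · have h1 := hc.F i j
    have h2 := hl.hF i j
    have h3 := abs_sub_abs_le_abs_sub (Fd T (t3 m') (t3 h) i j) (Fd T (t3 m) (t3 h) i j)
    change |Fd T (t3 m') (t3 h) i j| ≤ _
    change |Fd T (t3 m) (t3 h) i j| ≤ _ at h2
    linarith
  · have h1 := hc.F1 l
    have h2 := hl.hR l
    have h3 := abs_sub_abs_le_abs_sub (Ff T (t3 m') (t3 h) l) (Ff T (t3 m) (t3 h) l)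
    have h4 : η * Rx T ≤ Px T * Rx T := mul_le_mul_of_nonneg_right (by linarith) hR
    have e2 : (a + 1) * Px T * Rx T = a * Px T * Rx T + Px T * Rx T := by ring
    rw [e2]
    linarith
  · exact KM_move ha ha7 hP hl.hZ (hc.Z.trans hη)

theorem lev_mono {a b T : ℝ} {h m : R6} (ha : 1 ≤ a) (hab : a ≤ b) (hT : 0 < T)
    (hP : 1 ≤ Px T) (hl : Lev a T h m) : Lev b T h m := by
  have hP0 : 0 < Px T := by linarith
  have hR : 0 ≤ Rx T := by unfold Rx; positivity
  have hL : 0 ≤ Lx T := by unfold Lx; positivity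
  refine ⟨fun l => (hl.hm l).trans (by gcongr), fun i j hij => le_trans ?_ (hl.hd i j hij),
    hl.hh.trans (by gcongr), fun i j => (hl.hF i j).trans (by gcongr),
    fun l => (hl.hR l).trans (by gcongr), fun x => ?_⟩
  · refine div_le_div_of_nonneg_left (by positivity) (by positivity) (by gcongr)
  · have h1 := hl.hZ x
    have hn : 0 ≤ nr x := by unfold nr; positivity
    refine ⟨le_trans ?_ h1.1, h1.2.trans (by gcongr)⟩
    exact div_le_div_of_nonneg_left hn (by positivity) (by gcongr)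

end Pool.Agent.Helper48_F5
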