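import Pool.Agent.F5H.DefsL

/-!
Block LIP: the radial decomposition `v = ν m + w` and the norm of the field.
-/

set_option autoImplicit false

open MeasureTheory

namespace Pool.Agent.Helper48_F5

open Pool.Agent.BTL Pool.Agent.F5S Pool.Agent.F5H

theorem ip_comm (v w : T3) : ip v w = ip w v := by
  simp only [ip]; exact Finset.sum_congr rfl fun l _ => by ring

theorem ip_add (v v' w : T3) : ip (v + v') w = ip v w + ip v' w := by
  simp only [ip, ← Finset.sum_add_distrib, Pi.add_apply, Prod.fst_add, Prod.snd_add]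
  exact Finset.sum_congr rfl fun l _ => by ring

theorem ip_smul (c : ℝ) (v w : T3) : ip (c • v) w = c * ip v w := by
  simp only [ip, Finset.mul_sum, Pi.smul_apply, Prod.smul_fst, Prod.smul_snd, smul_eq_mul]
  exact Finset.sum_congr rfl fun l _ => by ring

theorem ip_add' (v w w' : T3) : ip v (w + w') = ip v w + ip v w' := by
  rw [ip_comm, ip_add, ip_comm w, ip_comm w']

theorem ip_smul' (c : ℝ) (v w : T3) : ip v (c • w) = c * ip v w := by
  rw [ip_comm, ip_smul, ip_comm]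

theorem ip_sub (v v' w : T3) : ip (v - v') w = ip v w - ip v' w := by
  have : v - v' = v + (-1 : ℝ) • v' := by simp [sub_eq_add_neg]
  rw [this, ip_add, ip_smul]; ring

theorem abs_ip_le (v w : T3) : |ip v w| ≤ 6 * ‖v‖ * ‖w‖ := by
  have h : ∀ l, |(v l).1 * (w l).1 + (v l).2 * (w l).2| ≤ 2 * (‖v‖ * ‖w‖) := by
    intro l
    refine (abs_add_le _ _).trans ?_
    rw [abs_mul, abs_mul]
    have a1 := (abs_fst_le (v l)).trans (norm_le_pi_norm v l)
    have a2 := (abs_snd_le (v l)).trans (norm_le_pi_norm v l)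
    have b1 := (abs_fst_le (w l)).trans (norm_le_pi_norm w l)
    have b2 := (abs_snd_le (w l)).trans (norm_le_pi_norm w l)
    have c1 := mul_le_mul a1 b1 (abs_nonneg _) (norm_nonneg v)
    have c2 := mul_le_mul a2 b2 (abs_nonneg _) (norm_nonneg v)
    linarith
  unfold ip
  refine (Finset.abs_sum_le_sum_abs _ _).trans ?_
  refine (Finset.sum_le_sum fun l _ => h l).trans ?_
  simp only [Finset.sum_const, Finset.card_univ, Fintype.card_fin, nsmul_eq_mul]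
  norm_num
  linarith

theorem ip_self_nonneg (v : T3) : 0 ≤ ip v v := by
  unfold ip
  exact Finset.sum_nonneg fun l _ => by nlinarith [sq_nonneg (v l).1, sq_nonneg (v l).2]

theorem sq_norm_le_ip (v : T3) : ‖v‖ ^ 2 ≤ ip v v := by
  have h : ∀ l, ‖v l‖ ≤ Real.sqrt (ip v v) := by
    intro l
    have h1 : (v l).1 * (v l).1 + (v l).2 * (v l).2 ≤ ip v v := by
      unfold ip
      exact Finset.single_le_sum (f := fun l => (v l).1 * (v l).1 + (v l).2 * (v l).2)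
        (fun l _ => by nlinarith [sq_nonneg (v l).1, sq_nonneg (v l).2]) (Finset.mem_univ l)
    rw [Prod.norm_def, Real.norm_eq_abs, Real.norm_eq_abs]
    refine max_le ?_ ?_
    · refine Real.abs_le_sqrt ?_
      nlinarith [sq_nonneg (v l).2]
    · refine Real.abs_le_sqrt ?_
      nlinarith [sq_nonneg (v l).1]
  have h2 : ‖v‖ ≤ Real.sqrt (ip v v) := (pi_norm_le_iff_of_nonneg (Real.sqrt_nonneg _)).2 h
  calc ‖v‖ ^ 2 ≤ Real.sqrt (ip v v) ^ 2 := pow_le_pow_left₀ (norm_nonneg _) h2 2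
    _ = ip v v := Real.sq_sqrt (ip_self_nonneg v)

theorem abs_dr_le (a b : ℝ × ℝ) : |dr a b| ≤ 2 * ‖a‖ * ‖b‖ := by
  unfold dr
  refine (abs_sub _ _).trans ?_
  rw [abs_mul, abs_mul]
  have c1 := mul_le_mul (abs_fst_le a) (abs_snd_le b) (abs_nonneg _) (norm_nonneg a)
  have c2 := mul_le_mul (abs_snd_le a) (abs_fst_le b) (abs_nonneg _) (norm_nonneg a)
  linarith

/-- radial coordinate, the defining equation -/
theorem nu_mul {m : T3} (hm : 0 < ip m m) (v : T3) : nu m v * ip m m = ip v m := by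
  unfold nu; field_simp

theorem ip_w {m : T3} (hm : 0 < ip m m) (v : T3) : ip (v - nu m v • m) m = 0 := by
  rw [ip_sub, ip_smul, nu_mul hm, sub_self]

/-- the scales -/
structure Par (T V τ κ ρ : ℝ) : Prop where
  T0 : 0 < T
  V0 : 0 < V
  k0 : 0 < κ
  r0 : 0 < ρ
  t0 : 0 < τ
  t1 : τ ≤ 1
  k1 : κ ≤ 1
  p1 : V = κ ^ 2 * T
  p2 : κ ^ 3 ≤ ρ
  p3 : 1 ≤ ρ * T * τ
  p5 : ρ ≤ τ * V
  p6 : 1 ≤ κ * T * τ

/-- `v` has norm at most `N` at the point `m` -/
structure NB (T κ ρ : ℝ) (m h v : T3) (N : ℝ) : Prop where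
  g : ∀ i j, |Gf T m h v i - Gf T m h v j| ≤ N
  w : κ * ‖v - nu m v • m‖ ≤ N
  r : ρ * T * |nu m v| ≤ N

section

variable {K T V τ κ ρ : ℝ} {m h : T3}

theorem Par.VT (hp : Par T V τ κ ρ) : V ≤ T := by
  have h1 := hp.k1
  have h2 := hp.k0
  have h3 : κ ^ 2 ≤ 1 := by nlinarith
  rw [hp.p1]
  nlinarith [hp.T0]

theorem Par.kk (hp : Par T V τ κ ρ) : V / T = κ ^ 2 := by
  have := hp.T0
  rw [hp.p1]; field_simp

/-- `V³/T ≤ ρ² T²` -/
theorem Par.s1 (hp : Par T V τ κ ρ) : V ^ 3 / T ≤ ρ ^ 2 * T ^ 2 := by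
  have hT := hp.T0
  have h1 : V ^ 3 / T = (κ ^ 3) ^ 2 * T ^ 2 := by
    rw [hp.p1]; field_simp
  rw [h1]
  have h2 : (κ ^ 3) ^ 2 ≤ ρ ^ 2 := pow_le_pow_left₀ (by have := hp.k0; positivity) hp.p2 2
  gcongr

/-- `V³/T² ≤ ρ κ T` -/
theorem Par.s2 (hp : Par T V τ κ ρ) : V ^ 3 / T ^ 2 ≤ ρ * κ * T := by
  have hT := hp.T0
  have hk := hp.k0
  have h1 : V ^ 3 / T ^ 2 = (κ ^ 3) * κ ^ 2 * κ * T := by
    rw [hp.p1]; field_simp
  rw [h1]
  have h2 : κ ^ 3 * κ ^ 2 ≤ ρ * 1 :=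
    mul_le_mul hp.p2 (by nlinarith [hp.k1]) (by positivity) hp.r0.le
  have h3 : κ ^ 3 * κ ^ 2 * κ * T ≤ ρ * 1 * κ * T := by gcongr
  linarith

theorem NB.nonneg {v : T3} {N : ℝ} (hk : 0 < κ) (hv : NB T κ ρ m h v N) : 0 ≤ N :=
  (mul_nonneg hk.le (norm_nonneg _)).trans hv.w

/-- `|ν| ≤ N τ` -/
theorem NB.nu_le (hp : Par T V τ κ ρ) {v : T3} {N : ℝ} (hv : NB T κ ρ m h v N) :
    |nu m v| ≤ N * τ := by
  have h1 := hv.r
  have h2 := hp.p3
  have h0 := abs_nonneg (nu m v)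
  have hN := hv.nonneg hp.k0
  calc |nu m v| ≤ (ρ * T * τ) * |nu m v| := by nlinarith
    _ = (ρ * T * |nu m v|) * τ := by ring
    _ ≤ N * τ := mul_le_mul_of_nonneg_right h1 hp.t0.le

end

end Pool.Agent.Helper48_F5
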