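import Pool.Agent.Helper48_F5.Nrm

/-!
Block LIP: Taylor expansion of the tube functions and slow variation of the field.
-/

set_option autoImplicit false

open MeasureTheory

namespace Pool.Agent.Helper48_F5

open Pool.Agent.BTL Pool.Agent.F5S Pool.Agent.F5H

theorem sol_add (m h : T3) (f g : Fin 3 → ℝ) :
    sol m h (fun l => f l + g l) = sol m h f + sol m h g := by
  simp only [sol, Prod.ext_iff, Prod.fst_add, Prod.snd_add, Prod.smul_fst, Prod.smul_snd,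
    smul_eq_mul]
  refine ⟨?_, ?_, ?_⟩ <;> ring

theorem sol_smul (m h : T3) (c : ℝ) (f : Fin 3 → ℝ) :
    sol m h (fun l => c * f l) = c • sol m h f := by
  simp only [sol, Prod.ext_iff, Prod.fst_add, Prod.snd_add, Prod.smul_fst, Prod.smul_snd,
    smul_eq_mul]
  refine ⟨?_, ?_, ?_⟩ <;> ring

theorem Bf_add (T : ℝ) (m h v w : T3) : Bf T m h (v + w) = Bf T m h v + Bf T m h w := by
  unfold Bf
  rw [← sol_add]
  congr 1
  funext l
  simp only [Pi.add_apply, bl_add']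
  ring

theorem Bf_smul (T : ℝ) (m h : T3) (c : ℝ) (v : T3) : Bf T m h (c • v) = c • Bf T m h v := by
  unfold Bf
  rw [← sol_smul]
  congr 1
  funext l
  simp only [Pi.smul_apply, bl_smul']
  ring

theorem Gf_add (T : ℝ) (m h v w : T3) (l : Fin 3) :
    Gf T m h (v + w) l = Gf T m h v l + Gf T m h w l := by
  simp only [Gf, Bf_add, Pi.add_apply, bl_add, bl_add_form]; ring

theorem Gf_smul (T : ℝ) (m h : T3) (c : ℝ) (v : T3) (l : Fin 3) :
    Gf T m h (c • v) l = c * Gf T m h v l := by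
  simp only [Gf, Bf_smul, Pi.smul_apply, bl_smul, bl_smul_form]; ring

/-- differences of the derivatives -/
noncomputable def Gd (T : ℝ) (m h v : T3) (i j : Fin 3) : ℝ := Gf T m h v i - Gf T m h v j

/-- differences of the tube functions -/
noncomputable def Fd (T : ℝ) (m h : T3) (i j : Fin 3) : ℝ := Ff T m h i - Ff T m h j

theorem Gd_add (T : ℝ) (m h v w : T3) (i j : Fin 3) :
    Gd T m h (v + w) i j = Gd T m h v i j + Gd T m h w i j := by
  simp only [Gd, Gf_add]; ring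

theorem Gd_smul (T : ℝ) (m h : T3) (c : ℝ) (v : T3) (i j : Fin 3) :
    Gd T m h (c • v) i j = c * Gd T m h v i j := by
  simp only [Gd, Gf_smul]; ring

theorem Gd_sub_smul (T : ℝ) (m h v : T3) (c : ℝ) (w : T3) (i j : Fin 3) :
    Gd T m h (v - c • w) i j = Gd T m h v i j - c * Gd T m h w i j := by
  have : v - c • w = v + (-c) • w := by rw [neg_smul, sub_eq_add_neg]
  rw [this, Gd_add, Gd_smul]; ring

section

variable {K T V τ κ ρ Φ : ℝ} {m h : T3}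

/-- `H (m, h)` -/
theorem Hm_le (hK : 1 ≤ K) (hT : 0 < T) (_hV : 0 ≤ V) (ho : Ok K T V m h) (l : Fin 3) :
    |bl (Hf T m h) (m l) (h l)| ≤ 8 * K ^ 3 * (V ^ 3 / T) := by
  refine (blb (norm_Hf_le hK hT ho) (ho.hm l) (ho.hh l)).trans (le_of_eq ?_)
  field_simp; ring

/-- the radial derivative of the differences -/
theorem Gd_self_le (hK : 1 ≤ K) (hT : 0 < T) (hV : 0 ≤ V) (ho : Ok K T V m h) {i j : Fin 3}
    (hF : |Fd T m h i j| ≤ Φ) : |Gd T m h m i j| ≤ Φ + 16 * K ^ 3 * (V ^ 3 / T) := by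
  have h1 := Hm_le hK hT hV ho i
  have h2 := Hm_le hK hT hV ho j
  have e : Gd T m h m i j = -Fd T m h i j + (bl (Hf T m h) (m i) (h i) -
      bl (Hf T m h) (m j) (h j)) := by
    simp only [Gd, Fd, Gf_self ho]; ring
  rw [e]
  refine (abs_add_le _ _).trans ?_
  rw [abs_neg]
  have h3 := abs_sub (bl (Hf T m h) (m i) (h i)) (bl (Hf T m h) (m j) (h j))
  linarith

/-- the differences of the derivatives on the tangential part -/
theorem Gd_w_le (hK : 1 ≤ K) (hp : Par T V τ κ ρ) (ho : Ok K T V m h) {i j : Fin 3}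
    (hF : |Fd T m h i j| ≤ Φ) {v : T3} {N : ℝ} (hv : NB T κ ρ m h v N) :
    |Gd T m h (v - nu m v • m) i j| ≤ N + |nu m v| * (Φ + 16 * K ^ 3 * (V ^ 3 / T)) := by
  rw [Gd_sub_smul]
  refine (abs_sub _ _).trans ?_
  rw [abs_mul]
  have h1 := Gd_self_le hK hp.T0 hp.V0.le ho hF
  have h2 := hv.g i j
  have h3 := abs_nonneg (nu m v)
  exact add_le_add h2 (mul_le_mul_of_nonneg_left h1 h3)

/-- product of two radial coordinates and `V³/T` -/
theorem nunu_le (hp : Par T V τ κ ρ) {a b M N : ℝ} (ha : ρ * T * a ≤ M) (hb : ρ * T * b ≤ N)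
    (ha0 : 0 ≤ a) (hb0 : 0 ≤ b) : a * b * (V ^ 3 / T) ≤ M * N := by
  have hr := hp.r0
  have hT := hp.T0
  have hM : 0 ≤ M := (by positivity : (0 : ℝ) ≤ ρ * T * a).trans ha
  calc a * b * (V ^ 3 / T) ≤ a * b * (ρ ^ 2 * T ^ 2) :=
        mul_le_mul_of_nonneg_left hp.s1 (by positivity)
    _ = (ρ * T * a) * (ρ * T * b) := by ring
    _ ≤ M * N := mul_le_mul ha hb (by positivity) hM

/-- product of a radial coordinate, a tangential one and `V³/T²` -/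
theorem nuw_le (hp : Par T V τ κ ρ) {a b M N : ℝ} (ha : ρ * T * a ≤ M) (hb : κ * b ≤ N)
    (ha0 : 0 ≤ a) (hb0 : 0 ≤ b) : a * b * (V ^ 3 / T ^ 2) ≤ M * N := by
  have hr := hp.r0
  have hT := hp.T0
  have hk := hp.k0
  have hM : 0 ≤ M := (by positivity : (0 : ℝ) ≤ ρ * T * a).trans ha
  calc a * b * (V ^ 3 / T ^ 2) ≤ a * b * (ρ * κ * T) :=
        mul_le_mul_of_nonneg_left hp.s2 (by positivity)
    _ = (ρ * T * a) * (κ * b) := by ring
    _ ≤ M * N := mul_le_mul ha hb (by positivity) hM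

/-- the decomposition of the step -/
theorem step_eq (m u : T3) : m + u = (1 + nu m u) • m + (u - nu m u • m) := by
  rw [add_smul, one_smul]; abel

/-- change of the derivative on a vector `x`, radial part of the step -/
theorem dGsig_le (hK : 1 ≤ K) (hp : Par T V τ κ ρ) (ho : Ok K T V m h) {μ : ℝ}
    (hoσ : Ok K T V ((1 + μ) • m) h) (hμ2 : |μ| ≤ 1 / 2) {Nu Nx : ℝ} (hμ : ρ * T * |μ| ≤ Nu)
    {x : T3} (hx : κ * ‖x‖ ≤ Nx) (i j : Fin 3) :
    |Gd T ((1 + μ) • m) h x i j - Gd T m h x i j| ≤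
      2400 * K ^ 5 * (Nu * Nx) + 6 * |μ| * |Gd T m h x i j| := by
  have hT := hp.T0
  have h1 := abs_le.1 hμ2
  have b1 : 1 / 2 ≤ 1 + μ := by linarith [h1.1]
  have b2 : 1 + μ ≤ 2 := by linarith [h1.2]
  have hi := dGs_le hK hT hp.V0.le ho hoσ b1 b2 x i
  have hj := dGs_le hK hT hp.V0.le ho hoσ b1 b2 x j
  have e0 : 1 + μ - 1 = μ := by ring
  rw [e0] at hi hj
  have hs := nuw_le hp hμ hx (abs_nonneg _) (norm_nonneg _)
  have hK5 : (0 : ℝ) ≤ K ^ 5 := by positivity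
  have hi' : |Gf T ((1 + μ) • m) h x i - ((1 + μ) ^ 2)⁻¹ * Gf T m h x i| ≤
      1200 * K ^ 5 * (Nu * Nx) := by
    refine hi.trans ?_
    calc 1200 * K ^ 5 * |μ| * ‖x‖ * (V ^ 3 / T ^ 2) =
        1200 * K ^ 5 * (|μ| * ‖x‖ * (V ^ 3 / T ^ 2)) := by ring
      _ ≤ _ := mul_le_mul_of_nonneg_left hs (by positivity)
  have hj' : |Gf T ((1 + μ) • m) h x j - ((1 + μ) ^ 2)⁻¹ * Gf T m h x j| ≤
      1200 * K ^ 5 * (Nu * Nx) := by
    refine hj.trans ?_
    calc 1200 * K ^ 5 * |μ| * ‖x‖ * (V ^ 3 / T ^ 2) =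
        1200 * K ^ 5 * (|μ| * ‖x‖ * (V ^ 3 / T ^ 2)) := by ring
      _ ≤ _ := mul_le_mul_of_nonneg_left hs (by positivity)
  have i2 : |((1 + μ) ^ 2)⁻¹ - 1| ≤ 6 * |μ| := by
    have hσ : 0 < 1 + μ := by linarith
    have : ((1 + μ) ^ 2)⁻¹ - 1 = -(((1 + μ) ^ 2)⁻¹ * (2 + μ)) * μ := by
      field_simp; ring
    rw [this, abs_mul, abs_neg]
    refine mul_le_mul_of_nonneg_right ?_ (abs_nonneg _)
    rw [abs_of_nonneg (mul_nonneg (by positivity) (by linarith [h1.1])),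
      inv_mul_le_iff₀ (by positivity)]
    nlinarith [h1.1]
  have e : Gd T ((1 + μ) • m) h x i j - Gd T m h x i j =
      (Gf T ((1 + μ) • m) h x i - ((1 + μ) ^ 2)⁻¹ * Gf T m h x i) -
      (Gf T ((1 + μ) • m) h x j - ((1 + μ) ^ 2)⁻¹ * Gf T m h x j) +
      (((1 + μ) ^ 2)⁻¹ - 1) * Gd T m h x i j := by
    simp only [Gd]; ring
  rw [e]
  refine (abs_add_le _ _).trans ?_
  rw [abs_mul]
  have h5 := mul_le_mul_of_nonneg_right i2 (abs_nonneg (Gd T m h x i j))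
  have h6 := abs_sub (Gf T ((1 + μ) • m) h x i - ((1 + μ) ^ 2)⁻¹ * Gf T m h x i)
    (Gf T ((1 + μ) • m) h x j - ((1 + μ) ^ 2)⁻¹ * Gf T m h x j)
  linarith

/-- change of the derivative on a vector `x`, tangential part of the step -/
theorem dGtan_le (hK : 1 ≤ K) (hp : Par T V τ κ ρ) (ho : Ok K T V m h) {y : T3}
    (ho' : Ok K T V (m + y) h) (hy2 : ‖y‖ ≤ K * T) {Nu Nx : ℝ} (hy : κ * ‖y‖ ≤ Nu)
    {x : T3} (hx : κ * ‖x‖ ≤ Nx) (i j : Fin 3) :
    |Gd T (m + y) h x i j - Gd T m h x i j| ≤ 1760 * K ^ 6 * (Nu * Nx) := by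
  have hT := hp.T0
  have hi := dG_le hK hT hp.V0.le ho ho' hy2 x i
  have hj := dG_le hK hT hp.V0.le ho ho' hy2 x j
  rw [hp.kk] at hi hj
  have hk := hp.k0
  have hs : κ ^ 2 * ‖y‖ * ‖x‖ ≤ Nu * Nx := by
    calc κ ^ 2 * ‖y‖ * ‖x‖ = (κ * ‖y‖) * (κ * ‖x‖) := by ring
      _ ≤ Nu * Nx := mul_le_mul hy hx (by positivity)
          ((mul_nonneg hk.le (norm_nonneg _)).trans hy)
  have hK6 : (0 : ℝ) ≤ K ^ 6 := by positivity
  have hs' : 880 * K ^ 6 * κ ^ 2 * ‖y‖ * ‖x‖ ≤ 880 * K ^ 6 * (Nu * Nx) := by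
    calc 880 * K ^ 6 * κ ^ 2 * ‖y‖ * ‖x‖ = 880 * K ^ 6 * (κ ^ 2 * ‖y‖ * ‖x‖) := by ring
      _ ≤ _ := mul_le_mul_of_nonneg_left hs (by positivity)
  have e : Gd T (m + y) h x i j - Gd T m h x i j =
      (Gf T (m + y) h x i - Gf T m h x i) - (Gf T (m + y) h x j - Gf T m h x j) := by
    simp only [Gd]; ring
  rw [e]
  have h6 := abs_sub (Gf T (m + y) h x i - Gf T m h x i) (Gf T (m + y) h x j - Gf T m h x j)
  linarith

end

/-- the data of a step `u` from `m` -/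
structure St (K T V τ κ ρ Φ : ℝ) (m h u : T3) (Nu : ℝ) : Prop where
  K1 : 1 ≤ K
  par : Par T V τ κ ρ
  ok : Ok K T V m h
  oks : Ok K T V ((1 + nu m u) • m) h
  ok' : Ok K T V (m + u) h
  ip0 : T ^ 2 / K ^ 2 ≤ ip m m
  ip1 : T ^ 2 / K ^ 2 ≤ ip (m + u) (m + u)
  F0 : ∀ i j, |Fd T m h i j| ≤ Φ
  Φ0 : 0 ≤ Φ
  Φτ : Φ * τ ≤ 1
  nb : NB T κ ρ m h u Nu
  N1 : Nu ≤ 1
  τ2 : τ ≤ 1 / 2

section

variable {K T V τ κ ρ Φ : ℝ} {m h u : T3} {Nu : ℝ}

theorem St.Nu0 (hs : St K T V τ κ ρ Φ m h u Nu) : 0 ≤ Nu := hs.nb.nonneg hs.par.k0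

theorem St.mu_le (hs : St K T V τ κ ρ Φ m h u Nu) : |nu m u| ≤ Nu * τ := hs.nb.nu_le hs.par

theorem St.mu_half (hs : St K T V τ κ ρ Φ m h u Nu) : |nu m u| ≤ 1 / 2 := by
  refine hs.mu_le.trans ?_
  have h1 := hs.N1
  have h2 := hs.τ2
  have h3 := hs.par.t0
  have h4 := hs.Nu0
  nlinarith

/-- the tangential part of the step is small -/
theorem St.w_le (hs : St K T V τ κ ρ Φ m h u Nu) : ‖u - nu m u • m‖ ≤ Nu * (T * τ) := by
  have h1 := hs.nb.w
  have h2 := hs.par.p6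
  have h0 := norm_nonneg (u - nu m u • m)
  have hT := hs.par.T0
  have ht := hs.par.t0
  calc ‖u - nu m u • m‖ ≤ (κ * T * τ) * ‖u - nu m u • m‖ := by nlinarith
    _ = (κ * ‖u - nu m u • m‖) * (T * τ) := by ring
    _ ≤ Nu * (T * τ) := mul_le_mul_of_nonneg_right h1 (by positivity)

theorem St.w_le' (hs : St K T V τ κ ρ Φ m h u Nu) : ‖u - nu m u • m‖ ≤ K * T := by
  refine hs.w_le.trans ?_
  have hT := hs.par.T0
  have ht := hs.par.t0
  have h1 := hs.N1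
  have h2 := hs.τ2
  have h3 := hs.K1
  have h4 := hs.Nu0
  calc Nu * (T * τ) ≤ 1 * (T * 1) := by
        refine mul_le_mul h1 (mul_le_mul_of_nonneg_left (by linarith) hT.le) (by positivity)
          (by norm_num)
    _ ≤ K * T := by nlinarith

/-- the derivative of the differences on the tangential part of a vector -/
theorem St.gw (hs : St K T V τ κ ρ Φ m h u Nu) {v : T3} {N : ℝ} (hv : NB T κ ρ m h v N)
    (i j : Fin 3) : |nu m u| * |Gd T m h (v - nu m v • m) i j| ≤ 18 * K ^ 3 * (Nu * N) := by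
  have hK := hs.K1
  have h1 := Gd_w_le hK hs.par hs.ok (hs.F0 i j) hv
  have h2 := nunu_le hs.par hs.nb.r hv.r (abs_nonneg _) (abs_nonneg _)
  have h3 := hs.mu_le
  have h4 := hv.nu_le hs.par
  have h5 := abs_nonneg (nu m u)
  have h6 := abs_nonneg (nu m v)
  have hN0 := hv.nonneg hs.par.k0
  have hNu := hs.Nu0
  have ht := hs.par.t0
  have hK3 : (1 : ℝ) ≤ K ^ 3 := one_le_pow₀ hK
  have hNN : 0 ≤ Nu * N := mul_nonneg hNu hN0
  have a1 : |nu m u| * N ≤ Nu * N := by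
    refine mul_le_mul_of_nonneg_right (h3.trans ?_) hN0
    nlinarith [hs.τ2]
  have a2 : |nu m u| * (|nu m v| * Φ) ≤ Nu * N := by
    calc |nu m u| * (|nu m v| * Φ) ≤ (Nu * τ) * ((N * τ) * Φ) := by
          refine mul_le_mul h3 (mul_le_mul_of_nonneg_right h4 hs.Φ0)
            (mul_nonneg h6 hs.Φ0) (by positivity)
      _ = (Nu * N) * (τ * (Φ * τ)) := by ring
      _ ≤ (Nu * N) * (1 * 1) := by
          refine mul_le_mul_of_nonneg_left (mul_le_mul (by linarith [hs.τ2]) hs.Φτ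
            (mul_nonneg hs.Φ0 ht.le) (by norm_num)) hNN
      _ = Nu * N := by ring
  calc |nu m u| * |Gd T m h (v - nu m v • m) i j|
      ≤ |nu m u| * (N + |nu m v| * (Φ + 16 * K ^ 3 * (V ^ 3 / T))) :=
        mul_le_mul_of_nonneg_left h1 h5
    _ = |nu m u| * N + |nu m u| * (|nu m v| * Φ) +
        16 * K ^ 3 * (|nu m u| * |nu m v| * (V ^ 3 / T)) := by ring
    _ ≤ Nu * N + Nu * N + 16 * K ^ 3 * (Nu * N) :=
        add_le_add (add_le_add a1 a2) (mul_le_mul_of_nonneg_left h2 (by positivity))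
    _ ≤ 18 * K ^ 3 * (Nu * N) := by nlinarith

/-- change of the derivatives on the tangential part of a vector -/
theorem St.dGw (hs : St K T V τ κ ρ Φ m h u Nu) {v : T3} {N : ℝ} (hv : NB T κ ρ m h v N)
    (i j : Fin 3) :
    |Gd T (m + u) h (v - nu m v • m) i j - Gd T m h (v - nu m v • m) i j| ≤
      4268 * K ^ 6 * (Nu * N) := by
  have hK := hs.K1
  have e := step_eq m u
  have ho' := hs.ok'
  rw [e] at ho' ⊢
  have h1 := dGtan_le hK hs.par hs.oks ho' hs.w_le' hs.nb.w hv.w i j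
  have h2 := dGsig_le hK hs.par hs.ok hs.oks hs.mu_half hs.nb.r hv.w i j
  have h3 := hs.gw hv i j
  have hNN : 0 ≤ Nu * N := mul_nonneg hs.Nu0 (hv.nonneg hs.par.k0)
  have k5 : K ^ 5 * (Nu * N) ≤ K ^ 6 * (Nu * N) :=
    mul_le_mul_of_nonneg_right (pow_le_pow_right₀ hK (by norm_num)) hNN
  have k3 : K ^ 3 * (Nu * N) ≤ K ^ 6 * (Nu * N) :=
    mul_le_mul_of_nonneg_right (pow_le_pow_right₀ hK (by norm_num)) hNN
  obtain ⟨q, hq⟩ : ∃ q, q = K ^ 6 * (Nu * N) := ⟨_, rfl⟩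
  have e1 : 4268 * K ^ 6 * (Nu * N) = 4268 * q := by rw [hq]; ring
  rw [e1]
  have h4 := abs_sub_le (Gd T ((1 + nu m u) • m + (u - nu m u • m)) h (v - nu m v • m) i j)
    (Gd T ((1 + nu m u) • m) h (v - nu m v • m) i j) (Gd T m h (v - nu m v • m) i j)
  nlinarith

end

end Pool.Agent.Helper48_F5
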