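import Pool.Agent.Helper48_F5.Slow

/-!
Block LIP: slow variation of the field, Taylor expansion of the tube functions.
-/

set_option autoImplicit false

open MeasureTheory

namespace Pool.Agent.Helper48_F5

open Pool.Agent.BTL Pool.Agent.F5S Pool.Agent.F5H

section

variable {K T V τ κ ρ Φ : ℝ} {m h u : T3} {Nu : ℝ}

theorem St.sig (hs : St K T V τ κ ρ Φ m h u Nu) : 1 / 2 ≤ 1 + nu m u ∧ 1 + nu m u ≤ 2 := by
  have h1 := abs_le.1 hs.mu_half
  exact ⟨by linarith [h1.1], by linarith [h1.2]⟩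

theorem St.ipm (hs : St K T V τ κ ρ Φ m h u Nu) : 0 < ip m m := by
  have hT := hs.par.T0
  have hK := hs.K1
  exact lt_of_lt_of_le (by positivity) hs.ip0

theorem St.ipm' (hs : St K T V τ κ ρ Φ m h u Nu) : 0 < ip (m + u) (m + u) := by
  have hT := hs.par.T0
  have hK := hs.K1
  exact lt_of_lt_of_le (by positivity) hs.ip1

/-- the identity for the radial coordinates -/
theorem St.D_eq (hs : St K T V τ κ ρ Φ m h u Nu) (v : T3) :
    (nu (m + u) v - nu m v / (1 + nu m u)) * ip (m + u) (m + u) =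
      ip (v - nu m v • m) (u - nu m u • m) -
        nu m v / (1 + nu m u) * ip (u - nu m u • m) (u - nu m u • m) := by
  have hm := hs.ipm
  have hm' := hs.ipm'
  have hσ : 0 < 1 + nu m u := by linarith [hs.sig.1]
  have e0 := nu_mul hm' v
  have w0 := ip_w hm v
  have u0 := ip_w hm u
  obtain ⟨w, hw⟩ : ∃ w, w = v - nu m v • m := ⟨_, rfl⟩
  obtain ⟨y, hy⟩ : ∃ y, y = u - nu m u • m := ⟨_, rfl⟩
  have hv : v = nu m v • m + w := by rw [hw]; abel
  have hmu : m + u = (1 + nu m u) • m + y := by rw [hy]; exact step_eq m u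
  rw [← hw] at w0 ⊢
  rw [← hy] at u0 ⊢
  have e1 : ip v (m + u) = nu m v * (1 + nu m u) * ip m m + ip w y := by
    have a : ip v (m + u) = ip (nu m v • m + w) ((1 + nu m u) • m + y) := by
      rw [← hv, ← hmu]
    rw [a, ip_add, ip_add', ip_add', ip_smul, ip_smul, ip_smul', ip_smul', w0, ip_comm m y, u0]
    ring
  have e2 : ip (m + u) (m + u) = (1 + nu m u) ^ 2 * ip m m + ip y y := by
    have a : ip (m + u) (m + u) = ip ((1 + nu m u) • m + y) ((1 + nu m u) • m + y) := by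
      rw [← hmu]
    rw [a, ip_add, ip_add', ip_add', ip_smul, ip_smul, ip_smul', ip_smul', ip_comm m y, u0]
    ring
  rw [sub_mul, e0, e1, e2]
  field_simp
  ring

/-- bound for the difference of the radial coordinates -/
theorem St.D_le (hs : St K T V τ κ ρ Φ m h u Nu) (v : T3) :
    |nu (m + u) v - nu m v / (1 + nu m u)| * T ^ 2 ≤
      6 * K ^ 2 * (‖v - nu m v • m‖ * ‖u - nu m u • m‖ +
        2 * |nu m v| * ‖u - nu m u • m‖ ^ 2) := by
  have hK := hs.K1
  have hT := hs.par.T0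
  have hσ := hs.sig
  have hσ0 : 0 < 1 + nu m u := by linarith [hσ.1]
  have h1 := congrArg abs (hs.D_eq v)
  rw [abs_mul, abs_of_pos hs.ipm'] at h1
  obtain ⟨D, hD⟩ : ∃ D, D = |nu (m + u) v - nu m v / (1 + nu m u)| := ⟨_, rfl⟩
  rw [← hD] at h1 ⊢
  have hD0 : 0 ≤ D := by rw [hD]; exact abs_nonneg _
  have h2 := mul_le_mul_of_nonneg_left hs.ip1 hD0
  rw [h1] at h2
  have h3 := abs_ip_le (v - nu m v • m) (u - nu m u • m)
  have h4 := abs_ip_le (u - nu m u • m) (u - nu m u • m)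
  have h5 : |nu m v / (1 + nu m u) * ip (u - nu m u • m) (u - nu m u • m)| ≤
      2 * |nu m v| * (6 * ‖u - nu m u • m‖ * ‖u - nu m u • m‖) := by
    rw [abs_mul, abs_div, abs_of_pos hσ0]
    refine mul_le_mul ?_ h4 (abs_nonneg _) (by positivity)
    rw [div_le_iff₀ hσ0]
    nlinarith [abs_nonneg (nu m v), hσ.1]
  have h6 := abs_sub (ip (v - nu m v • m) (u - nu m u • m))
    (nu m v / (1 + nu m u) * ip (u - nu m u • m) (u - nu m u • m))
  have h7 : D * (T ^ 2 / K ^ 2) ≤ 6 * (‖v - nu m v • m‖ * ‖u - nu m u • m‖ +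
      2 * |nu m v| * ‖u - nu m u • m‖ ^ 2) := by
    calc D * (T ^ 2 / K ^ 2) ≤ _ := h2
      _ ≤ 6 * ‖v - nu m v • m‖ * ‖u - nu m u • m‖ +
          2 * |nu m v| * (6 * ‖u - nu m u • m‖ * ‖u - nu m u • m‖) := by linarith
      _ = _ := by ring
  have hK2 : 0 < K ^ 2 := by positivity
  calc D * T ^ 2 = K ^ 2 * (D * (T ^ 2 / K ^ 2)) := by field_simp
    _ ≤ K ^ 2 * (6 * (‖v - nu m v • m‖ * ‖u - nu m u • m‖ +
      2 * |nu m v| * ‖u - nu m u • m‖ ^ 2)) := mul_le_mul_of_nonneg_left h7 hK2.le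
    _ = _ := by ring

/-- product of three factors at most one -/
theorem nut_le {a b c : ℝ} (ha : 0 ≤ a) (hb : 0 ≤ b) (hb1 : b ≤ 1) (_hc : 0 ≤ c) (hc1 : c ≤ 1 / 2) :
    2 * (a * c) * b ≤ a := by
  have h1 : c * b ≤ 1 / 2 * 1 := mul_le_mul hc1 hb1 hb (by norm_num)
  nlinarith

theorem St.D_rad (hs : St K T V τ κ ρ Φ m h u Nu) {v : T3} {N : ℝ} (hv : NB T κ ρ m h v N) :
    ρ * T * |nu (m + u) v - nu m v / (1 + nu m u)| ≤ 12 * K ^ 2 * τ * (Nu * N) := by
  have hK := hs.K1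
  have hT := hs.par.T0
  have hρ := hs.par.r0
  have hκ := hs.par.k0
  have hτ := hs.par.t0
  have hN := hv.nonneg hκ
  have hNu := hs.Nu0
  have h1 := hs.D_le v
  obtain ⟨D, hD⟩ : ∃ D, D = |nu (m + u) v - nu m v / (1 + nu m u)| := ⟨_, rfl⟩
  obtain ⟨x, hx⟩ : ∃ x, x = ‖v - nu m v • m‖ := ⟨_, rfl⟩
  obtain ⟨y, hy⟩ : ∃ y, y = ‖u - nu m u • m‖ := ⟨_, rfl⟩
  have hxN := hv.w
  have hyN := hs.nb.w
  have hnu := hv.nu_le hs.par
  rw [← hx] at h1 hxN
  rw [← hy] at h1 hyN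
  rw [← hD] at h1 ⊢
  have hx0 : 0 ≤ x := by rw [hx]; exact norm_nonneg _
  have hy0 : 0 ≤ y := by rw [hy]; exact norm_nonneg _
  have hD0 : 0 ≤ D := by rw [hD]; exact abs_nonneg _
  have hν0 := abs_nonneg (nu m v)
  have hρV : ρ ≤ τ * (κ ^ 2 * T) := by
    have := hs.par.p5
    rwa [hs.par.p1] at this
  have a1 : κ ^ 2 * (x * y) ≤ Nu * N := by
    calc κ ^ 2 * (x * y) = (κ * y) * (κ * x) := by ring
      _ ≤ Nu * N := mul_le_mul hyN hxN (by positivity) hNu
  have a2 : κ ^ 2 * (2 * |nu m v| * y ^ 2) ≤ Nu * N := by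
    calc κ ^ 2 * (2 * |nu m v| * y ^ 2) = 2 * |nu m v| * ((κ * y) * (κ * y)) := by ring
      _ ≤ 2 * (N * τ) * (Nu * Nu) :=
          mul_le_mul (by linarith) (mul_le_mul hyN hyN (by positivity) hNu) (by positivity)
            (by positivity)
      _ = Nu * (2 * (N * τ) * Nu) := by ring
      _ ≤ Nu * N := mul_le_mul_of_nonneg_left (nut_le hN hNu hs.N1 hτ.le hs.τ2) hNu
  have hK2 : 0 < K ^ 2 := by positivity
  have h2 : (ρ * T * D) * T ≤ (12 * K ^ 2 * τ * (Nu * N)) * T := by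
    calc (ρ * T * D) * T = ρ * (D * T ^ 2) := by ring
      _ ≤ (τ * (κ ^ 2 * T)) * (6 * K ^ 2 * (x * y + 2 * |nu m v| * y ^ 2)) :=
          mul_le_mul hρV h1 (by positivity) (by positivity)
      _ = 6 * K ^ 2 * τ * T * (κ ^ 2 * (x * y) + κ ^ 2 * (2 * |nu m v| * y ^ 2)) := by ring
      _ ≤ 6 * K ^ 2 * τ * T * (Nu * N + Nu * N) :=
          mul_le_mul_of_nonneg_left (add_le_add a1 a2) (by positivity)
      _ = _ := by ring
  exact le_of_mul_le_mul_right h2 hT

/-- slow variation of the radial coordinate -/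
theorem St.dnu (hs : St K T V τ κ ρ Φ m h u Nu) {v : T3} {N : ℝ} (hv : NB T κ ρ m h v N) :
    ρ * T * |nu (m + u) v - nu m v| ≤ 14 * K ^ 2 * τ * (Nu * N) := by
  have hK := hs.K1
  have hT := hs.par.T0
  have hρ := hs.par.r0
  have hτ := hs.par.t0
  have hN := hv.nonneg hs.par.k0
  have hNu := hs.Nu0
  have hσ := hs.sig
  have hσ0 : 0 < 1 + nu m u := by linarith [hσ.1]
  have h1 := hs.D_rad hv
  have h2 : |nu m v / (1 + nu m u) - nu m v| ≤ 2 * (|nu m v| * |nu m u|) := by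
    have e : nu m v / (1 + nu m u) - nu m v = -(nu m v * nu m u) / (1 + nu m u) := by
      field_simp; ring
    rw [e, abs_div, abs_neg, abs_mul, abs_of_pos hσ0, div_le_iff₀ hσ0]
    have : 0 ≤ |nu m v| * |nu m u| := by positivity
    nlinarith [hσ.1]
  have h3 : ρ * T * |nu m v / (1 + nu m u) - nu m v| ≤ 2 * τ * (Nu * N) := by
    calc ρ * T * |nu m v / (1 + nu m u) - nu m v| ≤ ρ * T * (2 * (|nu m v| * |nu m u|)) :=
          mul_le_mul_of_nonneg_left h2 (by positivity)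
      _ = 2 * ((ρ * T * |nu m v|) * |nu m u|) := by ring
      _ ≤ 2 * (N * (Nu * τ)) :=
          mul_le_mul_of_nonneg_left (mul_le_mul hv.r hs.mu_le (abs_nonneg _) hN) (by norm_num)
      _ = _ := by ring
  have h4 := abs_sub_le (nu (m + u) v) (nu m v / (1 + nu m u)) (nu m v)
  have hK2 : 1 ≤ K ^ 2 := one_le_pow₀ hK
  have hq : 0 ≤ τ * (Nu * N) := by positivity
  calc ρ * T * |nu (m + u) v - nu m v| ≤ ρ * T * (|nu (m + u) v - nu m v / (1 + nu m u)| +
        |nu m v / (1 + nu m u) - nu m v|) := mul_le_mul_of_nonneg_left h4 (by positivity)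
    _ ≤ 12 * K ^ 2 * τ * (Nu * N) + 2 * τ * (Nu * N) := by
        rw [mul_add]; exact add_le_add h1 h3
    _ ≤ _ := by nlinarith

/-- slow variation of the tangential part -/
theorem St.dw (hs : St K T V τ κ ρ Φ m h u Nu) {v : T3} {N : ℝ} (hv : NB T κ ρ m h v N) :
    κ * ‖(v - nu (m + u) v • (m + u)) - (v - nu m v • m)‖ ≤ 39 * K ^ 3 * τ * (Nu * N) := by
  have hK := hs.K1
  have hT := hs.par.T0
  have hρ := hs.par.r0
  have hκ := hs.par.k0
  have hτ := hs.par.t0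
  have hN := hv.nonneg hκ
  have hNu := hs.Nu0
  have hσ := hs.sig
  have hσ0 : 0 < 1 + nu m u := by linarith [hσ.1]
  have h1 := hs.D_le v
  have hdn := hs.dnu hv
  have hxN := hv.w
  have hyN := hs.nb.w
  have hyT := hs.w_le
  have hnu := hv.nu_le hs.par
  have hmK : ‖m‖ ≤ K * T := (pi_norm_le_iff_of_nonneg (by positivity)).2 hs.ok.hm
  obtain ⟨D, hD⟩ : ∃ D, D = nu (m + u) v - nu m v / (1 + nu m u) := ⟨_, rfl⟩
  have e : (v - nu (m + u) v • (m + u)) - (v - nu m v • m) =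
      -(((1 + nu m u) * D) • m + nu (m + u) v • (u - nu m u • m)) := by
    have e1 : (1 + nu m u) * D = (1 + nu m u) * nu (m + u) v - nu m v := by
      rw [hD]; field_simp
    rw [e1]
    have e2 : nu (m + u) v • (m + u) = nu (m + u) v • ((1 + nu m u) • m + (u - nu m u • m)) := by
      rw [← step_eq]
    rw [e2, smul_add, smul_smul, sub_smul, mul_comm (nu (m + u) v)]
    abel
  rw [e, norm_neg]
  rw [← hD] at h1
  obtain ⟨x, hx⟩ : ∃ x, x = ‖v - nu m v • m‖ := ⟨_, rfl⟩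
  obtain ⟨y, hy⟩ : ∃ y, y = ‖u - nu m u • m‖ := ⟨_, rfl⟩
  rw [← hx] at h1 hxN
  rw [← hy] at h1 hyN hyT
  have hx0 : 0 ≤ x := by rw [hx]; exact norm_nonneg _
  have hy0 : 0 ≤ y := by rw [hy]; exact norm_nonneg _
  have hν0 := abs_nonneg (nu m v)
  have hD0 := abs_nonneg D
  have hK2 : 0 < K ^ 2 := by positivity
  -- κ |D| T ≤ 12 K² τ Nu N
  have a1 : κ * |D| * T ≤ 12 * K ^ 2 * τ * (Nu * N) := by
    have a2 : κ * (x * y + 2 * |nu m v| * y ^ 2) ≤ 2 * N * y := by
      calc κ * (x * y + 2 * |nu m v| * y ^ 2) = (κ * x) * y + 2 * |nu m v| * (κ * y) * y := by ring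
        _ ≤ N * y + 2 * (N * τ) * Nu * y := by
            refine add_le_add (mul_le_mul_of_nonneg_right hxN hy0) ?_
            refine mul_le_mul_of_nonneg_right ?_ hy0
            exact mul_le_mul (by linarith) hyN (by positivity) (by positivity)
        _ ≤ N * y + N * y := by
            refine add_le_add (le_refl _) (mul_le_mul_of_nonneg_right ?_ hy0)
            exact nut_le hN hNu hs.N1 hτ.le hs.τ2
        _ = 2 * N * y := by ring
    have a3 : (κ * |D| * T) * T ≤ (12 * K ^ 2 * τ * (Nu * N)) * T := by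
      calc (κ * |D| * T) * T = κ * (|D| * T ^ 2) := by ring
        _ ≤ κ * (6 * K ^ 2 * (x * y + 2 * |nu m v| * y ^ 2)) := mul_le_mul_of_nonneg_left h1 hκ.le
        _ = 6 * K ^ 2 * (κ * (x * y + 2 * |nu m v| * y ^ 2)) := by ring
        _ ≤ 6 * K ^ 2 * (2 * N * y) := mul_le_mul_of_nonneg_left a2 (by positivity)
        _ ≤ 6 * K ^ 2 * (2 * N * (Nu * (T * τ))) := by gcongr
        _ = _ := by ring
    exact le_of_mul_le_mul_right a3 hT
  have b1 : |nu (m + u) v| ≤ 15 * K ^ 2 * τ * N := by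
    have c1 : |nu (m + u) v - nu m v| ≤ 14 * K ^ 2 * τ * N := by
      have c0 := abs_nonneg (nu (m + u) v - nu m v)
      calc |nu (m + u) v - nu m v| ≤ (ρ * T * τ) * |nu (m + u) v - nu m v| := by
            nlinarith [hs.par.p3]
        _ = τ * (ρ * T * |nu (m + u) v - nu m v|) := by ring
        _ ≤ τ * (14 * K ^ 2 * τ * (Nu * N)) := mul_le_mul_of_nonneg_left hdn hτ.le
        _ = 14 * K ^ 2 * τ * N * (τ * Nu) := by ring
        _ ≤ 14 * K ^ 2 * τ * N * 1 := by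
            refine mul_le_mul_of_nonneg_left ?_ (by positivity)
            have := hs.N1
            have := hs.par.t1
            nlinarith
        _ = _ := by ring
    have c2 := abs_sub_abs_le_abs_sub (nu (m + u) v) (nu m v)
    have hK2' : 1 ≤ K ^ 2 := one_le_pow₀ hK
    have : 0 ≤ τ * N := by positivity
    nlinarith
  have n1 : ‖((1 + nu m u) * D) • m + nu (m + u) v • (u - nu m u • m)‖ ≤
      2 * |D| * (K * T) + |nu (m + u) v| * y := by
    refine (norm_add_le _ _).trans ?_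
    rw [norm_smul, norm_smul, Real.norm_eq_abs, Real.norm_eq_abs, abs_mul, abs_of_pos hσ0, ← hy]
    refine add_le_add (mul_le_mul (mul_le_mul_of_nonneg_right hσ.2 hD0) hmK (norm_nonneg _)
      (by positivity)) (le_refl _)
  calc κ * ‖((1 + nu m u) * D) • m + nu (m + u) v • (u - nu m u • m)‖
      ≤ κ * (2 * |D| * (K * T) + |nu (m + u) v| * y) := mul_le_mul_of_nonneg_left n1 hκ.le
    _ = 2 * K * (κ * |D| * T) + |nu (m + u) v| * (κ * y) := by ring
    _ ≤ 2 * K * (12 * K ^ 2 * τ * (Nu * N)) + (15 * K ^ 2 * τ * N) * Nu := by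
        refine add_le_add (mul_le_mul_of_nonneg_left a1 (by positivity)) ?_
        exact mul_le_mul b1 hyN (by positivity) (by positivity)
    _ = 24 * K ^ 3 * τ * (Nu * N) + 15 * K ^ 2 * (τ * (Nu * N)) := by ring
    _ ≤ 24 * K ^ 3 * τ * (Nu * N) + 15 * K ^ 3 * (τ * (Nu * N)) := by
        refine add_le_add (le_refl _) (mul_le_mul_of_nonneg_right ?_ (by positivity))
        exact mul_le_mul_of_nonneg_left (pow_le_pow_right₀ hK (by norm_num)) (by norm_num)
    _ = _ := by ring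

end

end Pool.Agent.Helper48_F5
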