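import Pool.Agent.Helper48_F5.Slow2

/-!
Block LIP: slow variation of the derivatives, Taylor expansion of the tube functions.
-/

set_option autoImplicit false

open MeasureTheory

namespace Pool.Agent.Helper48_F5

open Pool.Agent.BTL Pool.Agent.F5S Pool.Agent.F5H

/-- the terms `H (m, h)` -/
noncomputable def Hd (T : ℝ) (m h : T3) (i j : Fin 3) : ℝ :=
  bl (Hf T m h) (m i) (h i) - bl (Hf T m h) (m j) (h j)

section

variable {K T V τ κ ρ Φ : ℝ} {m h u : T3} {Nu : ℝ}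

theorem Gd_self (ho : Ok K T V m h) (i j : Fin 3) :
    Gd T m h m i j = -Fd T m h i j + Hd T m h i j := by
  simp only [Gd, Fd, Hd, Gf_self ho]; ring

theorem Hd_le (hK : 1 ≤ K) (hT : 0 < T) (hV : 0 ≤ V) (ho : Ok K T V m h) (i j : Fin 3) :
    |Hd T m h i j| ≤ 16 * K ^ 3 * (V ^ 3 / T) := by
  have h1 := Hm_le hK hT hV ho i
  have h2 := Hm_le hK hT hV ho j
  have h3 := abs_sub (bl (Hf T m h) (m i) (h i)) (bl (Hf T m h) (m j) (h j))
  unfold Hd
  linarith

theorem St.m_le (hs : St K T V τ κ ρ Φ m h u Nu) : ‖m‖ ≤ K * T :=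
  (pi_norm_le_iff_of_nonneg (by have := hs.K1; have := hs.par.T0; positivity)).2 hs.ok.hm

theorem St.u_le (hs : St K T V τ κ ρ Φ m h u Nu) :
    ‖u‖ ≤ |nu m u| * (K * T) + ‖u - nu m u • m‖ := by
  have e : u = nu m u • m + (u - nu m u • m) := by abel
  calc ‖u‖ = ‖nu m u • m + (u - nu m u • m)‖ := by rw [← e]
    _ ≤ ‖nu m u • m‖ + ‖u - nu m u • m‖ := norm_add_le _ _
    _ ≤ _ := by
        rw [norm_smul, Real.norm_eq_abs]
        exact add_le_add (mul_le_mul_of_nonneg_left hs.m_le (abs_nonneg _)) (le_refl _)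

theorem St.u_le' (hs : St K T V τ κ ρ Φ m h u Nu) : ‖u‖ ≤ 2 * K * Nu * τ * T := by
  have h1 := hs.u_le
  have h2 := hs.mu_le
  have h3 := hs.w_le
  have hK := hs.K1
  have hT := hs.par.T0
  have hNu := hs.Nu0
  have hτ := hs.par.t0
  calc ‖u‖ ≤ |nu m u| * (K * T) + ‖u - nu m u • m‖ := h1
    _ ≤ (Nu * τ) * (K * T) + Nu * (T * τ) := by gcongr
    _ = K * (Nu * τ * T) + Nu * τ * T := by ring
    _ ≤ K * (Nu * τ * T) + K * (Nu * τ * T) := by
        have : 0 ≤ Nu * τ * T := by positivity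
        nlinarith
    _ = _ := by ring

theorem St.u_le2 (hs : St K T V τ κ ρ Φ m h u Nu) : ‖u‖ ≤ K * T := by
  refine hs.u_le'.trans ?_
  have hK := hs.K1
  have hT := hs.par.T0
  have hNu := hs.Nu0
  have h1 := hs.N1
  have h2 := hs.τ2
  have hτ := hs.par.t0
  have h3 : Nu * τ ≤ 1 / 2 := by nlinarith
  have h4 : 0 ≤ K * T := by positivity
  calc 2 * K * Nu * τ * T = 2 * (Nu * τ) * (K * T) := by ring
    _ ≤ 1 * (K * T) := mul_le_mul_of_nonneg_right (by linarith) h4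
    _ = K * T := one_mul _

/-- Taylor expansion of the tube functions -/
theorem St.dF (hs : St K T V τ κ ρ Φ m h u Nu) (i j : Fin 3) :
    |Fd T (m + u) h i j - Fd T m h i j| ≤ 3750 * K ^ 6 * Nu := by
  have hK := hs.K1
  have hT := hs.par.T0
  have hV := hs.par.V0.le
  have hκ := hs.par.k0
  have hτ := hs.par.t0
  have hτ2 := hs.τ2
  have hNu := hs.Nu0
  have hN1 := hs.N1
  have hσ := hs.sig
  have hσ0 : 0 < 1 + nu m u := by linarith [hσ.1]
  have e0 : 1 + nu m u - 1 = nu m u := by ring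
  have hΦ := hs.Φ0
  have k6 : (1 : ℝ) ≤ K ^ 6 := one_le_pow₀ hK
  have hμ := hs.mu_le
  have hμ0 := abs_nonneg (nu m u)
  obtain ⟨q, hq⟩ : ∃ q, q = K ^ 6 * (Nu * Nu) := ⟨_, rfl⟩
  have hq0 : 0 ≤ q := by rw [hq]; positivity
  have hNN : 0 ≤ Nu * Nu := by positivity
  -- tangential step
  have a1 : |Fd T (m + u) h i j - Fd T ((1 + nu m u) • m) h i j -
      Gd T ((1 + nu m u) • m) h (u - nu m u • m) i j| ≤ 896 * q := by
    have ho' := hs.ok'
    rw [step_eq m u] at ho'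
    have b1 := ddF_le hK hT hV hs.oks ho' hs.w_le' i
    have b2 := ddF_le hK hT hV hs.oks ho' hs.w_le' j
    rw [hs.par.kk] at b1 b2
    have b3 : 448 * K ^ 6 * κ ^ 2 * ‖u - nu m u • m‖ ^ 2 ≤ 448 * q := by
      have hw := hs.nb.w
      have h0 := norm_nonneg (u - nu m u • m)
      rw [hq]
      calc 448 * K ^ 6 * κ ^ 2 * ‖u - nu m u • m‖ ^ 2 =
          448 * (K ^ 6 * ((κ * ‖u - nu m u • m‖) * (κ * ‖u - nu m u • m‖))) := by ring
        _ ≤ 448 * (K ^ 6 * (Nu * Nu)) := by gcongr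
    have e : Fd T (m + u) h i j - Fd T ((1 + nu m u) • m) h i j -
        Gd T ((1 + nu m u) • m) h (u - nu m u • m) i j =
        (Ff T ((1 + nu m u) • m + (u - nu m u • m)) h i - Ff T ((1 + nu m u) • m) h i -
          Gf T ((1 + nu m u) • m) h (u - nu m u • m) i) -
        (Ff T ((1 + nu m u) • m + (u - nu m u • m)) h j - Ff T ((1 + nu m u) • m) h j -
          Gf T ((1 + nu m u) • m) h (u - nu m u • m) j) := by
      rw [← step_eq m u]; simp only [Fd, Gd]; ring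
    rw [e]
    refine (abs_sub _ _).trans ?_
    linarith
  -- change of the derivative
  have a2 : |Gd T ((1 + nu m u) • m) h (u - nu m u • m) i j - Gd T m h (u - nu m u • m) i j| ≤
      2508 * q := by
    have b1 := dGsig_le hK hs.par hs.ok hs.oks hs.mu_half hs.nb.r hs.nb.w i j
    have b2 := hs.gw hs.nb i j
    have k5 : K ^ 5 * (Nu * Nu) ≤ K ^ 6 * (Nu * Nu) :=
      mul_le_mul_of_nonneg_right (pow_le_pow_right₀ hK (by norm_num)) hNN
    have k3 : K ^ 3 * (Nu * Nu) ≤ K ^ 6 * (Nu * Nu) :=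
      mul_le_mul_of_nonneg_right (pow_le_pow_right₀ hK (by norm_num)) hNN
    rw [hq]
    nlinarith
  -- radial step
  have a3 : |Fd T ((1 + nu m u) • m) h i j - Fd T m h i j - nu m u * Gd T m h m i j -
      nu m u ^ 2 / (1 + nu m u) * Fd T m h i j| ≤ 344 * q := by
    have b1 := ddFs_le hK hT hV hs.par.VT hs.ok hs.oks hσ.1 hσ.2 i
    have b2 := ddFs_le hK hT hV hs.par.VT hs.ok hs.oks hσ.1 hσ.2 j
    rw [e0] at b1 b2
    have b3 := nunu_le hs.par hs.nb.r hs.nb.r hμ0 hμ0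
    have b4 : 172 * K ^ 4 * |nu m u| ^ 2 * (V ^ 3 / T) ≤ 172 * q := by
      rw [hq]
      have k46 : K ^ 4 ≤ K ^ 6 := pow_le_pow_right₀ hK (by norm_num)
      calc 172 * K ^ 4 * |nu m u| ^ 2 * (V ^ 3 / T) =
          172 * (K ^ 4 * (|nu m u| * |nu m u| * (V ^ 3 / T))) := by ring
        _ ≤ 172 * (K ^ 4 * (Nu * Nu)) := by gcongr
        _ ≤ 172 * (K ^ 6 * (Nu * Nu)) := by gcongr
    have e : Fd T ((1 + nu m u) • m) h i j - Fd T m h i j - nu m u * Gd T m h m i j -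
        nu m u ^ 2 / (1 + nu m u) * Fd T m h i j =
        (Ff T ((1 + nu m u) • m) h i - Ff T m h i - nu m u * Gf T m h m i -
          nu m u ^ 2 / (1 + nu m u) * Ff T m h i) -
        (Ff T ((1 + nu m u) • m) h j - Ff T m h j - nu m u * Gf T m h m j -
          nu m u ^ 2 / (1 + nu m u) * Ff T m h j) := by
      simp only [Fd, Gd]; ring
    rw [e]
    refine (abs_sub _ _).trans ?_
    linarith
  have a4 : |nu m u ^ 2 / (1 + nu m u) * Fd T m h i j| ≤ q := by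
    rw [abs_mul, abs_div, abs_of_pos hσ0, abs_pow]
    have b1 : |nu m u| ^ 2 / (1 + nu m u) ≤ 2 * |nu m u| ^ 2 := by
      rw [div_le_iff₀ hσ0]
      nlinarith [hσ.1, sq_nonneg |nu m u|]
    calc |nu m u| ^ 2 / (1 + nu m u) * |Fd T m h i j| ≤ 2 * |nu m u| ^ 2 * Φ :=
          mul_le_mul b1 (hs.F0 i j) (abs_nonneg _) (by positivity)
      _ ≤ 2 * (Nu * τ) ^ 2 * Φ := by gcongr
      _ = (Nu * Nu) * (2 * τ * (Φ * τ)) := by ring
      _ ≤ (Nu * Nu) * 1 := by
          refine mul_le_mul_of_nonneg_left ?_ hNN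
          have := hs.Φτ
          have h0 : 0 ≤ Φ * τ := by positivity
          nlinarith
      _ ≤ q := by rw [hq]; nlinarith
  have a5 : |nu m u * Gd T m h m i j + Gd T m h (u - nu m u • m) i j| ≤ Nu := by
    have e : nu m u * Gd T m h m i j + Gd T m h (u - nu m u • m) i j = Gd T m h u i j := by
      rw [Gd_sub_smul]; ring
    rw [e]
    exact hs.nb.g i j
  have e : Fd T (m + u) h i j - Fd T m h i j =
      (Fd T (m + u) h i j - Fd T ((1 + nu m u) • m) h i j -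
        Gd T ((1 + nu m u) • m) h (u - nu m u • m) i j) +
      (Gd T ((1 + nu m u) • m) h (u - nu m u • m) i j - Gd T m h (u - nu m u • m) i j) +
      (Fd T ((1 + nu m u) • m) h i j - Fd T m h i j - nu m u * Gd T m h m i j -
        nu m u ^ 2 / (1 + nu m u) * Fd T m h i j) +
      nu m u ^ 2 / (1 + nu m u) * Fd T m h i j +
      (nu m u * Gd T m h m i j + Gd T m h (u - nu m u • m) i j) := by ring
  rw [e]
  refine (abs_add_le _ _).trans ?_
  refine (add_le_add ((abs_add_le _ _).trans (add_le_add ((abs_add_le _ _).trans (add_le_add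
    (abs_add_le _ _) (le_refl _))) (le_refl _))) (le_refl _)).trans ?_
  have hqN : q ≤ K ^ 6 * Nu := by
    rw [hq]
    refine mul_le_mul_of_nonneg_left ?_ (by positivity)
    nlinarith
  have hNK : Nu ≤ K ^ 6 * Nu := by nlinarith
  linarith

/-- change of the radial derivative -/
theorem St.dGm (hs : St K T V τ κ ρ Φ m h u Nu) (i j : Fin 3) :
    |Gd T (m + u) h m i j - Gd T m h m i j| ≤
      2 * (3750 * K ^ 6 * Nu + 2 * (|nu m u| * Φ) + 816 * K ^ 6 * (|nu m u| * (V ^ 3 / T)) +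
        784 * K ^ 5 * (‖u - nu m u • m‖ * (V ^ 3 / T ^ 2)) + Nu + 4268 * K ^ 6 * (Nu * Nu)) := by
  have hK := hs.K1
  have hT := hs.par.T0
  have hV := hs.par.V0.le
  have hσ := hs.sig
  have hσ0 : 0 < 1 + nu m u := by linarith [hσ.1]
  obtain ⟨μ, hμ⟩ : ∃ μ, μ = nu m u := ⟨_, rfl⟩
  obtain ⟨y, hy⟩ : ∃ y, y = u - nu m u • m := ⟨_, rfl⟩
  -- the identity
  have e1 : (1 + nu m u) * (Gd T (m + u) h m i j - Gd T m h m i j) =
      -(Fd T (m + u) h i j - Fd T m h i j) + nu m u * Fd T m h i j +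
      (Hd T (m + u) h i j - Hd T m h i j) - nu m u * Hd T m h i j -
      Gd T (m + u) h (u - nu m u • m) i j := by
    have a : (1 + nu m u) * Gd T (m + u) h m i j =
        Gd T (m + u) h (m + u) i j - Gd T (m + u) h (u - nu m u • m) i j := by
      have b : Gd T (m + u) h (m + u) i j = Gd T (m + u) h ((1 + nu m u) • m +
          (u - nu m u • m)) i j := by rw [← step_eq]
      rw [b, Gd_add, Gd_smul]; ring
    rw [mul_sub, a, Gd_self hs.ok', Gd_self hs.ok]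
    ring
  have h1 : |Fd T (m + u) h i j - Fd T m h i j| ≤ 3750 * K ^ 6 * Nu := hs.dF i j
  have h2 : |nu m u * Fd T m h i j| ≤ |nu m u| * Φ := by
    rw [abs_mul]; exact mul_le_mul_of_nonneg_left (hs.F0 i j) (abs_nonneg _)
  have h3 : |Hd T (m + u) h i j - Hd T m h i j| ≤
      784 * K ^ 6 * (|nu m u| * (V ^ 3 / T)) +
        784 * K ^ 5 * (‖u - nu m u • m‖ * (V ^ 3 / T ^ 2)) := by
    have b1 := dHm_le hK hT hV hs.ok hs.ok' hs.u_le2 i
    have b2 := dHm_le hK hT hV hs.ok hs.ok' hs.u_le2 j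
    have b3 : |Hd T (m + u) h i j - Hd T m h i j| ≤ 784 * K ^ 5 * (V ^ 3 / T ^ 2) * ‖u‖ := by
      have e : Hd T (m + u) h i j - Hd T m h i j =
          (bl (Hf T (m + u) h) ((m + u) i) (h i) - bl (Hf T m h) (m i) (h i)) -
          (bl (Hf T (m + u) h) ((m + u) j) (h j) - bl (Hf T m h) (m j) (h j)) := by
        simp only [Hd]; ring
      rw [e]
      refine (abs_sub _ _).trans ?_
      linarith
    refine b3.trans ?_
    calc 784 * K ^ 5 * (V ^ 3 / T ^ 2) * ‖u‖ ≤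
        784 * K ^ 5 * (V ^ 3 / T ^ 2) * (|nu m u| * (K * T) + ‖u - nu m u • m‖) :=
          mul_le_mul_of_nonneg_left hs.u_le (by positivity)
      _ = _ := by field_simp
  have h4 : |nu m u * Hd T m h i j| ≤ 16 * K ^ 6 * (|nu m u| * (V ^ 3 / T)) := by
    rw [abs_mul]
    have k36 : K ^ 3 ≤ K ^ 6 := pow_le_pow_right₀ hK (by norm_num)
    have b4 : 16 * K ^ 3 * (V ^ 3 / T) ≤ 16 * K ^ 6 * (V ^ 3 / T) :=
      mul_le_mul_of_nonneg_right (mul_le_mul_of_nonneg_left k36 (by norm_num)) (by positivity)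
    calc |nu m u| * |Hd T m h i j| ≤ |nu m u| * (16 * K ^ 3 * (V ^ 3 / T)) :=
          mul_le_mul_of_nonneg_left (Hd_le hK hT hV hs.ok i j) (abs_nonneg _)
      _ ≤ |nu m u| * (16 * K ^ 6 * (V ^ 3 / T)) :=
          mul_le_mul_of_nonneg_left b4 (abs_nonneg _)
      _ = _ := by ring
  have h5 : |Gd T (m + u) h (u - nu m u • m) i j| ≤
      Nu + |nu m u| * Φ + 16 * K ^ 6 * (|nu m u| * (V ^ 3 / T)) + 4268 * K ^ 6 * (Nu * Nu) := by
    have b1 := hs.dGw hs.nb i j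
    have b2 := Gd_w_le hK hs.par hs.ok (hs.F0 i j) hs.nb
    have b3 := abs_sub_abs_le_abs_sub (Gd T (m + u) h (u - nu m u • m) i j)
      (Gd T m h (u - nu m u • m) i j)
    have k36 : K ^ 3 ≤ K ^ 6 := pow_le_pow_right₀ hK (by norm_num)
    have b4 : 16 * K ^ 3 * (V ^ 3 / T) ≤ 16 * K ^ 6 * (V ^ 3 / T) :=
      mul_le_mul_of_nonneg_right (mul_le_mul_of_nonneg_left k36 (by norm_num)) (by positivity)
    have b5 := mul_le_mul_of_nonneg_left b4 (abs_nonneg (nu m u))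
    have b6 : |nu m u| * (Φ + 16 * K ^ 3 * (V ^ 3 / T)) =
        |nu m u| * Φ + |nu m u| * (16 * K ^ 3 * (V ^ 3 / T)) := by ring
    have b7 : |nu m u| * (16 * K ^ 6 * (V ^ 3 / T)) = 16 * K ^ 6 * (|nu m u| * (V ^ 3 / T)) := by
      ring
    linarith
  have h6 : |(1 + nu m u) * (Gd T (m + u) h m i j - Gd T m h m i j)| ≤
      3750 * K ^ 6 * Nu + 2 * (|nu m u| * Φ) + 816 * K ^ 6 * (|nu m u| * (V ^ 3 / T)) +
        784 * K ^ 5 * (‖u - nu m u • m‖ * (V ^ 3 / T ^ 2)) + Nu + 4268 * K ^ 6 * (Nu * Nu) := by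
    rw [e1]
    refine (abs_sub _ _).trans ?_
    refine (add_le_add ((abs_sub _ _).trans (add_le_add ((abs_add_le _ _).trans (add_le_add
      (abs_add_le _ _) (le_refl _))) (le_refl _))) (le_refl _)).trans ?_
    rw [abs_neg]
    linarith
  rw [abs_mul, abs_of_pos hσ0] at h6
  have h7 := abs_nonneg (Gd T (m + u) h m i j - Gd T m h m i j)
  nlinarith [hσ.1]

/-- slow variation of the derivatives -/
theorem St.dG (hs : St K T V τ κ ρ Φ m h u Nu) {v : T3} {N : ℝ} (hv : NB T κ ρ m h v N)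
    (i j : Fin 3) :
    |Gd T (m + u) h v i j - Gd T m h v i j| ≤ 23508 * K ^ 6 * Nu * N := by
  have hK := hs.K1
  have hT := hs.par.T0
  have hV := hs.par.V0.le
  have hκ := hs.par.k0
  have hτ := hs.par.t0
  have hτ1 := hs.par.t1
  have hτ2 := hs.τ2
  have hN := hv.nonneg hκ
  have hNu := hs.Nu0
  have hN1 := hs.N1
  have e : Gd T (m + u) h v i j - Gd T m h v i j =
      nu m v * (Gd T (m + u) h m i j - Gd T m h m i j) +
      (Gd T (m + u) h (v - nu m v • m) i j - Gd T m h (v - nu m v • m) i j) := by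
    rw [Gd_sub_smul, Gd_sub_smul]; ring
  rw [e]
  refine (abs_add_le _ _).trans ?_
  rw [abs_mul]
  have h1 := hs.dGm i j
  have h2 := hs.dGw hv i j
  have hν := hv.nu_le hs.par
  have hν0 := abs_nonneg (nu m v)
  have hμ := hs.mu_le
  have hμ0 := abs_nonneg (nu m u)
  have hy0 := norm_nonneg (u - nu m u • m)
  have hΦ := hs.Φ0
  have s1 := nunu_le hs.par hs.nb.r hv.r hμ0 hν0
  have s2 := nuw_le hs.par hv.r hs.nb.w hν0 hy0
  have hNN : 0 ≤ Nu * N := by positivity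
  have t1 : |nu m v| * (3750 * K ^ 6 * Nu) ≤ 3750 * K ^ 6 * (Nu * N) := by
    calc |nu m v| * (3750 * K ^ 6 * Nu) ≤ (N * τ) * (3750 * K ^ 6 * Nu) :=
          mul_le_mul_of_nonneg_right hν (by positivity)
      _ = 3750 * K ^ 6 * (Nu * N) * τ := by ring
      _ ≤ 3750 * K ^ 6 * (Nu * N) * 1 := mul_le_mul_of_nonneg_left hτ1 (by positivity)
      _ = _ := mul_one _
  have k6 : (1 : ℝ) ≤ K ^ 6 := one_le_pow₀ hK
  have t2 : |nu m v| * (2 * (|nu m u| * Φ)) ≤ K ^ 6 * (Nu * N) := by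
    calc |nu m v| * (2 * (|nu m u| * Φ)) ≤ (N * τ) * (2 * ((Nu * τ) * Φ)) := by gcongr
      _ = (Nu * N) * (2 * τ * (Φ * τ)) := by ring
      _ ≤ (Nu * N) * 1 := by
          refine mul_le_mul_of_nonneg_left ?_ hNN
          have := hs.Φτ
          have h0 : 0 ≤ Φ * τ := by positivity
          nlinarith
      _ ≤ K ^ 6 * (Nu * N) := by nlinarith
  have t3 : |nu m v| * (816 * K ^ 6 * (|nu m u| * (V ^ 3 / T))) ≤ 816 * K ^ 6 * (Nu * N) := by
    calc |nu m v| * (816 * K ^ 6 * (|nu m u| * (V ^ 3 / T))) =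
        816 * K ^ 6 * (|nu m u| * |nu m v| * (V ^ 3 / T)) := by ring
      _ ≤ _ := mul_le_mul_of_nonneg_left s1 (by positivity)
  have t4 : |nu m v| * (784 * K ^ 5 * (‖u - nu m u • m‖ * (V ^ 3 / T ^ 2))) ≤
      784 * K ^ 6 * (Nu * N) := by
    calc |nu m v| * (784 * K ^ 5 * (‖u - nu m u • m‖ * (V ^ 3 / T ^ 2))) =
        784 * K ^ 5 * (|nu m v| * ‖u - nu m u • m‖ * (V ^ 3 / T ^ 2)) := by ring
      _ ≤ 784 * K ^ 5 * (N * Nu) := mul_le_mul_of_nonneg_left s2 (by positivity)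
      _ = 784 * K ^ 5 * (Nu * N) := by ring
      _ ≤ 784 * K ^ 6 * (Nu * N) := by
          refine mul_le_mul_of_nonneg_right ?_ hNN
          exact mul_le_mul_of_nonneg_left (pow_le_pow_right₀ hK (by norm_num)) (by norm_num)
  have t5 : |nu m v| * Nu ≤ K ^ 6 * (Nu * N) := by
    calc |nu m v| * Nu ≤ (N * τ) * Nu := mul_le_mul_of_nonneg_right hν hNu
      _ = τ * (Nu * N) := by ring
      _ ≤ K ^ 6 * (Nu * N) := mul_le_mul_of_nonneg_right (by linarith) hNN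
  have t6 : |nu m v| * (4268 * K ^ 6 * (Nu * Nu)) ≤ 4268 * K ^ 6 * (Nu * N) := by
    calc |nu m v| * (4268 * K ^ 6 * (Nu * Nu)) ≤ (N * τ) * (4268 * K ^ 6 * (Nu * Nu)) :=
          mul_le_mul_of_nonneg_right hν (by positivity)
      _ = 4268 * K ^ 6 * (Nu * N) * (τ * Nu) := by ring
      _ ≤ 4268 * K ^ 6 * (Nu * N) * 1 := by
          refine mul_le_mul_of_nonneg_left ?_ (by positivity)
          nlinarith
      _ = _ := mul_one _
  have h3 := mul_le_mul_of_nonneg_left h1 hν0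
  have e2 : |nu m v| * (2 * (3750 * K ^ 6 * Nu + 2 * (|nu m u| * Φ) + 816 * K ^ 6 * (|nu m u| * (V ^ 3 / T)) +
        784 * K ^ 5 * (‖u - nu m u • m‖ * (V ^ 3 / T ^ 2)) + Nu + 4268 * K ^ 6 * (Nu * Nu))) =
      2 * (|nu m v| * (3750 * K ^ 6 * Nu) + |nu m v| * (2 * (|nu m u| * Φ)) +
        |nu m v| * (816 * K ^ 6 * (|nu m u| * (V ^ 3 / T))) +
        |nu m v| * (784 * K ^ 5 * (‖u - nu m u • m‖ * (V ^ 3 / T ^ 2))) +
        |nu m v| * Nu + |nu m v| * (4268 * K ^ 6 * (Nu * Nu))) := by ring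
  rw [e2] at h3
  have e3 : 23508 * K ^ 6 * Nu * N = 23508 * (K ^ 6 * (Nu * N)) := by ring
  rw [e3]
  linarith

/-- change of a single function -/
theorem St.dF1 (hs : St K T V τ κ ρ Φ m h u Nu) (l : Fin 3) :
    |Ff T (m + u) h l - Ff T m h l| ≤ 52 * K ^ 5 * Nu * (V / ρ + V / κ) := by
  have hK := hs.K1
  have hT := hs.par.T0
  have hV := hs.par.V0.le
  have hκ := hs.par.k0
  have hρ := hs.par.r0
  have hNu := hs.Nu0
  have h1 := blb (dZ_le hK hT hs.ok hs.ok' hs.u_le2) (hs.ok'.hm l) (hs.ok.hh l)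
  have h2 := blb (norm_Zf_le hT hs.ok) (norm_le_pi_norm u l) (hs.ok.hh l)
  have e : Ff T (m + u) h l - Ff T m h l =
      bl (Zf T (m + u) h - Zf T m h) ((m + u) l) (h l) + bl (Zf T m h) (u l) (h l) := by
    simp only [Ff, Pi.add_apply, bl_add, bl_sub_form]; ring
  rw [e]
  refine (abs_add_le _ _).trans ?_
  have k4 : K ≤ K ^ 4 := by
    calc K = K ^ 1 := (pow_one K).symm
      _ ≤ K ^ 4 := pow_le_pow_right₀ hK (by norm_num)
  have h3 : 4 * (12 * K ^ 3 * ‖u‖ / T) * (K * T) * V + 4 * K * ‖u‖ * V ≤ 52 * K ^ 4 * V * ‖u‖ := by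
    have a : 4 * (12 * K ^ 3 * ‖u‖ / T) * (K * T) * V = 48 * K ^ 4 * V * ‖u‖ := by
      field_simp; ring
    have b : 4 * K * ‖u‖ * V ≤ 4 * K ^ 4 * ‖u‖ * V := by gcongr
    rw [a]; linarith
  have h4 : ‖u‖ ≤ K * Nu * (1 / ρ + 1 / κ) := by
    have a := hs.u_le
    have b : |nu m u| * T ≤ Nu * (1 / ρ) := by
      have := hs.nb.r
      rw [mul_one_div, le_div_iff₀ hρ]
      linarith
    have c : ‖u - nu m u • m‖ ≤ Nu * (1 / κ) := by
      have := hs.nb.w
      rw [mul_one_div, le_div_iff₀ hκ]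
      linarith
    have d : Nu * (1 / κ) ≤ K * (Nu * (1 / κ)) := by
      have : 0 ≤ Nu * (1 / κ) := by positivity
      nlinarith
    calc ‖u‖ ≤ |nu m u| * (K * T) + ‖u - nu m u • m‖ := a
      _ = K * (|nu m u| * T) + ‖u - nu m u • m‖ := by ring
      _ ≤ K * (Nu * (1 / ρ)) + K * (Nu * (1 / κ)) :=
          add_le_add (mul_le_mul_of_nonneg_left b (by linarith)) (c.trans d)
      _ = _ := by ring
  calc |bl (Zf T (m + u) h - Zf T m h) ((m + u) l) (h l)| + |bl (Zf T m h) (u l) (h l)|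
      ≤ 52 * K ^ 4 * V * ‖u‖ := (add_le_add h1 h2).trans h3
    _ ≤ 52 * K ^ 4 * V * (K * Nu * (1 / ρ + 1 / κ)) := mul_le_mul_of_nonneg_left h4 (by positivity)
    _ = _ := by ring

end

end Pool.Agent.Helper48_F5
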