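import Pool.Agent.Helper48_F5.Lin

/-!
Solution of `AW B m h l = f l` by cross products; the forms `Z`, `B[v]`, `H` and the functions
`F_l`, `G_l[v]`.
-/

set_option autoImplicit false

open MeasureTheory

namespace Pool.Agent.Helper48_F5

open Pool.Agent.BTL Pool.Agent.F5S

/-- real Veronese vector -/
def vq (y : ℝ × ℝ) : ℝ × ℝ × ℝ := (y.1 ^ 2, 2 * y.1 * y.2, y.2 ^ 2)

/-- the vector of the functional `AW · m h l` -/
noncomputable def wv (m h : T3) (l : Fin 3) : ℝ × ℝ × ℝ := vq (m l) + (1 / 4 : ℝ) • vq (h l)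

theorem AW_eq_dot (A : ℝ × ℝ × ℝ) (m h : T3) (l : Fin 3) : AW A m h l = dot A (wv m h l) := by
  simp only [AW, qf, dot, wv, vq, Prod.fst_add, Prod.snd_add, Prod.smul_fst, Prod.smul_snd,
    smul_eq_mul]
  ring

/-- the determinant -/
noncomputable def nn (m h : T3) : ℝ := dot (wv m h 0) (cr (wv m h 1) (wv m h 2))

/-- the solution of `AW B m h l = f l` -/
noncomputable def sol (m h : T3) (f : Fin 3 → ℝ) : ℝ × ℝ × ℝ :=
  (nn m h)⁻¹ • (f 0 • cr (wv m h 1) (wv m h 2) + (f 1 • cr (wv m h 2) (wv m h 0) +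
    f 2 • cr (wv m h 0) (wv m h 1)))

theorem eq_of_AW {K T V : ℝ} {m h : T3} (ho : Ok K T V m h) {A B : ℝ × ℝ × ℝ}
    (hAB : ∀ l, AW A m h l = AW B m h l) : A = B := by
  have h1 := ho.inv (A - B) 0 (fun l => by rw [AW_sub, hAB l, sub_self, abs_zero])
  rw [mul_zero, zero_div] at h1
  exact sub_eq_zero.1 (norm_le_zero_iff.1 h1)

theorem dot_cr_left (a b : ℝ × ℝ × ℝ) : dot (cr a b) a = 0 := by
  simp only [dot, cr]; ring

theorem dot_cr_right (a b : ℝ × ℝ × ℝ) : dot (cr a b) b = 0 := by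
  simp only [dot, cr]; ring

theorem nn_ne_zero {K T V : ℝ} {m h : T3} (ho : Ok K T V m h) : nn m h ≠ 0 := by
  intro hn
  have hz : ∀ A : ℝ × ℝ × ℝ, (∀ l, dot A (wv m h l) = 0) → A = 0 := by
    intro A hA
    refine eq_of_AW ho (B := 0) fun l => ?_
    rw [AW_eq_dot, hA l, AW_eq_dot]
    simp [dot]
  obtain ⟨a, ha⟩ : ∃ a, a = wv m h 0 := ⟨_, rfl⟩
  obtain ⟨b, hb⟩ : ∃ b, b = wv m h 1 := ⟨_, rfl⟩
  obtain ⟨c, hc⟩ : ∃ c, c = wv m h 2 := ⟨_, rfl⟩
  have hz' : ∀ A : ℝ × ℝ × ℝ, dot A a = 0 → dot A b = 0 → dot A c = 0 → A = 0 := by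
    intro A h0 h1 h2
    refine hz A fun l => ?_
    fin_cases l
    · simpa [← ha] using h0
    · simpa [← hb] using h1
    · simpa [← hc] using h2
  have hn' : dot a (cr b c) = 0 := by rw [ha, hb, hc]; exact hn
  have t1 : dot (cr b c) a = 0 := by
    rw [← hn']; simp only [dot, cr]; ring
  have t2 : dot (cr c a) b = 0 := by
    rw [← hn']; simp only [dot, cr]; ring
  have t3 : dot (cr a b) c = 0 := by
    rw [← hn']; simp only [dot, cr]; ring
  have e1 : cr b c = 0 := hz' _ t1 (dot_cr_left b c) (dot_cr_right b c)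
  have e2 : cr c a = 0 := hz' _ (dot_cr_right c a) t2 (dot_cr_left c a)
  have e3 : cr a b = 0 := hz' _ (dot_cr_left a b) (dot_cr_right a b) t3
  have par : ∀ x y e : ℝ × ℝ × ℝ, cr x y = 0 → dot (cr x e) y = 0 := by
    intro x y e hxy
    have : dot (cr x e) y = -dot (cr x y) e := by simp only [dot, cr]; ring
    rw [this, hxy]; simp [dot]
  have sw : ∀ x y : ℝ × ℝ × ℝ, cr x y = 0 → cr y x = 0 := by
    intro x y hxy
    have : cr y x = -cr x y := by
      simp only [cr, Prod.ext_iff, Prod.fst_neg, Prod.snd_neg]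
      refine ⟨?_, ?_, ?_⟩ <;> ring
    rw [this, hxy, neg_zero]
  have za : ∀ e : ℝ × ℝ × ℝ, cr a e = 0 := fun e =>
    hz' _ (dot_cr_left a e) (par a b e e3) (par a c e (sw _ _ e2))
  have zb : ∀ e : ℝ × ℝ × ℝ, cr b e = 0 := fun e =>
    hz' _ (par b a e (sw _ _ e3)) (dot_cr_left b e) (par b c e e1)
  have zc : ∀ e : ℝ × ℝ × ℝ, cr c e = 0 := fun e =>
    hz' _ (par c a e e2) (par c b e (sw _ _ e1)) (dot_cr_left c e)
  have nul : ∀ x : ℝ × ℝ × ℝ, (∀ e, cr x e = 0) → x = 0 := by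
    intro x hx
    have h1 := hx ((1 : ℝ), (0 : ℝ), (0 : ℝ))
    have h2 := hx ((0 : ℝ), (1 : ℝ), (0 : ℝ))
    simp only [cr, Prod.ext_iff, Prod.fst_zero, Prod.snd_zero] at h1 h2
    obtain ⟨-, h12, h13⟩ := h1
    obtain ⟨h21, -, h23⟩ := h2
    refine Prod.ext ?_ (Prod.ext ?_ ?_)
    · simp only [Prod.fst_zero]; linarith
    · simp only [Prod.snd_zero, Prod.fst_zero]; linarith
    · simp only [Prod.snd_zero]; linarith
  have a0 := nul a za
  have b0 := nul b zb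
  have c0 := nul c zc
  have h1 := hz' ((1 : ℝ), (0 : ℝ), (0 : ℝ)) (by rw [a0]; simp [dot]) (by rw [b0]; simp [dot])
    (by rw [c0]; simp [dot])
  have := congrArg Prod.fst h1
  simp at this

theorem AW_sol {K T V : ℝ} {m h : T3} (ho : Ok K T V m h) (f : Fin 3 → ℝ) (l : Fin 3) :
    AW (sol m h f) m h l = f l := by
  have hn := nn_ne_zero ho
  rw [AW_eq_dot]
  have lin : ∀ (c x y z : ℝ) (a b d w : ℝ × ℝ × ℝ), dot (c • (x • a + (y • b + z • d))) w =
      c * (x * dot a w + (y * dot b w + z * dot d w)) := by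
    intro c x y z a b d w
    simp only [dot, Prod.fst_add, Prod.snd_add, Prod.smul_fst, Prod.smul_snd, smul_eq_mul]
    ring
  unfold sol
  rw [lin]
  have s1 : ∀ a b c : ℝ × ℝ × ℝ, dot (cr b c) a = dot a (cr b c) := by
    intro a b c; simp only [dot]; ring
  have s2 : dot (cr (wv m h 2) (wv m h 0)) (wv m h 1) = nn m h := by
    simp only [dot, cr, nn]; ring
  have s3 : dot (cr (wv m h 0) (wv m h 1)) (wv m h 2) = nn m h := by
    simp only [dot, cr, nn]; ring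
  fin_cases l
  · simp only [Fin.zero_eta, Fin.isValue]
    rw [s1, dot_cr_right, dot_cr_left]
    change (nn m h)⁻¹ * (f 0 * nn m h + (f 1 * 0 + f 2 * 0)) = f 0
    field_simp
    ring
  · simp only [Fin.mk_one, Fin.isValue]
    rw [s2, dot_cr_left, dot_cr_right]
    field_simp
    ring
  · simp only [Fin.reduceFinMk, Fin.isValue]
    rw [s3, dot_cr_right, dot_cr_left]
    field_simp
    ring

theorem norm_sol_le {K T V : ℝ} {m h : T3} (ho : Ok K T V m h) {f : Fin 3 → ℝ} {c : ℝ}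
    (hf : ∀ l, |f l| ≤ c) : ‖sol m h f‖ ≤ K * c / T ^ 2 :=
  ho.inv _ _ fun l => by rw [AW_sol ho]; exact hf l

/-- `Z (m_l) + Z (h_l) / 4 = T²` -/
noncomputable def Zf (T : ℝ) (m h : T3) : ℝ × ℝ × ℝ := sol m h fun _ => T ^ 2

/-- `B (m_l) + B (h_l) / 4 = - 2 Z (m_l, v_l)` -/
noncomputable def Bf (T : ℝ) (m h v : T3) : ℝ × ℝ × ℝ :=
  sol m h fun l => -2 * bl (Zf T m h) (m l) (v l)

/-- `H (m_l) + H (h_l) / 4 = Z (h_l) / 2` -/
noncomputable def Hf (T : ℝ) (m h : T3) : ℝ × ℝ × ℝ := sol m h fun l => qf (Zf T m h) (h l) / 2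

/-- `F_l = Z (m_l, h_l)` -/
noncomputable def Ff (T : ℝ) (m h : T3) (l : Fin 3) : ℝ := bl (Zf T m h) (m l) (h l)

/-- the derivative of `F_l` in the direction `v` -/
noncomputable def Gf (T : ℝ) (m h v : T3) (l : Fin 3) : ℝ :=
  bl (Zf T m h) (v l) (h l) + bl (Bf T m h v) (m l) (h l)

end Pool.Agent.Helper48_F5
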