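import Pool.Agent.Helper48_F5.Big

/-!
Block LIP: a small step from a point of the region leads to a close point.
-/

set_option autoImplicit false

open MeasureTheory Filter Topology

namespace Pool.Agent.Helper48_F5

open Pool.Agent.BTL Pool.Agent.F5S Pool.Agent.F5H

section

variable {T : ℝ} {h m : R6}

theorem Bg.T0 (hb : Bg T) : 0 < T := by have := hb.T1; linarith

theorem Bg.P1 (hb : Bg T) : 1 ≤ Px T := by have := hb.P2; linarith

theorem Bg.K1 (hb : Bg T) : 1 ≤ Kc (Px T) := by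
  have := Kc_ge hb.P1
  have := hb.P2
  linarith

theorem Bg.Nx0 (_hb : Bg T) : 0 ≤ Nx T := by
  have := _hb.T0
  unfold Nx; positivity

theorem Bg.Nx1 (hb : Bg T) : Nx T ≤ 1 := by
  have h1 := hb.N1
  have h2 := hb.e3
  have h3 : 1 ≤ Kc (Px T) ^ 8 := one_le_pow₀ hb.K1
  have h4 := hb.Nx0
  have h5 : Nx T ≤ 10 ^ 8 * Kc (Px T) ^ 8 * Nx T := by nlinarith
  linarith

theorem par_of (hb : Bg T) (h1 : 1 ≤ ‖h‖) (hh : ‖h‖ ≤ 8 * Lx T) :
    Par T ‖h‖ (tx T) (kap T ‖h‖) (kapr T ‖h‖) := by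
  have hT := hb.T0
  have hT1 := hb.T1
  have hVT : ‖h‖ ≤ T := hh.trans hb.lt
  have hV0 : 0 < ‖h‖ := by linarith
  have hk0 : 0 < kap T ‖h‖ := by unfold kap; exact Real.sqrt_pos.2 (by positivity)
  have hk2 : kap T ‖h‖ ^ 2 = ‖h‖ / T := by unfold kap; exact Real.sq_sqrt (by positivity)
  have hk1 : kap T ‖h‖ ≤ 1 := by
    unfold kap
    have a : ‖h‖ / T ≤ 1 := by rw [div_le_one hT]; exact hVT
    calc Real.sqrt (‖h‖ / T) ≤ Real.sqrt 1 := Real.sqrt_le_sqrt a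
      _ = 1 := Real.sqrt_one
  have hr97 : T ^ (-(97 / 100 : ℝ)) ≤ kapr T ‖h‖ := le_max_right _ _
  have hr3 : kap T ‖h‖ ^ 3 ≤ kapr T ‖h‖ := le_max_left _ _
  have ht0 : 0 < tx T := Real.rpow_pos_of_pos hT _
  have hTt : T⁻¹ ≤ tx T := by
    unfold tx
    rw [← Real.rpow_neg_one]
    exact Real.rpow_le_rpow_of_exponent_le hT1 (by norm_num)
  refine ⟨hT, hV0, hk0, lt_of_lt_of_le (by positivity) hr3, ht0, by linarith [hb.t2], hk1, ?_,
    hr3, ?_, ?_, ?_⟩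
  · rw [hk2]; field_simp
  · have e : T ^ (-(97 / 100 : ℝ)) * T * tx T = 1 := by
      have a : T ^ (-(97 / 100 : ℝ)) * T = T ^ (3 / 100 : ℝ) := by
        conv_lhs => rw [← Real.rpow_one T]
        rw [← Real.rpow_mul hT.le, ← Real.rpow_add hT]
        norm_num
      rw [a]
      unfold tx
      rw [← Real.rpow_add hT]
      norm_num
    rw [← e]
    gcongr
  · refine max_le ?_ ?_
    · calc kap T ‖h‖ ^ 3 = kap T ‖h‖ ^ 2 * kap T ‖h‖ := by ring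
        _ ≤ kap T ‖h‖ ^ 2 * 1 := mul_le_mul_of_nonneg_left hk1 (by positivity)
        _ = T⁻¹ * ‖h‖ := by rw [hk2]; ring
        _ ≤ tx T * ‖h‖ := mul_le_mul_of_nonneg_right hTt hV0.le
    · calc T ^ (-(97 / 100 : ℝ)) ≤ tx T := by
            unfold tx
            exact Real.rpow_le_rpow_of_exponent_le hT1 (by norm_num)
        _ = tx T * 1 := (mul_one _).symm
        _ ≤ tx T * ‖h‖ := mul_le_mul_of_nonneg_left h1 ht0.le
  · have a : T ^ (-(1 / 2) : ℝ) ≤ kap T ‖h‖ := by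
      unfold kap
      refine Real.le_sqrt_of_sq_le ?_
      rw [← Real.rpow_natCast, ← Real.rpow_mul hT.le]
      have : (-(1 / 2) : ℝ) * ((2 : ℕ) : ℝ) = -1 := by norm_num
      rw [this, Real.rpow_neg_one, le_div_iff₀ hT, inv_mul_cancel₀ hT.ne']
      exact h1
    have b : 1 ≤ T ^ (-(1 / 2) : ℝ) * T * tx T := by
      have c : T ^ (-(1 / 2) : ℝ) * T = T ^ (1 / 2 : ℝ) := by
        conv_lhs => rw [← Real.rpow_one T]
        rw [← Real.rpow_mul hT.le, ← Real.rpow_add hT]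
        norm_num
      rw [c]
      unfold tx
      rw [← Real.rpow_add hT]
      exact Real.one_le_rpow hT1 (by norm_num)
    refine b.trans ?_
    gcongr

theorem vr_le (hb : Bg T) (h1 : 1 ≤ ‖h‖) (hh : ‖h‖ ≤ 8 * Lx T) :
    ‖h‖ / kapr T ‖h‖ + ‖h‖ / kap T ‖h‖ ≤ Rx T := by
  have hp := par_of hb h1 hh
  have hT := hb.T0
  have hT1 := hb.T1
  have hS0 : 0 < T ^ (4 / 3 : ℝ) := Real.rpow_pos_of_pos hT _
  have a1 : ‖h‖ / kapr T ‖h‖ ≤ T ^ (4 / 3 : ℝ) := by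
    rw [div_le_iff₀ hp.r0]
    have hr97 : T ^ (-(97 / 100 : ℝ)) ≤ kapr T ‖h‖ := le_max_right _ _
    have h6 : (kap T ‖h‖ ^ 3) ^ 2 ≤ kapr T ‖h‖ ^ 2 :=
      pow_le_pow_left₀ (by have := hp.k0; positivity) hp.p2 2
    have h7 : (kap T ‖h‖ ^ 3) ^ 2 = ‖h‖ ^ 3 / T ^ 3 := by
      have := hp.kk
      calc (kap T ‖h‖ ^ 3) ^ 2 = (kap T ‖h‖ ^ 2) ^ 3 := by ring
        _ = _ := by rw [← this]; ring
    have h8 : T⁻¹ ≤ kapr T ‖h‖ := by
      refine le_trans ?_ hr97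
      rw [← Real.rpow_neg_one]
      exact Real.rpow_le_rpow_of_exponent_le hT1 (by norm_num)
    have h9 : ‖h‖ ^ 3 ≤ (T ^ (4 / 3 : ℝ) * kapr T ‖h‖) ^ 3 := by
      have e : (T ^ (4 / 3 : ℝ)) ^ 3 = T ^ 4 := by
        rw [← Real.rpow_natCast, ← Real.rpow_mul hT.le]
        have : (4 / 3 : ℝ) * ((3 : ℕ) : ℝ) = ((4 : ℕ) : ℝ) := by norm_num
        rw [this, Real.rpow_natCast]
      rw [mul_pow, e]
      rw [h7] at h6
      have hr0 := hp.r0
      calc ‖h‖ ^ 3 = T ^ 4 * (T⁻¹ * (‖h‖ ^ 3 / T ^ 3)) := by field_simp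
        _ ≤ T ^ 4 * (kapr T ‖h‖ * kapr T ‖h‖ ^ 2) := by gcongr
        _ = _ := by ring
    exact le_of_pow_le_pow_left₀ (by norm_num) (by have := hp.r0; positivity) h9
  have a2 : ‖h‖ / kap T ‖h‖ ≤ T ^ (4 / 3 : ℝ) := by
    have e : ‖h‖ / kap T ‖h‖ = kap T ‖h‖ * T := by
      have := hp.k0
      rw [div_eq_iff this.ne']
      calc ‖h‖ = kap T ‖h‖ ^ 2 * T := hp.p1
        _ = _ := by ring
    rw [e]
    calc kap T ‖h‖ * T ≤ 1 * T := mul_le_mul_of_nonneg_right hp.k1 hT.le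
      _ = T ^ (1 : ℝ) := by rw [one_mul, Real.rpow_one]
      _ ≤ T ^ (4 / 3 : ℝ) := Real.rpow_le_rpow_of_exponent_le hT1 (by norm_num)
  linarith [hb.R1]

/-- `Ok` for points with sizes of level at most eight -/
theorem ok_of (hb : Bg T) (hh : ‖h‖ ≤ 8 * Lx T) {a : ℝ} (ha0 : 1 ≤ a) (ha8 : a ≤ 8) {x : T3}
    (hs : Sz a (Px T) T x) : Ok (Kc (Px T)) T ‖h‖ x (t3 h) := by
  have hP := hb.P1
  have hr := hs.reg (V := ‖h‖) (h := t3 h) (by linarith) ha8 ha0 hP hb.T0 (t3_norm_le h)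
  have hL : 0 ≤ Lx T := by have := hb.T0; unfold Lx; positivity
  have h1 : 6 * (8 * Px T) ^ 4 * ‖h‖ ^ 2 ≤ T ^ 2 := by
    refine le_trans ?_ hb.ok
    have := norm_nonneg h
    gcongr
  exact ok_of_reg (by linarith) hb.T0 h1 hr

/-- a trivial bound for the norm of a vector -/
theorem nb_triv (hb : Bg T) (h1 : 1 ≤ ‖h‖) (hh : ‖h‖ ≤ 8 * Lx T) {a : ℝ} (ha0 : 1 ≤ a)
    (ha8 : a ≤ 8) {x : T3} (hs : Sz a (Px T) T x) (v : T3) :
    NB T (kap T ‖h‖) (kapr T ‖h‖) x (t3 h) v (72 * Kc (Px T) ^ 4 * ‖h‖ * ‖v‖) := by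
  have hp := par_of hb h1 hh
  have ho := ok_of hb hh ha0 ha8 hs
  have hK := hb.K1
  have hT := hb.T0
  have hv := norm_nonneg v
  have hip := hs.ip ha8 ha0 hb.P1 hT
  have hip0 : 0 < ip x x := lt_of_lt_of_le (by positivity) hip
  have hxK : ‖x‖ ≤ Kc (Px T) * T := (pi_norm_le_iff_of_nonneg (by positivity)).2 ho.hm
  have k4 : Kc (Px T) ≤ Kc (Px T) ^ 4 := by
    calc Kc (Px T) = Kc (Px T) ^ 1 := (pow_one _).symm
      _ ≤ _ := pow_le_pow_right₀ hK (by norm_num)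
  have k34 : Kc (Px T) ^ 3 ≤ Kc (Px T) ^ 4 := pow_le_pow_right₀ hK (by norm_num)
  have k14 : 1 ≤ Kc (Px T) ^ 4 := one_le_pow₀ hK
  have hq : 0 ≤ ‖h‖ * ‖v‖ := by positivity
  have big : ∀ c : ℝ, 0 ≤ c → c ≤ 72 → ∀ t, t ≤ Kc (Px T) ^ 4 →
      c * t * ‖v‖ ≤ 72 * Kc (Px T) ^ 4 * ‖h‖ * ‖v‖ := by
    intro c hc hc2 t ht
    have b1 : c * t ≤ 72 * Kc (Px T) ^ 4 := by
      calc c * t ≤ c * Kc (Px T) ^ 4 := mul_le_mul_of_nonneg_left ht hc
        _ ≤ _ := mul_le_mul_of_nonneg_right hc2 (by linarith)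
    calc c * t * ‖v‖ ≤ 72 * Kc (Px T) ^ 4 * ‖v‖ := mul_le_mul_of_nonneg_right b1 hv
      _ = 72 * Kc (Px T) ^ 4 * 1 * ‖v‖ := by ring
      _ ≤ _ := by gcongr
  -- the radial coordinate
  have hν1 : |nu x v| * ‖x‖ ≤ 6 * ‖v‖ := by
    have a1 := abs_ip_le v x
    have a2 := sq_norm_le_ip x
    have e : |nu x v| = |ip v x| / ip x x := by
      unfold nu; rw [abs_div, abs_of_pos hip0]
    rw [e, div_mul_eq_mul_div, div_le_iff₀ hip0]
    have hx := norm_nonneg x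
    calc |ip v x| * ‖x‖ ≤ 6 * ‖v‖ * ‖x‖ * ‖x‖ := mul_le_mul_of_nonneg_right a1 hx
      _ = 6 * ‖v‖ * ‖x‖ ^ 2 := by ring
      _ ≤ 6 * ‖v‖ * ip x x := by gcongr
  have hν2 : |nu x v| * T ≤ 6 * Kc (Px T) ^ 3 * ‖v‖ := by
    have a1 := abs_ip_le v x
    have e : |nu x v| = |ip v x| / ip x x := by
      unfold nu; rw [abs_div, abs_of_pos hip0]
    rw [e, div_mul_eq_mul_div, div_le_iff₀ hip0]
    have hx := norm_nonneg x
    have hK0 : 0 < Kc (Px T) := by linarith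
    calc |ip v x| * T ≤ 6 * ‖v‖ * ‖x‖ * T := mul_le_mul_of_nonneg_right a1 hT.le
      _ ≤ 6 * ‖v‖ * (Kc (Px T) * T) * T := by gcongr
      _ = 6 * Kc (Px T) ^ 3 * ‖v‖ * (T ^ 2 / Kc (Px T) ^ 2) := by field_simp
      _ ≤ _ := by gcongr
  have hG : ∀ l, |Gf T x (t3 h) v l| ≤ 36 * Kc (Px T) ^ 4 * ‖h‖ * ‖v‖ := by
    intro l
    have b1 := blb (norm_Zf_le hT ho) (norm_le_pi_norm v l) (ho.hh l)
    have b2 := blb (norm_Bf_le hK hT ho v) (ho.hm l) (ho.hh l)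
    have b3 : 4 * (8 * Kc (Px T) ^ 3 * ‖v‖ / T) * (Kc (Px T) * T) * ‖h‖ =
        32 * Kc (Px T) ^ 4 * ‖h‖ * ‖v‖ := by field_simp; ring
    have b4 : 4 * Kc (Px T) * ‖v‖ * ‖h‖ ≤ 4 * Kc (Px T) ^ 4 * ‖h‖ * ‖v‖ := by
      calc 4 * Kc (Px T) * ‖v‖ * ‖h‖ = 4 * Kc (Px T) * (‖h‖ * ‖v‖) := by ring
        _ ≤ 4 * Kc (Px T) ^ 4 * (‖h‖ * ‖v‖) := by gcongr
        _ = _ := by ring
    unfold Gf
    refine (abs_add_le _ _).trans ?_
    linarith
  refine ⟨fun i j => ?_, ?_, ?_⟩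
  · have := abs_sub (Gf T x (t3 h) v i) (Gf T x (t3 h) v j)
    have := hG i
    have := hG j
    linarith
  · have a1 : ‖v - nu x v • x‖ ≤ 7 * 1 * ‖v‖ := by
      refine (norm_sub_le _ _).trans ?_
      rw [norm_smul, Real.norm_eq_abs]
      linarith
    calc kap T ‖h‖ * ‖v - nu x v • x‖ ≤ 1 * ‖v - nu x v • x‖ :=
          mul_le_mul_of_nonneg_right hp.k1 (norm_nonneg _)
      _ = ‖v - nu x v • x‖ := one_mul _
      _ ≤ _ := a1.trans (big 7 (by norm_num) (by norm_num) 1 k14)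
  · have hr1 : kapr T ‖h‖ ≤ 1 := by
      refine max_le ?_ ?_
      · exact pow_le_one₀ hp.k0.le hp.k1
      · exact Real.rpow_le_one_of_one_le_of_nonpos hb.T1 (by norm_num)
    calc kapr T ‖h‖ * T * |nu x v| = kapr T ‖h‖ * (|nu x v| * T) := by ring
      _ ≤ 1 * (6 * Kc (Px T) ^ 3 * ‖v‖) :=
          mul_le_mul hr1 hν2 (by positivity) (by norm_num)
      _ = 6 * Kc (Px T) ^ 3 * ‖v‖ := one_mul _
      _ ≤ _ := big 6 (by norm_num) (by norm_num) _ k34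

/-- the step -/
theorem step (hb : Bg T) (h1 : 1 ≤ ‖h‖) (hl : Lev 7 T h m) {u : R6} {N : ℝ}
    (hN : N ≤ Nx T) (hn : NB T (kap T ‖h‖) (kapr T ‖h‖) (t3 m) (t3 h) (t3 u) N) :
    St (Kc (Px T)) T ‖h‖ (tx T) (kap T ‖h‖) (kapr T ‖h‖) (8 * Px T) (t3 m) (t3 h) (t3 u) N ∧
      Cl T h m (m + u) (ex T) := by
  have hT := hb.T0
  have hK := hb.K1
  have hP := hb.P1
  have hLx : 0 ≤ Lx T := by unfold Lx; positivity
  have hh : ‖h‖ ≤ 8 * Lx T := hl.hh.trans (by linarith)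
  have hp := par_of hb h1 hh
  have hsz : Sz 7 (Px T) T (t3 m) := ⟨hl.hm, hl.hd⟩
  have ho := ok_of hb hh (by norm_num) (by norm_num) hsz
  have hN0 := hn.nonneg hp.k0
  have hN1 : N ≤ 1 := hN.trans hb.Nx1
  have hτ := hp.t0
  -- size of the step
  have hμ := hn.nu_le hp
  have hmK : ‖t3 m‖ ≤ Kc (Px T) * T := (pi_norm_le_iff_of_nonneg (by positivity)).2 ho.hm
  have hw : ‖t3 u - nu (t3 m) (t3 u) • t3 m‖ ≤ N * (T * tx T) := by
    have b1 := hn.w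
    have b2 := hp.p6
    have b0 := norm_nonneg (t3 u - nu (t3 m) (t3 u) • t3 m)
    calc ‖t3 u - nu (t3 m) (t3 u) • t3 m‖ ≤
        (kap T ‖h‖ * T * tx T) * ‖t3 u - nu (t3 m) (t3 u) • t3 m‖ := by nlinarith
      _ = (kap T ‖h‖ * ‖t3 u - nu (t3 m) (t3 u) • t3 m‖) * (T * tx T) := by ring
      _ ≤ N * (T * tx T) := mul_le_mul_of_nonneg_right b1 (by positivity)
  have hNtT : N * tx T * T ≤ N * T := by
    have : tx T ≤ 1 := hp.t1
    have : N * tx T ≤ N * 1 := mul_le_mul_of_nonneg_left this hN0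
    nlinarith
  have hμm : ‖nu (t3 m) (t3 u) • t3 m‖ ≤ Kc (Px T) * N * T := by
    rw [norm_smul, Real.norm_eq_abs]
    calc |nu (t3 m) (t3 u)| * ‖t3 m‖ ≤ (N * tx T) * (Kc (Px T) * T) :=
          mul_le_mul hμ hmK (norm_nonneg _) (by positivity)
      _ = Kc (Px T) * (N * tx T * T) := by ring
      _ ≤ Kc (Px T) * (N * T) := mul_le_mul_of_nonneg_left hNtT (by linarith)
      _ = _ := by ring
  have hu : ‖t3 u‖ ≤ 2 * Kc (Px T) * N * T := by
    have e : t3 u = nu (t3 m) (t3 u) • t3 m + (t3 u - nu (t3 m) (t3 u) • t3 m) := by abel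
    have a1 : ‖t3 u‖ ≤ ‖nu (t3 m) (t3 u) • t3 m‖ + ‖t3 u - nu (t3 m) (t3 u) • t3 m‖ := by
      conv_lhs => rw [e]
      exact norm_add_le _ _
    have a2 : N * (T * tx T) ≤ Kc (Px T) * N * T := by
      calc N * (T * tx T) = N * tx T * T := by ring
        _ ≤ N * T := hNtT
        _ = 1 * (N * T) := (one_mul _).symm
        _ ≤ Kc (Px T) * (N * T) := mul_le_mul_of_nonneg_right hK (by positivity)
        _ = _ := by ring
    linarith
  -- smallness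
  have hKN : 10 ^ 8 * Kc (Px T) ^ 8 * N ≤ ex T := by
    refine le_trans ?_ hb.N1
    have : 0 ≤ Kc (Px T) ^ 8 := by positivity
    gcongr
  have hk : ∀ (c : ℝ) (n : ℕ), 0 ≤ c → c ≤ 10 ^ 8 → n ≤ 8 → c * Kc (Px T) ^ n * N ≤ ex T := by
    intro c n hc0 hc hn8
    refine le_trans ?_ hKN
    have b1 : Kc (Px T) ^ n ≤ Kc (Px T) ^ 8 := pow_le_pow_right₀ hK hn8
    gcongr
  have hsm : 2 * Kc (Px T) * N * T ≤ T / (2500 * Px T) := by
    have b1 := hk 2 1 (by norm_num) (by norm_num) (by norm_num)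
    rw [pow_one] at b1
    calc 2 * Kc (Px T) * N * T ≤ 1 / (2500 * Px T) * T :=
          mul_le_mul_of_nonneg_right (b1.trans hb.e1) hT.le
      _ = _ := by ring
  have hszu := hsz.move (u := t3 u) (by norm_num) (by norm_num) hP hT (hu.trans hsm)
  have hszm := hsz.move (u := nu (t3 m) (t3 u) • t3 m) (by norm_num) (by norm_num) hP hT
    (hμm.trans (le_trans (by
      have : 0 ≤ Kc (Px T) * N * T := by positivity
      linarith) hsm))
  have e7 : (7 : ℝ) + 1 = 8 := by norm_num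
  rw [e7] at hszu hszm
  have em : t3 m + nu (t3 m) (t3 u) • t3 m = (1 + nu (t3 m) (t3 u)) • t3 m := by
    rw [add_smul, one_smul]
  rw [em] at hszm
  have ho' := ok_of hb hh (by norm_num) (le_refl _) hszu
  have hos := ok_of hb hh (by norm_num) (le_refl _) hszm
  have st : St (Kc (Px T)) T ‖h‖ (tx T) (kap T ‖h‖) (kapr T ‖h‖) (8 * Px T) (t3 m) (t3 h)
      (t3 u) N :=
    { K1 := hK, par := hp, ok := ho, oks := hos, ok' := ho'
      ip0 := hsz.ip (by norm_num) (by norm_num) hP hT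
      ip1 := hszu.ip (le_refl _) (by norm_num) hP hT
      F0 := fun i j => (hl.hF i j).trans (by nlinarith)
      Φ0 := by linarith
      Φτ := hb.Pt
      nb := hn
      N1 := hN1
      τ2 := hb.t2 }
  refine ⟨st, ?_, ?_, ?_, ?_⟩
  · have e : m + u - m = u := by abel
    rw [e, ← norm_t3]
    refine hu.trans ?_
    have b1 := hk 2 1 (by norm_num) (by norm_num) (by norm_num)
    rw [pow_one] at b1
    exact mul_le_mul_of_nonneg_right b1 hT.le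
  · intro i j
    rw [t3_add]
    exact (st.dF i j).trans (hk 3750 6 (by norm_num) (by norm_num) (by norm_num))
  · intro l
    rw [t3_add]
    refine (st.dF1 l).trans ?_
    have b1 := hk 52 5 (by norm_num) (by norm_num) (by norm_num)
    have b2 := vr_le hb h1 hh
    have b3 : 0 ≤ ‖h‖ / kapr T ‖h‖ + ‖h‖ / kap T ‖h‖ := by
      have := hp.k0
      have := hp.r0
      positivity
    have e0 : 0 ≤ ex T := by unfold ex; positivity
    exact mul_le_mul b1 b2 b3 e0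
  · rw [t3_add]
    refine (dZ_le hK hT ho ho' st.u_le2).trans ?_
    calc 12 * Kc (Px T) ^ 3 * ‖t3 u‖ / T ≤ 12 * Kc (Px T) ^ 3 * (2 * Kc (Px T) * N * T) / T := by
          gcongr
      _ = 24 * Kc (Px T) ^ 4 * N := by field_simp; ring
      _ ≤ ex T := hk 24 4 (by norm_num) (by norm_num) (by norm_num)

end

end Pool.Agent.Helper48_F5
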